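import Pool.Agent.Run7.h484.KG.Int

/-!
# Two-sided averages: polynomial phases, factors with discrete spectrum
-/

set_option autoImplicit false
set_option linter.unusedSectionVars false

open MeasureTheory Filter Topology
open scoped ENNReal

noncomputable section

namespace Pool.Agent.Run7.h484.KG

open Pool.Agent.TH784.KE
open Pool.Agent.TH739.PA (av avr avr_add avr_mono avr_nonneg avr_abs avr_const_le avr_mul av_add
  av_mul av_sub int_lim Good Cls_zero Cls_conv closed_slot av_norm av_ofReal Icc_card)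
open Pool.Agent.W761.Gauss (BM BM_of_memLp)

section phase

theorem av_of_um {b : (Fin 1 → ℤ) → ℂ} {c : ℂ} (h : Pool.Agent.W742.CU.UM b c) :
    Tendsto (fun N => av (Ic N) fun n => b fun _ => n) atTop (𝓝 c) := by
  rw [Metric.tendsto_atTop]
  intro ε hε
  obtain ⟨L, hL⟩ := h (ε / 2) (by positivity)
  refine ⟨L, fun N hN => ?_⟩
  have h1 := hL (fun _ => -(N : ℤ)) (fun _ => 2 * N + 1) (fun _ => by omega)
  have hs : ∑ x ∈ Pool.Agent.W742.CU.bx (fun _ : Fin 1 => -(N : ℤ)) (fun _ => 2 * N + 1), b x =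
      ∑ n ∈ Ic N, b fun _ => n := by
    refine Finset.sum_nbij' (fun h => h 0) (fun n _ => n) ?_ ?_ ?_ ?_ ?_
    · intro h hh
      rw [Pool.Agent.W742.CU.mem_bx] at hh
      have := hh 0
      unfold Ic
      rw [Finset.mem_Icc]
      push_cast at this
      constructor <;> omega
    · intro n hn
      unfold Ic at hn
      rw [Finset.mem_Icc] at hn
      rw [Pool.Agent.W742.CU.mem_bx]
      intro _
      push_cast
      constructor <;> omega
    · intro h _
      funext j
      rw [Subsingleton.elim j 0]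
    · intro n _
      rfl
    · intro h _
      congr 1
      funext j
      rw [Subsingleton.elim j 0]
  have hv : Pool.Agent.W742.CU.vl (fun _ : Fin 1 => 2 * N + 1) = 2 * (N : ℝ) + 1 := by
    unfold Pool.Agent.W742.CU.vl
    rw [Fin.prod_univ_one]
    push_cast
    ring
  rw [hs, hv] at h1
  have hp : (0 : ℝ) < 2 * (N : ℝ) + 1 := by positivity
  have hpc : ((2 * (N : ℝ) + 1 : ℝ) : ℂ) ≠ 0 := by exact_mod_cast hp.ne'
  have e : av (Ic N) (fun n => b fun _ => n) - c =
      ((2 * (N : ℝ) + 1 : ℝ) : ℂ)⁻¹ *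
        (∑ n ∈ Ic N, (b fun _ => n) - ((2 * (N : ℝ) + 1 : ℝ) : ℂ) * c) := by
    unfold av
    rw [Ic_card, mul_sub, inv_mul_cancel_left₀ hpc]
    push_cast
    ring
  rw [dist_eq_norm, e, norm_mul, norm_inv, Complex.norm_real, Real.norm_of_nonneg hp.le,
    inv_mul_lt_iff₀ hp]
  calc _ ≤ ε / 2 * (2 * (N : ℝ) + 1) := h1
    _ < (2 * (N : ℝ) + 1) * ε := by nlinarith

/-- averages of products of powers with polynomial exponents -/
theorem phase_convZ {α : Type*} [Fintype α] (χ : α → Circle) (p : α → Polynomial ℤ) :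
    ∃ L : ℂ, Tendsto (fun N => av (Ic N) fun n =>
      ((∏ i, χ i ^ ((p i).eval n) : Circle) : ℂ)) atTop (𝓝 L) := by
  classical
  let P : α → MvPolynomial (Fin 1) ℤ := fun i =>
    Polynomial.aeval (MvPolynomial.X 0 : MvPolynomial (Fin 1) ℤ) (p i)
  have hP : ∀ i (m : Fin 1 → ℤ), MvPolynomial.eval m (P i) = (p i).eval (m 0) := by
    intro i m
    show MvPolynomial.eval m (Polynomial.aeval (MvPolynomial.X 0 : MvPolynomial (Fin 1) ℤ) (p i))
      = _
    rw [Polynomial.aeval_def, Polynomial.hom_eval₂]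
    have h1 : (MvPolynomial.eval m).comp (algebraMap ℤ (MvPolynomial (Fin 1) ℤ)) =
        RingHom.id ℤ := by
      ext
      simp
    rw [h1, MvPolynomial.eval_X]
    rfl
  have hD : ∃ D : ℕ, ∀ i, (P i).totalDegree ≤ D := by
    refine ⟨∑ i, (P i).totalDegree, fun i => ?_⟩
    exact Finset.single_le_sum (f := fun i => (P i).totalDegree) (fun _ _ => Nat.zero_le _)
      (Finset.mem_univ i)
  obtain ⟨D, hD⟩ := hD
  let w : α → (Fin 1 → ℤ) → Additive Circle := fun i n =>
    (MvPolynomial.eval n (P i)) • Additive.ofMul (χ i)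
  have h1 : ∀ i, Pool.Agent.W742.CU.IsPoly (1 * (D + 1))
      (fun n : Fin 1 → ℤ => MvPolynomial.eval n (P i)) := by
    intro i
    refine Pool.Agent.TH635.AA.sep_isPoly ?_
    have h2 := Pool.Agent.TH635.AA.sep_eval (P i) (hD i) 1 (0 : Fin 1 → ℤ)
    intro m l
    have h3 := h2 m l
    have e : (fun t => MvPolynomial.eval (Function.update m l t) (P i)) =
        fun t => MvPolynomial.eval (fun j => (0 : Fin 1 → ℤ) j + 1 * Function.update m l t j)
          (P i) := by
      funext t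
      congr 2
      funext j
      simp
    rw [e]
    exact h3
  have h2 : Pool.Agent.W742.CU.IsPoly (1 * (D + 1)) (fun n => ∑ i, w i n) := by
    refine Pool.Agent.W742.CU.IsPoly.sum _ fun i _ => ?_
    have h3 := (h1 i).map (zmultiplesHom (Additive Circle) (Additive.ofMul (χ i)))
    exact h3
  have h3 := h2.map Pool.Agent.TH784.AA.toU
  obtain ⟨c, hc⟩ := Pool.Agent.TH784.AA.um_poly h3
  refine ⟨c, (av_of_um hc).congr fun N => ?_⟩
  congr 1
  funext n
  rw [Pool.Agent.TH784.AA.ev_toU]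
  have e : (∑ i, w i (fun _ => n)).toMul = ∏ i, χ i ^ ((p i).eval n) := by
    rw [toMul_sum]
    refine Finset.prod_congr rfl fun i _ => ?_
    show (χ i) ^ (MvPolynomial.eval (fun _ => n) (P i)) = _
    rw [hP]
  rw [e]

end phase

section dense

variable {ι : Type*} {X : Type} [MeasurableSpace X] {J : Type*} [Fintype J] [DecidableEq J]

/-- convergence of averages of products -/
def Cvg (μ : Measure X) (B : ℕ → Finset ι) (g : J → ι → X → X) (F : J → X → ℂ) : Prop :=
  ∀ᵐ x ∂μ, (fun N => av (B N) fun m => (∏ j, F j (g j m x)) * 1) ∈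
    {u : ℕ → ℂ | ∃ L, Tendsto u atTop (𝓝 L)}

theorem Cvg_add {μ : Measure X} {B : ℕ → Finset ι} {g : J → ι → X → X}
    {F : J → X → ℂ} {j : J} {f f' : X → ℂ}
    (hf : Cvg μ B g (Function.update F j f)) (hg : Cvg μ B g (Function.update F j f')) :
    Cvg μ B g (Function.update F j (f + f')) := by
  filter_upwards [hf, hg] with x hx hx'
  obtain ⟨L, hL⟩ := hx
  obtain ⟨L', hL'⟩ := hx'
  refine ⟨L + L', (hL.add hL').congr fun N => ?_⟩
  rw [← av_add]
  congr 1
  funext n
  rw [prod_upd, prod_upd, prod_upd, Pi.add_apply, add_mul, add_mul]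

theorem Cvg_smul {μ : Measure X} {B : ℕ → Finset ι} {g : J → ι → X → X}
    {F : J → X → ℂ} {j : J} {f : X → ℂ} (c : ℂ) (hf : Cvg μ B g (Function.update F j f)) :
    Cvg μ B g (Function.update F j (c • f)) := by
  filter_upwards [hf] with x hx
  obtain ⟨L, hL⟩ := hx
  refine ⟨c * L, (hL.const_mul c).congr fun N => ?_⟩
  rw [← av_mul]
  congr 1
  funext n
  rw [prod_upd, prod_upd, Pi.smul_apply, smul_eq_mul, mul_assoc, mul_assoc, mul_assoc]

theorem Cvg_zero {μ : Measure X} {B : ℕ → Finset ι} {g : J → ι → X → X}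
    {F : J → X → ℂ} {j : J} : Cvg μ B g (Function.update F j (0 : X → ℂ)) := by
  refine Eventually.of_forall fun x => ⟨0, ?_⟩
  refine Tendsto.congr (fun N => ?_) (tendsto_const_nhds (x := (0 : ℂ)))
  unfold av
  simp [prod_upd]

/-- From a class `𝓔` of functions to the functions which are limits of linear combinations. -/
theorem Cvg_dense {μ : Measure X} [IsProbabilityMeasure μ] {B : ℕ → Finset ι}
    {g : J → ι → X → X}
    (hg : ∀ j m, MeasurePreserving (g j m) μ μ) (hgood : ∀ j, Good atTop B μ (g j))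
    {𝓔 : Set (X → ℂ)} (h𝓔 : ∀ f ∈ 𝓔, BM f)
    (hE : ∀ F : J → X → ℂ, (∀ j, F j ∈ 𝓔) → Cvg μ B g F)
    {F : J → X → ℂ} (hF : ∀ j, BM (F j) ∧ ∀ ε : ℝ, 0 < ε → ∃ (s : ℕ) (c : Fin s → ℂ)
      (h : Fin s → X → ℂ), (∀ i, h i ∈ 𝓔) ∧ ∫ x, ‖F j x - ∑ i, c i * h i x‖ ∂μ ≤ ε) :
    Cvg μ B g F := by
  classical
  have key : ∀ (S : Finset J) (F : J → X → ℂ),
      (∀ j ∈ S, BM (F j) ∧ ∀ ε : ℝ, 0 < ε → ∃ (s : ℕ) (c : Fin s → ℂ)
        (h : Fin s → X → ℂ), (∀ i, h i ∈ 𝓔) ∧ ∫ x, ‖F j x - ∑ i, c i * h i x‖ ∂μ ≤ ε) →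
      (∀ j ∉ S, F j ∈ 𝓔) → Cvg μ B g F := by
    intro S
    induction S using Finset.induction_on with
    | empty =>
      intro F _ hF2
      exact hE F fun j => hF2 j (Finset.notMem_empty j)
    | insert v S hv ih =>
      intro F hF1 hF2
      have hBMall : ∀ w, BM (F w) := by
        intro w
        by_cases hw : w ∈ insert v S
        · exact (hF1 w hw).1
        · exact h𝓔 _ (hF2 w hw)
      have hone : ∀ h ∈ 𝓔, Cvg μ B g (Function.update F v h) := by
        intro h hh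
        apply ih
        · intro w hw
          have hwv : w ≠ v := fun e => hv (e ▸ hw)
          rw [Function.update_of_ne hwv]
          exact hF1 w (Finset.mem_insert_of_mem hw)
        · intro w hw
          by_cases hwv : w = v
          · subst hwv
            rw [Function.update_self]
            exact hh
          · rw [Function.update_of_ne hwv]
            apply hF2
            intro hmem
            rcases Finset.mem_insert.mp hmem with h5 | h5
            · exact hwv h5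
            · exact hw h5
      have hcomb : ∀ (s : ℕ) (c : Fin s → ℂ) (h : Fin s → X → ℂ), (∀ i, h i ∈ 𝓔) →
          ∀ T : Finset (Fin s), Cvg μ B g (Function.update F v (∑ i ∈ T, c i • h i)) := by
        intro s c h hh T
        induction T using Finset.induction_on with
        | empty =>
          rw [Finset.sum_empty]
          exact Cvg_zero
        | insert a T ha ihT =>
          rw [Finset.sum_insert ha]
          exact Cvg_add (Cvg_smul _ (hone _ (hh a))) ihT
      obtain ⟨hBM, happ⟩ := hF1 v (Finset.mem_insert_self v S)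
      have hgoal : Cvg μ B g (Function.update F v (F v)) := by
        refine slot_closed (Cls_conv atTop) (W := fun _ _ => 1) (fun n x => by rw [norm_one]) hg
          hgood hBMall hBM fun ε hε => ?_
        obtain ⟨s, c, h, hh, hle⟩ := happ ε hε
        refine ⟨∑ i, c i • h i, ?_, ?_, hcomb s c h hh Finset.univ⟩
        · choose hm C hC using fun i => h𝓔 (h i) (hh i)
          refine ⟨?_, ∑ i, ‖c i‖ * |C i|, fun x => ?_⟩
          · have e : (∑ i, c i • h i) = fun x => ∑ i, (c i • h i) x := by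
              funext x
              rw [Finset.sum_apply]
            rw [e]
            exact Finset.measurable_fun_sum _ fun i _ => (hm i).const_smul (c i)
          rw [Finset.sum_apply]
          refine (norm_sum_le _ _).trans (Finset.sum_le_sum fun i _ => ?_)
          rw [Pi.smul_apply, smul_eq_mul, norm_mul]
          exact mul_le_mul_of_nonneg_left ((hC i x).trans (le_abs_self _)) (norm_nonneg _)
        · refine le_trans (le_of_eq ?_) hle
          congr 1
          funext x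
          rw [Finset.sum_apply]
          rfl
      rwa [Function.update_eq_self] at hgoal
  exact key Finset.univ F (fun v _ => hF v) fun v hv => absurd (Finset.mem_univ v) hv

end dense

section words

variable {X G : Type} [Group G]

/-- The ordered product `t_1^(p_1(n)) ⋯ t_d^(p_d(n))`. -/
def wordZ {d : ℕ} (t : Fin d → G) (p : Fin d → Polynomial ℤ) (n : ℤ) : G :=
  (List.ofFn fun i : Fin d => t i ^ (p i).eval n).prod

theorem map_wordZ {H : Type*} [CommGroup H] {d : ℕ} (χ : G →* H) (t : Fin d → G)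
    (p : Fin d → Polynomial ℤ) (n : ℤ) :
    χ (wordZ t p n) = ∏ i, χ (t i) ^ (p i).eval n := by
  unfold wordZ
  rw [map_list_prod, List.map_ofFn, List.prod_ofFn]
  refine Finset.prod_congr rfl fun i _ => ?_
  rw [Function.comp_apply, map_zpow]

/-- the value of `ℓ` along a word, as a polynomial -/
def levelZ {d : ℕ} (ℓ : G → ℝ) (t : Fin d → G) (p : Fin d → Polynomial ℤ) : Polynomial ℝ :=
  ∑ i, Polynomial.C (ℓ (t i)) * (p i).map (Int.castRingHom ℝ)

theorem level_wordZ {ℓ : G → ℝ} (hℓ : ∀ a b, ℓ (a * b) = ℓ a + ℓ b) {d : ℕ} (t : Fin d → G)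
    (p : Fin d → Polynomial ℤ) (n : ℤ) :
    ℓ (wordZ t p n) = (levelZ ℓ t p).eval (n : ℝ) := by
  have h1 : ℓ 1 = 0 := by
    have := hℓ 1 1
    rw [mul_one] at this
    linarith
  let χ : G →* Multiplicative ℝ :=
    { toFun := fun g => Multiplicative.ofAdd (ℓ g)
      map_one' := by rw [h1]; rfl
      map_mul' := fun a b => by rw [hℓ]; rfl }
  have h2 := map_wordZ χ t p n
  have h3 : ℓ (wordZ t p n) = Multiplicative.toAdd (χ (wordZ t p n)) := rfl
  rw [h3, h2, toAdd_prod]
  unfold levelZ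
  rw [Polynomial.eval_finsetSum]
  refine Finset.sum_congr rfl fun i _ => ?_
  rw [toAdd_zpow, Polynomial.eval_mul, Polynomial.eval_C, zsmul_eq_mul, mul_comm]
  have h4 : ((p i).map (Int.castRingHom ℝ)).eval (n : ℝ) = (((p i).eval n : ℤ) : ℝ) := by
    have := Polynomial.eval_map_apply (f := Int.castRingHom ℝ) (p := p i) n
    simpa using this
  rw [h4]
  rfl

variable {J : Type*} [Fintype J] [DecidableEq J]

theorem eig_convZ [MeasurableSpace X] {μ : Measure X} {Φ : G →* Equiv.Perm X} {d : ℕ}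
    (t : Fin d → G) (P : J → Fin d → Polynomial ℤ) {h : J → X → ℂ} {χ : J → G →* Circle}
    (hh : ∀ j g, ∀ᵐ x ∂μ, h j (Φ g x) = (χ j g : ℂ) * h j x) :
    Cvg μ Ic (fun j n => (Φ (wordZ t (P j) n) : X → X)) h := by
  have h1 : ∀ᵐ x ∂μ, ∀ (n : ℤ) (j : J), h j (Φ (wordZ t (P j) n) x) =
      (χ j (wordZ t (P j) n) : ℂ) * h j x := by
    rw [ae_all_iff]
    intro n
    rw [ae_all_iff]
    intro j
    exact hh j _
  filter_upwards [h1] with x hx
  obtain ⟨L, hL⟩ := phase_convZ (α := J × Fin d) (fun a => χ a.1 (t a.2)) (fun a => P a.1 a.2)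
  refine ⟨(∏ j, h j x) * L, (hL.const_mul (∏ j, h j x)).congr fun N => ?_⟩
  rw [← av_mul]
  congr 1
  funext n
  rw [mul_one, Finset.prod_congr rfl fun j _ => hx n j, Finset.prod_mul_distrib, mul_comm]
  congr 1
  have e : ∏ a : J × Fin d, χ a.1 (t a.2) ^ (P a.1 a.2).eval n =
      ∏ j, χ j (wordZ t (P j) n) := by
    rw [Fintype.prod_prod_type]
    refine Finset.prod_congr rfl fun j _ => ?_
    rw [map_wordZ]
  rw [e]
  exact map_prod Circle.coeHom _ _

end words

variable {X G : Type} {mA mY mX : MeasurableSpace X} {μ : Measure X} [IsProbabilityMeasure μ]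
variable [Group G] {Φ : G →* Equiv.Perm X} {ℓ : G → ℝ}

/-- a factor with discrete spectrum -/
theorem disc_topZ {m d : ℕ} (hK : KExt μ mA mY Φ ℓ) {s₀ : G} (hs₀ : 0 < ℓ s₀)
    (t : Fin d → G) (P : Fin m → Fin d → Polynomial ℤ)
    (hdisp : ∀ j, Dispi fun n => ℓ (wordZ t (P j) n))
    (hsepa : ∀ i j, i ≠ j → ∀ R : ℝ,
      DZi {n | |ℓ (wordZ t (P i) n) - ℓ (wordZ t (P j) n)| < R})
    (hgood : ∀ j, Good atTop Ic μ fun n => (Φ (wordZ t (P j) n) : X → X))
    (hdisc : ∀ e : X → ℂ, Measurable[mY] e → (∃ C : ℝ, ∀ x, ‖e x‖ ≤ C) → ∀ ε : ℝ, 0 < ε →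
      ∃ (s : ℕ) (c : Fin s → ℂ) (h : Fin s → X → ℂ), (∀ i, Measurable[mY] (h i) ∧
        (∃ C : ℝ, ∀ x, ‖h i x‖ ≤ C) ∧ ∃ χ : G →* Circle, ∀ g, ∀ᵐ x ∂μ,
          h i (Φ g x) = (χ g : ℂ) * h i x) ∧ ∫ x, ‖e x - ∑ i, c i * h i x‖ ∂μ ≤ ε)
    {f : Fin m → X → ℂ} (hf : ∀ j, MemLp (f j) ∞ μ) :
    ∀ᵐ x ∂μ, ∃ L, Tendsto (fun N => av (Ic N) fun n => ∏ j, f j (Φ (wordZ t (P j) n) x))
      atTop (𝓝 L) := by
  classical
  have hYX : mY ≤ mX := hK.base.le.trans hK.filt.le
  choose g hg hfg using fun j => BM_of_memLp (hf j)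
  choose e he heY hee hfe using fun j => exists_cond (μ := μ) hYX (hg j)
  have hmain := char_set (q := fun n j => wordZ t (P j) n) (W := fun _ _ => 1) (Bs := Ic)
    hK hs₀ Ic_ne (fun v => (hdisp v).toDispg) (fun v w hvw R => (hsepa v w hvw R).toDZg)
    hgood (fun n => ⟨measurable_const, fun x => by rw [norm_one]⟩) hg he heY hfe
  have hbase : Cvg μ Ic (fun j n => (Φ (wordZ t (P j) n) : X → X)) e := by
    refine Cvg_dense (𝓔 := {h | BM h ∧ ∃ χ : G →* Circle, ∀ g, ∀ᵐ x ∂μ,
      h (Φ g x) = (χ g : ℂ) * h x}) (fun j n => hK.fl _) hgood (fun f hf => hf.1) ?_ ?_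
    · intro F hF
      choose χ hχ using fun j => (hF j).2
      exact eig_convZ t P hχ
    · intro j
      refine ⟨he j, fun ε hε => ?_⟩
      obtain ⟨s, c, h, hh, hle⟩ := hdisc (e j) (heY j) (he j).2 ε hε
      exact ⟨s, c, h, fun i => ⟨⟨(hh i).1.mono hYX le_rfl, (hh i).2.1⟩, (hh i).2.2⟩, hle⟩
  have h1 : ∀ᵐ x ∂μ, ∀ (n : ℤ) (j : Fin m),
      f j (Φ (wordZ t (P j) n) x) = g j (Φ (wordZ t (P j) n) x) := by
    rw [ae_all_iff]
    intro n
    rw [ae_all_iff]
    intro j
    exact (hK.fl _).quasiMeasurePreserving.ae (hfg j)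
  filter_upwards [hmain, hbase, h1] with x hx hxb hx1
  obtain ⟨L, hL⟩ := hxb
  have h4 := hx.add hL
  refine ⟨_, h4.congr fun N => ?_⟩
  rw [← av_add]
  congr 1
  funext n
  rw [Finset.prod_congr rfl fun j _ => hx1 n j]
  ring

theorem exists_posZ (hK : KExt μ mA mY Φ ℓ) {a : ℤ → G} (h : Dispi fun n => ℓ (a n)) :
    ∃ s₀ : G, 0 < ℓ s₀ := by
  classical
  by_contra hcon
  push Not at hcon
  have h0 : ∀ g, ℓ g = 0 := by
    intro g
    have h1 := hcon g
    have h2 := hcon g⁻¹
    rw [hK.filt.inv] at h2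
    linarith
  obtain ⟨L, E, hE, hL, hm⟩ := h 1
  have h1 : ∀ N : ℕ, ((Finset.Icc (-(N : ℤ)) N).filter fun n => n ∉ E).card ≤ L N := by
    intro N
    refine hm N 0 _ fun n hn => ?_
    rw [Finset.mem_filter, Finset.mem_Icc] at hn
    refine ⟨abs_le.2 hn.1, hn.2, ?_, ?_⟩
    · show 0 ≤ ℓ (a n)
      rw [h0]
    · show ℓ (a n) < 0 + 1
      rw [h0]
      norm_num
  have h2 : ∀ᶠ N : ℕ in atTop, (1 : ℝ) ≤ Real.log N :=
    (Real.tendsto_log_atTop.comp tendsto_natCast_atTop_atTop).eventually_ge_atTop 1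
  have h3 := (tendsto_order.mp hL).2 (1 / 2) (by norm_num)
  unfold DZi at hE
  have h4 := (tendsto_order.mp hE).2 (1 / 2) (by norm_num)
  obtain ⟨N, hN1, hN2, hN3, hN4⟩ := (h2.and (h3.and (h4.and (eventually_gt_atTop 0)))).exists
  have hN : (0 : ℝ) < N := by exact_mod_cast hN4
  have h5 := h1 N
  have h6 : ((Finset.Icc (-(N : ℤ)) N).filter fun n => n ∈ E).card +
      ((Finset.Icc (-(N : ℤ)) N).filter fun n => n ∉ E).card = 2 * N + 1 := by
    rw [← Icc_card N]
    exact Finset.card_filter_add_card_filter_not _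
  have h7 : (L N : ℝ) < 1 / 2 * N := by
    rw [div_lt_iff₀ hN] at hN2
    nlinarith [Nat.cast_nonneg (α := ℝ) (L N)]
  rw [div_lt_iff₀ hN] at hN3
  have h8 : (((Finset.Icc (-(N : ℤ)) N).filter fun n => n ∈ E).card : ℝ) +
      (((Finset.Icc (-(N : ℤ)) N).filter fun n => n ∉ E).card : ℝ) = 2 * N + 1 := by
    exact_mod_cast h6
  have h9 : (((Finset.Icc (-(N : ℤ)) N).filter fun n => n ∉ E).card : ℝ) ≤ L N := by
    exact_mod_cast h5
  linarith

theorem good_powZ (hΦ : ∀ g, MeasurePreserving (Φ g) μ μ) (w b : G) :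
    Good atTop Ic μ fun n : ℤ => (Φ (w * b ^ n) : X → X) := by
  intro F hF ⟨C, hC⟩
  have hinv : MeasurePreserving ((Φ b)⁻¹ : Equiv.Perm X) μ μ := by
    rw [← map_inv]
    exact hΦ _
  have h := Pool.Agent.TH739.PA.good_pow (Φ b) (hΦ b) hinv (fun x => F (Φ w x))
    (hF.comp (hΦ w).measurable) ⟨C, fun x => hC _⟩
  filter_upwards [h] with x hx
  obtain ⟨L, hL⟩ := hx
  refine ⟨L, hL.congr fun N => ?_⟩
  congr 1
  funext n
  show F (Φ w ((Φ b ^ n) x)) = F (Φ (w * b ^ n) x)
  rw [map_mul, map_zpow, Equiv.Perm.mul_apply]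

end Pool.Agent.Run7.h484.KG
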