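import Pool.Agent.Run7.h484.KG.Multi
import Pool.Agent.Run7.h484.KB.Disc
import Pool.Agent.TH739.PA.Act
import Pool.Agent.W761.Gauss.Main

/-!
# Two-sided averages over the integers
-/

set_option autoImplicit false
set_option linter.unusedSectionVars false

open MeasureTheory Filter Topology
open scoped ENNReal

noncomputable section

namespace Pool.Agent.Run7.h484.KG

open Pool.Agent.TH784.KE
open Pool.Agent.TH739.PA (av avr avr_add avr_mono avr_nonneg avr_abs avr_const_le avr_mul av_add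
  av_mul av_sub int_lim Good Cls_zero Cls_conv closed_slot av_norm av_ofReal Icc_card)
open Pool.Agent.W761.Gauss (BM BM_of_memLp)

/-- the intervals `[-N, N]` -/
def Ic (N : ℕ) : Finset ℤ := Finset.Icc (-(N : ℤ)) N

theorem Ic_card (N : ℕ) : (Ic N).card = 2 * N + 1 := Icc_card N

theorem Ic_ne (N : ℕ) : (Ic N).Nonempty := Finset.card_pos.1 (by rw [Ic_card]; omega)

open Classical in
/-- density zero -/
def DZi (E : Set ℤ) : Prop :=
  Tendsto (fun N : ℕ => (((Finset.Icc (-(N : ℤ)) N).filter fun n => n ∈ E).card : ℝ) / N)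
    atTop (𝓝 0)

/-- dispersion -/
def Dispi (a : ℤ → ℝ) : Prop :=
  ∀ R : ℝ, ∃ (L : ℕ → ℕ) (E : Set ℤ), DZi E ∧
    Tendsto (fun N : ℕ => (L N : ℝ) * Real.log N / N) atTop (𝓝 0) ∧
    ∀ (N : ℕ) (s : ℝ) (T : Finset ℤ),
      (∀ n ∈ T, |n| ≤ (N : ℤ) ∧ n ∉ E ∧ s ≤ a n ∧ a n < s + R) → T.card ≤ L N

theorem DZi.toDZg {E : Set ℤ} (h : DZi E) : DZg Ic E := by
  classical
  unfold DZi at h
  unfold DZg
  refine squeeze_zero' (Eventually.of_forall fun N => avr_nonneg fun n => by
    split_ifs <;> norm_num) ?_ h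
  filter_upwards [eventually_gt_atTop 0] with N hN
  have hN' : (0 : ℝ) < N := by exact_mod_cast hN
  unfold avr
  rw [Ic_card, ← Finset.sum_filter, Finset.sum_const, nsmul_eq_mul, mul_one, div_eq_inv_mul]
  refine mul_le_mul_of_nonneg_right ?_ (Nat.cast_nonneg _)
  apply inv_anti₀ hN'
  push_cast
  linarith

theorem Dispi.toDispg {a : ℤ → ℝ} (h : Dispi a) : Dispg Ic a := by
  intro R hR
  obtain ⟨L, E, hE, hL, hm⟩ := h R
  refine ⟨fun N => L N + 1, E, fun N => Nat.succ_pos _, fun η hη => ?_, hE.toDZg, ?_⟩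
  · -- summability
    have hlogN : Tendsto (fun N : ℕ => Real.log N / N) atTop (𝓝 0) := by
      have h1 := Real.isLittleO_log_id_atTop.tendsto_div_nhds_zero
      exact h1.comp tendsto_natCast_atTop_atTop
    have hL1 : Tendsto (fun N : ℕ => ((L N + 1 : ℕ) : ℝ) * Real.log N / N) atTop (𝓝 0) := by
      have h2 := hL.add hlogN
      rw [add_zero] at h2
      refine h2.congr fun N => ?_
      push_cast
      ring
    have hev : ∀ᶠ N : ℕ in atTop, ‖((L N + 1 : ℕ) : ℝ) *
        Real.exp (-(η * ((Ic N).card / ((L N + 1 : ℕ) : ℝ))))‖ ≤ 1 / (N : ℝ) ^ 3 := by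
      have h3 := (tendsto_order.mp hL1).2 (min (η / 2) 1) (lt_min (by positivity) one_pos)
      have h4 : ∀ᶠ N : ℕ in atTop, (1 : ℝ) ≤ Real.log N :=
        (Real.tendsto_log_atTop.comp tendsto_natCast_atTop_atTop).eventually_ge_atTop 1
      filter_upwards [h3, h4, eventually_gt_atTop 0] with N hN1 hN2 hN3
      have hN : (0 : ℝ) < N := by exact_mod_cast hN3
      have hLp : (0 : ℝ) < ((L N + 1 : ℕ) : ℝ) := by positivity
      have hb1 : ((L N + 1 : ℕ) : ℝ) * Real.log N < η / 2 * N := by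
        have := hN1.trans_le (min_le_left _ _)
        rwa [div_lt_iff₀ hN] at this
      have hb2 : ((L N + 1 : ℕ) : ℝ) ≤ N := by
        have := hN1.trans_le (min_le_right _ _)
        rw [div_lt_iff₀ hN, one_mul] at this
        nlinarith
      have hexp : Real.exp (-(η * ((Ic N).card / ((L N + 1 : ℕ) : ℝ)))) ≤
          Real.exp (-(4 * Real.log N)) := by
        apply Real.exp_le_exp.2
        rw [neg_le_neg_iff, mul_div_assoc', le_div_iff₀ hLp, Ic_card]
        push_cast
        push_cast at hb1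
        nlinarith
      have hexp2 : Real.exp (-(4 * Real.log N)) = 1 / (N : ℝ) ^ 4 := by
        rw [Real.exp_neg, one_div]
        congr 1
        have h5 := Real.exp_nat_mul (Real.log N) 4
        rw [Real.exp_log hN] at h5
        rw [← h5]
        norm_num
      rw [Real.norm_of_nonneg (by positivity)]
      calc ((L N + 1 : ℕ) : ℝ) * Real.exp (-(η * ((Ic N).card / ((L N + 1 : ℕ) : ℝ)))) ≤
          N * (1 / (N : ℝ) ^ 4) := by
            rw [← hexp2]
            exact mul_le_mul hb2 hexp (Real.exp_pos _).le hN.le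
        _ = 1 / (N : ℝ) ^ 3 := by
            field_simp
    exact Summable.of_norm_bounded_eventually_nat (Real.summable_one_div_nat_pow.2 (by norm_num))
      hev
  · intro N T hT hTE s hs
    refine (hm N s T fun n hn => ?_).trans (Nat.le_succ _)
    have h1 := Finset.mem_Icc.1 (hT hn)
    exact ⟨abs_le.2 ⟨h1.1, h1.2⟩, hTE n hn, hs n hn⟩

/-- a large set of integers contains many well spaced points -/
theorem spacedZ {g : ℕ} (hg : 0 < g) (n : ℕ) : ∀ T : Finset ℤ, n * g < T.card →
    ∃ S ⊆ T, S.card = n + 1 ∧ ∀ a ∈ S, ∀ b ∈ S, a < b → a + g ≤ b := by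
  induction n with
  | zero =>
    intro T hT
    rw [Nat.zero_mul, Finset.card_pos] at hT
    obtain ⟨t, ht⟩ := hT
    refine ⟨{t}, Finset.singleton_subset_iff.2 ht, Finset.card_singleton t, ?_⟩
    intro a ha b hb hab
    rw [Finset.mem_singleton] at ha hb
    omega
  | succ n ih =>
    intro T hT
    have hne : T.Nonempty := Finset.card_pos.1 (lt_of_le_of_lt (Nat.zero_le _) hT)
    set t₀ := T.min' hne with ht₀
    have hmem : t₀ ∈ T := T.min'_mem hne
    set T' := T.filter fun t => t₀ + g ≤ t with hT'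
    have hsub : T ⊆ T' ∪ Finset.Ico t₀ (t₀ + g) := by
      intro t ht
      rw [Finset.mem_union, hT', Finset.mem_filter, Finset.mem_Ico]
      have h1 : t₀ ≤ t := T.min'_le t ht
      by_cases h2 : t₀ + g ≤ t
      · exact Or.inl ⟨ht, h2⟩
      · exact Or.inr ⟨h1, by omega⟩
    have hcard : n * g < T'.card := by
      have h1 := (Finset.card_le_card hsub).trans (Finset.card_union_le _ _)
      rw [Int.card_Ico] at h1
      rw [Nat.succ_mul] at hT
      omega
    obtain ⟨S, hS, hSc, hSs⟩ := ih T' hcard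
    have hS' : ∀ a ∈ S, a ∈ T ∧ t₀ + g ≤ a := fun a ha => Finset.mem_filter.1 (hS ha)
    have hnot : t₀ ∉ S := fun h => by
      have := (hS' t₀ h).2
      omega
    refine ⟨insert t₀ S, ?_, ?_, ?_⟩
    · intro a ha
      rcases Finset.mem_insert.1 ha with rfl | h
      · exact hmem
      · exact (hS' a h).1
    · rw [Finset.card_insert_of_notMem hnot, hSc]
    · intro a ha b hb hab
      rcases Finset.mem_insert.1 ha with h1 | h1
      · rcases Finset.mem_insert.1 hb with h2 | h2
        · omega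
        · rw [h1]
          exact (hS' b h2).2
      · rcases Finset.mem_insert.1 hb with h2 | h2
        · have := (hS' a h1).2
          omega
        · exact hSs a h1 b h2 hab

/-- a nonconstant real polynomial takes values in a short interval only boundedly often -/
theorem mult_polyZ (Q : Polynomial ℝ) (hQ : Q.natDegree ≠ 0) (R : ℝ) :
    ∃ L : ℕ, ∀ (s : ℝ) (T : Finset ℤ),
      (∀ t ∈ T, s ≤ Q.eval (t : ℝ) ∧ Q.eval (t : ℝ) < s + R) → T.card ≤ L := by
  rcases le_or_gt R 0 with hR | hR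
  · refine ⟨0, fun s T hT => ?_⟩
    by_contra hcon
    obtain ⟨t, ht⟩ := Finset.card_pos.1 (not_le.1 hcon)
    have := hT t ht
    linarith [this.1, this.2]
  set D := Q.natDegree with hD
  set c₀ : ℝ := |Q.coeff D| with hc₀
  have hc : 0 < c₀ := by
    apply abs_pos.2
    rw [hD, Polynomial.coeff_natDegree]
    intro h0
    rw [Polynomial.leadingCoeff_eq_zero] at h0
    apply hQ
    rw [hD, h0, Polynomial.natDegree_zero]
  obtain ⟨g, hg⟩ := exists_nat_gt (max (((D : ℝ) + 1) * R / c₀) 1)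
  have hg1 : (1 : ℝ) < g := (le_max_right _ _).trans_lt hg
  have hg2 : ((D : ℝ) + 1) * R / c₀ < g := (le_max_left _ _).trans_lt hg
  have hg0 : 0 < g := by exact_mod_cast (lt_trans one_pos hg1)
  have hgr : (0 : ℝ) < g := by exact_mod_cast hg0
  refine ⟨D * g, fun s T hT => ?_⟩
  by_contra hcon
  rw [not_le] at hcon
  obtain ⟨S, hS, hSc, hSs⟩ := spacedZ hg0 D T hcon
  have hdeg : (Q - Polynomial.C s).degree < S.card := by
    rw [hSc]
    refine lt_of_le_of_lt (Polynomial.degree_le_of_natDegree_le (n := D) ?_) ?_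
    · refine (Polynomial.natDegree_sub_le _ _).trans ?_
      rw [Polynomial.natDegree_C]
      omega
    · exact_mod_cast Nat.lt_succ_self D
  have hinj : Set.InjOn (fun t : ℤ => (t : ℝ)) S := Int.cast_injective.injOn
  have h1 := Lagrange.coeff_eq_sum hinj hdeg
  have h2 : (Q - Polynomial.C s).coeff (S.card - 1) = Q.coeff D := by
    rw [hSc, Nat.add_sub_cancel, Polynomial.coeff_sub, Polynomial.coeff_C_of_ne_zero (by omega),
      sub_zero]
  rw [h2] at h1
  have h3 : |Q.coeff D| ≤ ∑ i ∈ S, R / g := by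
    rw [h1]
    refine (Finset.abs_sum_le_sum_abs _ _).trans (Finset.sum_le_sum fun i hi => ?_)
    rw [abs_div, Finset.abs_prod]
    have h4 : |(Q - Polynomial.C s).eval (i : ℝ)| ≤ R := by
      rw [Polynomial.eval_sub, Polynomial.eval_C]
      have := hT i (hS hi)
      rw [abs_le]
      constructor <;> linarith [this.1, this.2]
    have h5 : (g : ℝ) ≤ ∏ j ∈ S.erase i, |(i : ℝ) - j| := by
      have h6 : (g : ℝ) ^ D ≤ ∏ j ∈ S.erase i, |(i : ℝ) - j| := by
        have h7 : (g : ℝ) ^ D = ∏ _j ∈ S.erase i, (g : ℝ) := by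
          rw [Finset.prod_const, Finset.card_erase_of_mem hi, hSc, Nat.add_sub_cancel]
        rw [h7]
        refine Finset.prod_le_prod (fun _ _ => hgr.le) fun j hj => ?_
        have hj' := Finset.mem_of_mem_erase hj
        rcases lt_or_gt_of_ne (Finset.ne_of_mem_erase hj) with h | h
        · have h8 := hSs j hj' i hi h
          have h9 : (j : ℝ) + g ≤ i := by exact_mod_cast h8
          rw [abs_of_nonneg (by linarith)]
          linarith
        · have h8 := hSs i hi j hj' h
          have h9 : (i : ℝ) + g ≤ j := by exact_mod_cast h8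
          rw [abs_of_nonpos (by linarith)]
          linarith
      refine le_trans ?_ h6
      exact le_self_pow₀ hg1.le hQ
    exact div_le_div₀ hR.le h4 hgr h5
  rw [Finset.sum_const, hSc, nsmul_eq_mul] at h3
  push_cast at h3
  rw [div_lt_iff₀ hc] at hg2
  have h4 : ((D : ℝ) + 1) * (R / g) < c₀ := by
    rw [mul_div_assoc', div_lt_iff₀ hgr]
    linarith
  linarith

theorem tendsto_const_div (L : ℕ) : Tendsto (fun N : ℕ => (L : ℝ) / N) atTop (𝓝 0) :=
  tendsto_const_div_atTop_nhds_zero_nat (L : ℝ)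

theorem dz_fin {E : Set ℤ} {L : ℕ} (h : ∀ T : Finset ℤ, (∀ n ∈ T, n ∈ E) → T.card ≤ L) :
    DZi E := by
  classical
  unfold DZi
  refine squeeze_zero' (Eventually.of_forall fun N => by positivity) ?_ (tendsto_const_div L)
  filter_upwards [eventually_gt_atTop 0] with N hN
  have hN' : (0 : ℝ) < N := by exact_mod_cast hN
  refine div_le_div_of_nonneg_right ?_ hN'.le
  have := h ((Finset.Icc (-(N : ℤ)) N).filter fun n => n ∈ E) fun n hn =>
    (Finset.mem_filter.1 hn).2
  exact_mod_cast this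

theorem dispi_poly (Q : Polynomial ℝ) (hQ : Q.natDegree ≠ 0) :
    Dispi fun n : ℤ => Q.eval (n : ℝ) := by
  intro R
  obtain ⟨L, hL⟩ := mult_polyZ Q hQ R
  refine ⟨fun _ => L, ∅, dz_fin (L := 0) fun T hT => ?_, ?_, fun N s T hT => ?_⟩
  · rw [Nat.le_zero, Finset.card_eq_zero, Finset.eq_empty_iff_forall_notMem]
    intro n hn
    exact absurd (hT n hn) (Set.notMem_empty n)
  · have h1 : Tendsto (fun N : ℕ => Real.log N / N) atTop (𝓝 0) := by
      have h1 := Real.isLittleO_log_id_atTop.tendsto_div_nhds_zero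
      exact h1.comp tendsto_natCast_atTop_atTop
    have h2 := h1.const_mul (L : ℝ)
    rw [mul_zero] at h2
    refine h2.congr fun N => ?_
    rw [mul_div_assoc]
  · exact hL s T fun t ht => (hT t ht).2.2

theorem sepi_poly (Q Q' : Polynomial ℝ) (h : (Q - Q').natDegree ≠ 0) (R : ℝ) :
    DZi {n : ℤ | |Q.eval (n : ℝ) - Q'.eval (n : ℝ)| < R} := by
  obtain ⟨L, hL⟩ := mult_polyZ (Q - Q') h (2 * R)
  refine dz_fin (L := L) fun T hT => hL (-R) T fun t ht => ?_
  have h1 : |Q.eval (t : ℝ) - Q'.eval (t : ℝ)| < R := hT t ht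
  rw [abs_lt] at h1
  rw [Polynomial.eval_sub]
  constructor <;> linarith [h1.1, h1.2]

variable {X G : Type} {mA mY mX : MeasurableSpace X} {μ : Measure X} [IsProbabilityMeasure μ]
variable [Group G] {Φ : G →* Equiv.Perm X} {ℓ : G → ℝ}

/-- essentially bounded functions and bounded weights -/
theorem char_topZ {m : ℕ} (hK : KExt μ mA mY Φ ℓ) {s₀ : G} (hs₀ : 0 < ℓ s₀)
    {q : ℤ → Fin m → G} (hdisp : ∀ v, Dispi fun n => ℓ (q n v))
    (hsepa : ∀ v w, v ≠ w → ∀ R : ℝ, DZi {n | |ℓ (q n v) - ℓ (q n w)| < R})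
    (hgood : ∀ v, Good atTop Ic μ fun n => (Φ (q n v) : X → X))
    {W : ℤ → X → ℂ} (hW : ∀ n, Measurable[mY] (W n))
    (hWb : ∃ C : ℝ, ∀ n x, ‖W n x‖ ≤ C)
    {f : Fin m → X → ℂ} (hf : ∀ j, MemLp (f j) ∞ μ) :
    ∀ᵐ x ∂μ, Tendsto (fun N => av (Ic N) fun n => (∏ j, f j (Φ (q n j) x) -
      ∏ j, (μ[f j | mY]) (Φ (q n j) x)) * W n x) atTop (𝓝 0) := by
  obtain ⟨C, hC⟩ := hWb
  set D : ℝ := |C| + 1 with hD
  have hD0 : 0 < D := by positivity
  choose g hg hfg using fun j => BM_of_memLp (hf j)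
  choose e he heY hee hfe using fun j =>
    exists_cond (μ := μ) (hK.base.le.trans hK.filt.le) (hg j)
  have hmain := char_set (W := fun n x => (D : ℂ)⁻¹ * W n x) (Bs := Ic) hK hs₀ Ic_ne
    (fun v => (hdisp v).toDispg) (fun v w hvw R => (hsepa v w hvw R).toDZg) hgood
    (fun n => ⟨(hW n).const_mul _, fun x => by
      rw [norm_mul, norm_inv, Complex.norm_real, Real.norm_of_nonneg hD0.le,
        inv_mul_le_iff₀ hD0, mul_one]
      exact ((hC n x).trans (le_abs_self C)).trans (by rw [hD]; linarith)⟩) hg he heY hfe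
  have h1 : ∀ᵐ x ∂μ, ∀ (n : ℤ) (j : Fin m), f j (Φ (q n j) x) = g j (Φ (q n j) x) := by
    rw [ae_all_iff]
    intro n
    rw [ae_all_iff]
    intro j
    exact (hK.fl _).quasiMeasurePreserving.ae (hfg j)
  have h2 : ∀ᵐ x ∂μ, ∀ (n : ℤ) (j : Fin m),
      (μ[f j | mY]) (Φ (q n j) x) = e j (Φ (q n j) x) := by
    rw [ae_all_iff]
    intro n
    rw [ae_all_iff]
    intro j
    have h3 : μ[f j | mY] =ᵐ[μ] e j := (condExp_congr_ae (hfg j)).trans (hee j).symm
    exact (hK.fl _).quasiMeasurePreserving.ae h3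
  filter_upwards [hmain, h1, h2] with x hx hx1 hx2
  have h4 := hx.const_mul (D : ℂ)
  rw [mul_zero] at h4
  refine h4.congr fun N => ?_
  rw [← av_mul]
  congr 1
  funext n
  have hDc : (D : ℂ) ≠ 0 := by exact_mod_cast hD0.ne'
  rw [Finset.prod_congr rfl fun j _ => hx1 n j, Finset.prod_congr rfl fun j _ => hx2 n j]
  field_simp

end Pool.Agent.Run7.h484.KG
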