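import Pool.Agent.Run7.h484.KG.Rate
import Pool.Agent.Run7.h484.KG.Int

/-!
# Rates for random sequences of positions give dispersion and separation
-/

set_option autoImplicit false
set_option linter.unusedSectionVars false

open MeasureTheory Filter Topology
open scoped ENNReal

noncomputable section

namespace Pool.Agent.Run7.h484.KG

variable {Ω : Type} [MeasurableSpace Ω] {P : Measure Ω} [IsProbabilityMeasure P]

/-- rate for the number of close pairs -/
def PairRate (P : Measure Ω) (φ : ℤ → Ω → ℝ) : Prop :=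
  ∀ R : ℝ, ∃ c C : ℝ, 3 < c ∧ ∀ N : ℕ, 2 ≤ N →
    ∑ n ∈ Finset.Icc (-(N : ℤ)) N, ∑ n' ∈ Finset.Icc (-(N : ℤ)) N,
      P.real {ω | |φ n ω - φ n' ω| < R} ≤ C * (N : ℝ) ^ 2 / (Real.log N) ^ c

/-- rate for the number of times at which two sequences are close -/
def CloseRate (P : Measure Ω) (φ ψ : ℤ → Ω → ℝ) : Prop :=
  ∀ R : ℝ, ∃ c C : ℝ, 1 < c ∧ ∀ N : ℕ, 2 ≤ N →
    ∑ n ∈ Finset.Icc (-(N : ℤ)) N, P.real {ω | |φ n ω - ψ n ω| < R} ≤
      C * N / (Real.log N) ^ c

theorem Ic_mono {N M : ℕ} (h : N ≤ M) :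
    Finset.Icc (-(N : ℤ)) N ⊆ Finset.Icc (-(M : ℤ)) M := by
  intro n hn
  rw [Finset.mem_Icc] at hn ⊢
  constructor <;> omega

theorem ind_int {A : Set Ω} (hA : MeasurableSet A) :
    Integrable (A.indicator fun _ : Ω => (1 : ℝ)) P ∧
      ∫ ω, A.indicator (fun _ => (1 : ℝ)) ω ∂P = P.real A := by
  refine ⟨(integrable_const (1 : ℝ)).indicator hA, ?_⟩
  rw [integral_indicator_const _ hA]
  simp

theorem pair_disp {φ : ℤ → Ω → ℝ} (hφ : ∀ n, Measurable (φ n)) (h : PairRate P φ) :
    ∀ᵐ ω ∂P, Dispi fun n => φ n ω := by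
  classical
  have key : ∀ r : ℕ, ∀ᵐ ω ∂P, ∃ L : ℕ → ℕ,
      Tendsto (fun N : ℕ => (L N : ℝ) * Real.log N / N) atTop (𝓝 0) ∧
      ∀ (N : ℕ) (s : ℝ) (T : Finset ℤ), (∀ n ∈ T, |n| ≤ (N : ℤ) ∧
        s ≤ φ n ω ∧ φ n ω < s + r) → T.card ≤ L N := by
    intro r
    obtain ⟨c, C, hc, hC⟩ := h r
    let A : ℤ → ℤ → Set Ω := fun n n' => {ω | |φ n ω - φ n' ω| < r}
    have hA : ∀ n n', MeasurableSet (A n n') := fun n n' =>
      measurableSet_lt ((hφ n).sub (hφ n')).abs measurable_const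
    let W : ℕ → Ω → ℝ := fun N ω => ∑ n ∈ Finset.Icc (-(N : ℤ)) N,
      ∑ n' ∈ Finset.Icc (-(N : ℤ)) N, (A n n').indicator (fun _ => (1 : ℝ)) ω
    have hind : ∀ (n n' : ℤ) (ω : Ω), 0 ≤ (A n n').indicator (fun _ => (1 : ℝ)) ω :=
      fun n n' ω => Set.indicator_nonneg (fun _ _ => zero_le_one) _
    have hW0 : ∀ N ω, 0 ≤ W N ω := fun N ω => Finset.sum_nonneg fun n _ =>
      Finset.sum_nonneg fun h _ => hind _ _ _
    have hWmono : ∀ ω, Monotone fun N => W N ω := by
      intro ω N M hNM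
      show W N ω ≤ W M ω
      calc W N ω ≤ ∑ n ∈ Finset.Icc (-(N : ℤ)) N, ∑ n' ∈ Finset.Icc (-(M : ℤ)) M,
            (A n n').indicator (fun _ => (1 : ℝ)) ω :=
          Finset.sum_le_sum fun n _ => Finset.sum_le_sum_of_subset_of_nonneg
            (Ic_mono hNM) fun h _ _ => hind _ _ _
        _ ≤ W M ω := Finset.sum_le_sum_of_subset_of_nonneg
            (Ic_mono hNM) fun n _ _ => Finset.sum_nonneg fun h _ => hind _ _ _
    have hWi : ∀ N, Integrable (W N) P ∧
        ∫ ω, W N ω ∂P = ∑ n ∈ Finset.Icc (-(N : ℤ)) N,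
          ∑ n' ∈ Finset.Icc (-(N : ℤ)) N, P.real (A n n') := by
      intro N
      have h1 : ∀ n ∈ Finset.Icc (-(N : ℤ)) N, Integrable (fun ω =>
          ∑ n' ∈ Finset.Icc (-(N : ℤ)) N, (A n n').indicator (fun _ => (1 : ℝ)) ω) P :=
        fun n _ => integrable_finsetSum _ fun n' _ => (ind_int (hA n n')).1
      refine ⟨integrable_finsetSum _ h1, ?_⟩
      have h2 : ∫ ω, W N ω ∂P = ∑ n ∈ Finset.Icc (-(N : ℤ)) N, ∫ ω,
          ∑ n' ∈ Finset.Icc (-(N : ℤ)) N, (A n n').indicator (fun _ => (1 : ℝ)) ω ∂P :=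
        integral_finsetSum _ h1
      rw [h2]
      refine Finset.sum_congr rfl fun n _ => ?_
      rw [integral_finsetSum _ fun n' _ => (ind_int (hA n n')).1]
      exact Finset.sum_congr rfl fun n' _ => (ind_int (hA n n')).2
    have hWm : ∀ N, Measurable (W N) := fun N => Finset.measurable_fun_sum _ fun n _ =>
      Finset.measurable_fun_sum _ fun n' _ => measurable_const.indicator (hA n n')
    have hsum := rate_sum (p := fun k => (∫ ω, W (2 ^ k) ω ∂P) / (2 : ℝ) ^ k) (e := 2)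
      (fun k => div_nonneg (integral_nonneg fun ω => hW0 _ _) (by positivity)) (c := c) (C := C)
      (by norm_num; linarith) (fun k hk => by
        have h1 := hC (2 ^ k) (by
          calc 2 = 2 ^ 1 := by norm_num
            _ ≤ 2 ^ k := Nat.pow_le_pow_right (by norm_num) hk)
        rw [← (hWi (2 ^ k)).2] at h1
        push_cast at h1
        have h2 : (0 : ℝ) < 2 ^ k := by positivity
        show (∫ ω, W (2 ^ k) ω ∂P) / (2 : ℝ) ^ k ≤ _
        rw [div_le_iff₀ h2]
        refine h1.trans (le_of_eq ?_)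
        ring)
    have hsmall := ae_small (P := P)
      (f := fun k ω => (k : ℝ) ^ 2 * W (2 ^ k) ω / ((2 : ℝ) ^ k) ^ 2)
      (fun k => ((hWm _).const_mul _).div_const _)
      (fun k ω => div_nonneg (mul_nonneg (by positivity) (hW0 _ _)) (by positivity))
      (fun k => ((hWi _).1.const_mul _).div_const _)
      (by
        refine hsum.congr fun k => ?_
        rw [integral_div, integral_const_mul]
        field_simp)
    filter_upwards [hsmall] with ω hω
    have hdy := dyadic (hWmono ω) (fun N => hW0 N ω) hω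
    refine ⟨fun N => Nat.sqrt ⌊W N ω⌋₊, ?_, ?_⟩
    · have h1 := hdy.sqrt
      rw [Real.sqrt_zero] at h1
      refine squeeze_zero' ?_ ?_ h1
      · filter_upwards [eventually_gt_atTop 0] with N hN
        have := Real.log_natCast_nonneg N
        positivity
      · filter_upwards [eventually_gt_atTop 0] with N hN
        have hN' : (0 : ℝ) < N := by exact_mod_cast hN
        have hlog := Real.log_natCast_nonneg N
        apply Real.le_sqrt_of_sq_le
        have h2 : ((Nat.sqrt ⌊W N ω⌋₊ : ℕ) : ℝ) ^ 2 ≤ W N ω := by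
          have h3 := Nat.sqrt_le' ⌊W N ω⌋₊
          have h4 : ((Nat.sqrt ⌊W N ω⌋₊ : ℕ) : ℝ) ^ 2 ≤ (⌊W N ω⌋₊ : ℝ) := by
            exact_mod_cast h3
          exact h4.trans (Nat.floor_le (hW0 _ _))
        rw [div_pow, mul_pow]
        refine div_le_div_of_nonneg_right ?_ (by positivity)
        have h5 := mul_le_mul_of_nonneg_right h2 (sq_nonneg (Real.log N))
        linarith
    · intro N s T hT
      rw [Nat.le_sqrt', Nat.le_floor_iff (hW0 _ _)]
      push_cast
      have hsub : T ⊆ Finset.Icc (-(N : ℤ)) N := fun n hn => by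
        rw [Finset.mem_Icc]
        exact abs_le.1 (hT n hn).1
      have h6 : (T.card : ℝ) ^ 2 = ∑ n ∈ T, ∑ n' ∈ T, (1 : ℝ) := by
        rw [Finset.sum_const, Finset.sum_const, nsmul_eq_mul, nsmul_eq_mul, mul_one, sq]
      rw [h6]
      calc ∑ n ∈ T, ∑ n' ∈ T, (1 : ℝ) ≤
          ∑ n ∈ T, ∑ n' ∈ T, (A n n').indicator (fun _ => (1 : ℝ)) ω := by
            refine Finset.sum_le_sum fun n hn => Finset.sum_le_sum fun n' hn' => ?_
            have h7 : ω ∈ A n n' := by
              show |φ n ω - φ n' ω| < r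
              have h8 := hT n hn
              have h9 := hT n' hn'
              rw [abs_lt]
              constructor <;> linarith [h8.2.1, h8.2.2, h9.2.1, h9.2.2]
            rw [Set.indicator_of_mem h7]
        _ ≤ ∑ n ∈ T, ∑ n' ∈ Finset.Icc (-(N : ℤ)) N,
            (A n n').indicator (fun _ => (1 : ℝ)) ω :=
            Finset.sum_le_sum fun n _ => Finset.sum_le_sum_of_subset_of_nonneg hsub
              fun _ _ _ => hind _ _ _
        _ ≤ W N ω := Finset.sum_le_sum_of_subset_of_nonneg hsub fun n _ _ =>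
            Finset.sum_nonneg fun _ _ => hind _ _ _
  filter_upwards [ae_all_iff.2 key] with ω hω R
  obtain ⟨r, hr⟩ := exists_nat_ge R
  obtain ⟨L, hL, hm⟩ := hω r
  refine ⟨L, ∅, ?_, hL, fun N s T hT => hm N s T fun n hn => ?_⟩
  · unfold DZi
    simp
  · obtain ⟨h1, -, h3, h4⟩ := hT n hn
    exact ⟨h1, h3, by linarith⟩

theorem close_sep {φ ψ : ℤ → Ω → ℝ} (hφ : ∀ n, Measurable (φ n)) (hψ : ∀ n, Measurable (ψ n))
    (h : CloseRate P φ ψ) : ∀ᵐ ω ∂P, ∀ R : ℝ, DZi {n | |φ n ω - ψ n ω| < R} := by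
  classical
  have key : ∀ r : ℕ, ∀ᵐ ω ∂P, DZi {n | |φ n ω - ψ n ω| < r} := by
    intro r
    obtain ⟨c, C, hc, hC⟩ := h r
    let A : ℤ → Set Ω := fun n => {ω | |φ n ω - ψ n ω| < r}
    have hA : ∀ n, MeasurableSet (A n) := fun n =>
      measurableSet_lt ((hφ n).sub (hψ n)).abs measurable_const
    let w : ℕ → Ω → ℝ := fun N ω => ∑ n ∈ Finset.Icc (-(N : ℤ)) N,
      (A n).indicator (fun _ => (1 : ℝ)) ω
    have hind : ∀ (n : ℤ) (ω : Ω), 0 ≤ (A n).indicator (fun _ => (1 : ℝ)) ω :=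
      fun n ω => Set.indicator_nonneg (fun _ _ => zero_le_one) _
    have hw0 : ∀ N ω, 0 ≤ w N ω := fun N ω => Finset.sum_nonneg fun n _ => hind _ _
    have hwmono : ∀ ω, Monotone fun N => w N ω := by
      intro ω N M hNM
      exact Finset.sum_le_sum_of_subset_of_nonneg (Ic_mono hNM) fun n _ _ => hind _ _
    have hwm : ∀ N, Measurable (w N) := fun N => Finset.measurable_fun_sum _ fun n _ =>
      measurable_const.indicator (hA n)
    have hwi : ∀ N, Integrable (w N) P ∧
        ∫ ω, w N ω ∂P = ∑ n ∈ Finset.Icc (-(N : ℤ)) N, P.real (A n) := by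
      intro N
      have h1 : ∀ n ∈ Finset.Icc (-(N : ℤ)) N, Integrable (fun ω =>
          (A n).indicator (fun _ => (1 : ℝ)) ω) P := fun n _ => (ind_int (hA n)).1
      refine ⟨integrable_finsetSum _ h1, ?_⟩
      have h2 : ∫ ω, w N ω ∂P = ∑ n ∈ Finset.Icc (-(N : ℤ)) N, ∫ ω,
          (A n).indicator (fun _ => (1 : ℝ)) ω ∂P := integral_finsetSum _ h1
      rw [h2]
      exact Finset.sum_congr rfl fun n _ => (ind_int (hA n)).2
    have hsum := rate_sum (p := fun k => ∫ ω, w (2 ^ k) ω ∂P) (e := 0)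
      (fun k => integral_nonneg fun ω => hw0 _ _) (c := c) (C := C)
      (by norm_num; linarith) (fun k hk => by
        have h1 := hC (2 ^ k) (by
          calc 2 = 2 ^ 1 := by norm_num
            _ ≤ 2 ^ k := Nat.pow_le_pow_right (by norm_num) hk)
        rw [← (hwi (2 ^ k)).2] at h1
        push_cast at h1
        exact h1)
    have hsmall := ae_small (P := P)
      (f := fun k ω => (k : ℝ) ^ 0 * w (2 ^ k) ω / ((2 : ℝ) ^ k) ^ 1)
      (fun k => ((hwm _).const_mul _).div_const _)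
      (fun k ω => div_nonneg (mul_nonneg (by positivity) (hw0 _ _)) (by positivity))
      (fun k => ((hwi _).1.const_mul _).div_const _)
      (by
        refine hsum.congr fun k => ?_
        rw [integral_div, integral_const_mul, pow_one])
    filter_upwards [hsmall] with ω hω
    have hdy := dyadic (hwmono ω) (fun N => hw0 N ω) hω
    unfold DZi
    refine hdy.congr fun N => ?_
    rw [pow_zero, one_mul, pow_one]
    congr 1
    show ∑ n ∈ Finset.Icc (-(N : ℤ)) N, (A n).indicator (fun _ => (1 : ℝ)) ω = _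
    simp only [Set.indicator_apply]
    rw [← Finset.sum_filter, Finset.sum_const, nsmul_eq_mul, mul_one]
    congr 2
  filter_upwards [ae_all_iff.2 key] with ω hω R
  obtain ⟨r, hr⟩ := exists_nat_ge R
  have h1 := hω r
  unfold DZi at *
  refine squeeze_zero (fun N => by positivity) (fun N => ?_) h1
  refine div_le_div_of_nonneg_right ?_ (Nat.cast_nonneg _)
  have h2 : ((Finset.Icc (-(N : ℤ)) N).filter fun n => n ∈ {n | |φ n ω - ψ n ω| < R}).card ≤
      ((Finset.Icc (-(N : ℤ)) N).filter fun n => n ∈ {n | |φ n ω - ψ n ω| < r}).card := by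
    apply Finset.card_le_card
    intro n hn
    rw [Finset.mem_filter] at hn ⊢
    exact ⟨hn.1, lt_of_lt_of_le hn.2 hr⟩
  exact_mod_cast h2

end Pool.Agent.Run7.h484.KG
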