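import Pool.Agent.Run7.h484.KG.SkewF
import Pool.Agent.Run7.h484.KG.Disc
import Pool.Agent.Run7.h484.KG.RateZ

/-!
# Cocycle extensions of group actions with Kolmogorov fibres
-/

set_option autoImplicit false
set_option linter.unusedSectionVars false

open MeasureTheory Filter Topology
open scoped ENNReal

noncomputable section

namespace Pool.Agent.Run7.h484.KG

open Pool.Agent.TH784.KE
open Pool.Agent.TH739.PA (av avr avr_add avr_mono avr_nonneg avr_abs avr_const_le avr_mul av_add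
  av_mul av_sub int_lim Good Cls_zero Cls_conv closed_slot av_norm av_ofReal int_snd)
open Pool.Agent.Run7.h484.KB (AdmR AdmZ AdmR.bm one_le_prod_real)
open Pool.Agent.W761.Gauss (BM BM_of_memLp)

variable {Ω X G H : Type} [mΩ : MeasurableSpace Ω] {P : Measure Ω} [IsProbabilityMeasure P]
variable {mA mY mX : MeasurableSpace X} {μ : Measure X} [IsProbabilityMeasure μ]
variable [Group G] [Group H]
variable {Φ : G →* Equiv.Perm X} {ℓ : G → ℝ} {Ψ : H →* Equiv.Perm Ω} {c : H → Ω → G}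

/-- the maps of the cocycle extension -/
def cx (Ψ : H →* Equiv.Perm Ω) (Φ : G →* Equiv.Perm X) (c : H → Ω → G) (h : H) (p : Ω × X) :
    Ω × X := (Ψ h p.1, Φ (c h p.1) p.2)

omit mΩ in
theorem coc_one (hc : ∀ h h' ω, c (h * h') ω = c h (Ψ h' ω) * c h' ω) (ω : Ω) : c 1 ω = 1 := by
  have h := hc 1 1 ω
  rw [mul_one, map_one] at h
  have h2 : c 1 ω * 1 = c 1 ω * c 1 ω := by
    rw [mul_one]
    exact h
  exact (mul_left_cancel h2).symm

omit mΩ in
theorem cx_mul (hc : ∀ h h' ω, c (h * h') ω = c h (Ψ h' ω) * c h' ω) (h h' : H) (p : Ω × X) :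
    cx Ψ Φ c (h * h') p = cx Ψ Φ c h (cx Ψ Φ c h' p) := by
  unfold cx
  rw [map_mul, hc, map_mul]
  rfl

omit mΩ in
theorem cx_one (hc : ∀ h h' ω, c (h * h') ω = c h (Ψ h' ω) * c h' ω) (p : Ω × X) :
    cx Ψ Φ c 1 p = p := by
  unfold cx
  rw [coc_one hc, map_one, map_one]
  rfl

/-- the cocycle extension as an action -/
def cxHom (Ψ : H →* Equiv.Perm Ω) (Φ : G →* Equiv.Perm X) (c : H → Ω → G)
    (hc : ∀ h h' ω, c (h * h') ω = c h (Ψ h' ω) * c h' ω) : H →* Equiv.Perm (Ω × X) where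
  toFun h :=
    { toFun := cx Ψ Φ c h
      invFun := cx Ψ Φ c h⁻¹
      left_inv := fun p => by rw [← cx_mul hc, inv_mul_cancel, cx_one hc]
      right_inv := fun p => by rw [← cx_mul hc, mul_inv_cancel, cx_one hc] }
  map_one' := Equiv.ext fun p => cx_one hc p
  map_mul' h h' := Equiv.ext fun p => cx_mul hc h h' p

theorem cx_mp (hΦ : ∀ g, MeasurePreserving (Φ g) μ μ) (hΨ : ∀ h, MeasurePreserving (Ψ h) P P)
    (hcm : ∀ h, Measurable fun p : Ω × X => Φ (c h p.1) p.2) (h : H) :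
    MeasurePreserving (cx Ψ Φ c h) (P.prod μ) (P.prod μ) :=
  MeasurePreserving.skew_product (hΨ h) (g := fun ω x => Φ (c h ω) x) (hcm h)
    (Eventually.of_forall fun ω => (hΦ (c h ω)).map_eq)

theorem good_cx (hΦ : ∀ g, MeasurePreserving (Φ g) μ μ) (hΨ : ∀ h, MeasurePreserving (Ψ h) P P)
    (hc : ∀ h h' ω, c (h * h') ω = c h (Ψ h' ω) * c h' ω)
    (hcm : ∀ h, Measurable fun p : Ω × X => Φ (c h p.1) p.2) (w b : H) :
    Good atTop Ic (P.prod μ) fun n : ℤ => cx Ψ Φ c (w * b ^ n) :=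
  good_powZ (Φ := cxHom Ψ Φ c hc) (fun h => cx_mp hΦ hΨ hcm h) w b

/-- **The product of the base and the factor is characteristic.** -/
theorem char_coc {m : ℕ} (hK : KExt μ mA mY Φ ℓ) (hΨ : ∀ h, MeasurePreserving (Ψ h) P P)
    (hcm : ∀ h, Measurable fun p : Ω × X => Φ (c h p.1) p.2) {g : Fin m → ℤ → H}
    (hdisp : ∀ j, ∀ᵐ ω ∂P, Dispi fun n => ℓ (c (g j n) ω))
    (hsepa : ∀ i j, i ≠ j → ∀ᵐ ω ∂P, ∀ R : ℝ,
      DZi {n | |ℓ (c (g i n) ω) - ℓ (c (g j n) ω)| < R})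
    (hgood : ∀ j, Good atTop Ic (P.prod μ) fun n => cx Ψ Φ c (g j n))
    {f : Fin m → Ω × X → ℂ} (hf : ∀ j, MemLp (f j) ∞ (P.prod μ)) :
    ∃ e : Fin m → Ω × X → ℂ, (∀ j, BM (e j)) ∧ (∀ j, Measurable[mΩ.prod mY] (e j)) ∧
      (∀ j, e j =ᵐ[P.prod μ] (P.prod μ)[f j | mΩ.prod mY]) ∧
      ∀ᵐ z ∂(P.prod μ), Tendsto (fun N => av (Ic N) fun n => ∏ j, f j (cx Ψ Φ c (g j n) z) -
        ∏ j, e j (cx Ψ Φ c (g j n) z)) atTop (𝓝 0) := by
  have hle : mY ≤ mX := hK.base.le.trans hK.filt.le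
  choose h hh hfh using fun j => BM_of_memLp (hf j)
  choose e he heY hee hhe using fun j =>
    exists_cond (μ := P.prod μ) (prod_le' (mΩ := mΩ) hle) (hh j)
  refine ⟨e, he, heY, fun j => (hee j).trans (condExp_congr_ae (hfh j)).symm, ?_⟩
  rcases Nat.eq_zero_or_pos m with hm | hm
  · subst hm
    refine Eventually.of_forall fun x => ?_
    simp only [Finset.univ_eq_empty, Finset.prod_empty, sub_self]
    refine Tendsto.congr (fun N => ?_) (tendsto_const_nhds (x := (0 : ℂ)))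
    simp [av]
  have hPne : (ae P).NeBot := inferInstance
  obtain ⟨ω₀, hω₀⟩ := (hdisp ⟨0, hm⟩).exists
  obtain ⟨s₀, hs₀⟩ := exists_posZ hK (a := fun n => c (g ⟨0, hm⟩ n) ω₀) hω₀
  have h1 := char_Z (P := P) (μ := μ) (Bs := Ic) (J := Fin m) (ι := ℤ)
    (q := fun n j ω => c (g j n) ω) (a := fun j n => Ψ (g j n))
    (g := fun j n => cx Ψ Φ c (g j n)) hK hs₀
    (fun j n => (hΨ _).measurable) (fun j n => cx_mp hK.fl hΨ hcm _)
    (fun j n p => rfl) (fun j n p => rfl) Ic_ne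
    (fun j => by
      filter_upwards [hdisp j] with ω hω
      exact hω.toDispg)
    (fun i j hij => by
      filter_upwards [hsepa i j hij] with ω hω R
      exact (hω R).toDZg)
    hgood hh he heY hhe
  have h2 : ∀ᵐ z ∂(P.prod μ), ∀ (n : ℤ) (j : Fin m),
      f j (cx Ψ Φ c (g j n) z) = h j (cx Ψ Φ c (g j n) z) := by
    rw [ae_all_iff]
    intro n
    rw [ae_all_iff]
    intro j
    exact (cx_mp hK.fl hΨ hcm _).quasiMeasurePreserving.ae (hfh j)
  filter_upwards [h1, h2] with z hz hz2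
  refine hz.congr fun N => ?_
  congr 1
  funext n
  congr 1
  exact Finset.prod_congr rfl fun j _ => (hz2 n j).symm

/-- averages of single functions on the base -/
theorem good_base {g : ℤ → H} (hgood : Good atTop Ic (P.prod μ) fun n => cx Ψ Φ c (g n)) :
    Good atTop Ic P fun n => (Ψ (g n) : Ω → Ω) := by
  intro F hF hb
  obtain ⟨C, hC⟩ := hb
  have h1 := hgood (fun p => F p.1) (hF.comp measurable_fst) ⟨C, fun p => hC _⟩
  have h2 := Measure.ae_ae_of_ae_prod h1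
  filter_upwards [h2] with ω hω
  have hμne : (ae μ).NeBot := inferInstance
  obtain ⟨x, hx⟩ := hω.exists
  exact hx

/-- base actions with discrete spectrum -/
theorem disc_baseZ {m d : ℕ} (hΨ : ∀ h, MeasurePreserving (Ψ h) P P)
    (t : Fin d → H) (Q : Fin m → Fin d → Polynomial ℤ)
    (hgood : ∀ j, Good atTop Ic P fun n => (Ψ (wordZ t (Q j) n) : Ω → Ω))
    (hdisc : ∀ e : Ω → ℂ, Measurable e → (∃ C : ℝ, ∀ x, ‖e x‖ ≤ C) → ∀ ε : ℝ, 0 < ε →
      ∃ (s : ℕ) (c : Fin s → ℂ) (h : Fin s → Ω → ℂ), (∀ i, Measurable (h i) ∧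
        (∃ C : ℝ, ∀ x, ‖h i x‖ ≤ C) ∧ ∃ χ : H →* Circle, ∀ g, ∀ᵐ x ∂P,
          h i (Ψ g x) = (χ g : ℂ) * h i x) ∧ ∫ x, ‖e x - ∑ i, c i * h i x‖ ∂P ≤ ε)
    {e : Fin m → Ω → ℂ} (he : ∀ j, BM (e j)) :
    ∀ᵐ ω ∂P, ∃ L, Tendsto (fun N => av (Ic N) fun n => ∏ j, e j (Ψ (wordZ t (Q j) n) ω))
      atTop (𝓝 L) := by
  classical
  have hbase : Cvg P Ic (fun j n => (Ψ (wordZ t (Q j) n) : Ω → Ω)) e := by
    refine Cvg_dense (𝓔 := {h | BM h ∧ ∃ χ : H →* Circle, ∀ g, ∀ᵐ x ∂P,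
      h (Ψ g x) = (χ g : ℂ) * h x}) (fun j n => hΨ _) hgood (fun f hf => hf.1) ?_ ?_
    · intro F hF
      choose χ hχ using fun j => (hF j).2
      exact eig_convZ t Q hχ
    · intro j
      refine ⟨he j, fun ε hε => ?_⟩
      obtain ⟨s, c, h, hh, hle⟩ := hdisc (e j) (he j).1 (he j).2 ε hε
      exact ⟨s, c, h, fun i => ⟨⟨(hh i).1, (hh i).2.1⟩, (hh i).2.2⟩, hle⟩
  filter_upwards [hbase] with ω hω
  obtain ⟨L, hL⟩ := hω
  refine ⟨L, hL.congr fun N => ?_⟩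
  congr 1
  funext n
  rw [mul_one]

end Pool.Agent.Run7.h484.KG
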