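import Pool.Agent.Run7.h484.KG.Cube

/-!
# Cocycle extensions: averages over cubes
-/

set_option autoImplicit false
set_option linter.unusedSectionVars false

open MeasureTheory Filter Topology
open scoped ENNReal

noncomputable section

namespace Pool.Agent.Run7.h484.KG

open Pool.Agent.TH784.KE
open Pool.Agent.TH739.PA (av avr av_mul Good)
open Pool.Agent.W761.Gauss (BM BM_of_memLp)
open Pool.Agent.W761.Box (bx bxc Good1)

variable {Ω X G H : Type} [mΩ : MeasurableSpace Ω] {P : Measure Ω} [IsProbabilityMeasure P]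
variable {mA mY mX : MeasurableSpace X} {μ : Measure X} [IsProbabilityMeasure μ]
variable [Group G] [Group H]
variable {Φ : G →* Equiv.Perm X} {ℓ : G → ℝ} {Ψ : H →* Equiv.Perm Ω} {c : H → Ω → G}

/-- **The product of the base and the factor is characteristic**, general averages. -/
theorem char_cocg {ι : Type*} {m : ℕ} (hK : KExt μ mA mY Φ ℓ) {s₀ : G} (hs₀ : 0 < ℓ s₀)
    (hΨ : ∀ h, MeasurePreserving (Ψ h) P P)
    (hcm : ∀ h, Measurable fun p : Ω × X => Φ (c h p.1) p.2) {g : Fin m → ι → H} [Countable ι]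
    {Bs : ℕ → Finset ι} (hBs : ∀ N, (Bs N).Nonempty)
    (hdisp : ∀ j, ∀ᵐ ω ∂P, Dispg Bs fun n => ℓ (c (g j n) ω))
    (hsepa : ∀ i j, i ≠ j → ∀ᵐ ω ∂P, Sepg Bs (fun n => ℓ (c (g i n) ω))
      fun n => ℓ (c (g j n) ω))
    (hgood : ∀ j, Good atTop Bs (P.prod μ) fun n => cx Ψ Φ c (g j n))
    {f : Fin m → Ω × X → ℂ} (hf : ∀ j, MemLp (f j) ∞ (P.prod μ)) :
    ∃ e : Fin m → Ω × X → ℂ, (∀ j, BM (e j)) ∧ (∀ j, Measurable[mΩ.prod mY] (e j)) ∧
      (∀ j, e j =ᵐ[P.prod μ] (P.prod μ)[f j | mΩ.prod mY]) ∧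
      ∀ᵐ z ∂(P.prod μ), Tendsto (fun N => av (Bs N) fun n => ∏ j, f j (cx Ψ Φ c (g j n) z) -
        ∏ j, e j (cx Ψ Φ c (g j n) z)) atTop (𝓝 0) := by
  have hle : mY ≤ mX := hK.base.le.trans hK.filt.le
  choose h hh hfh using fun j => BM_of_memLp (hf j)
  choose e he heY hee hhe using fun j =>
    exists_cond (μ := P.prod μ) (prod_le' (mΩ := mΩ) hle) (hh j)
  refine ⟨e, he, heY, fun j => (hee j).trans (condExp_congr_ae (hfh j)).symm, ?_⟩
  have h1 := char_Z (P := P) (μ := μ) (Bs := Bs) (J := Fin m) (ι := ι)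
    (q := fun n j ω => c (g j n) ω) (a := fun j n => Ψ (g j n))
    (g := fun j n => cx Ψ Φ c (g j n)) hK hs₀
    (fun j n => (hΨ _).measurable) (fun j n => cx_mp hK.fl hΨ hcm _)
    (fun j n p => rfl) (fun j n p => rfl) hBs hdisp hsepa hgood hh he heY hhe
  have h2 : ∀ᵐ z ∂(P.prod μ), ∀ (n : ι) (j : Fin m),
      f j (cx Ψ Φ c (g j n) z) = h j (cx Ψ Φ c (g j n) z) := by
    rw [ae_all_iff]
    intro n
    rw [ae_all_iff]
    intro j
    exact (cx_mp hK.fl hΨ hcm _).quasiMeasurePreserving.ae (hfh j)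
  filter_upwards [h1, h2] with z hz hz2
  refine hz.congr fun N => ?_
  congr 1
  funext n
  congr 1
  exact Finset.prod_congr rfl fun j _ => (hz2 n j).symm

variable {k : ℕ}

/-- single averages along `w u_1^(n_1) ⋯ u_k^(n_k)` -/
theorem good_cxk (hΦ : ∀ g, MeasurePreserving (Φ g) μ μ) (hΨ : ∀ h, MeasurePreserving (Ψ h) P P)
    (hc : ∀ h h' ω, c (h * h') ω = c h (Ψ h' ω) * c h' ω)
    (hcm : ∀ h, Measurable fun p : Ω × X => Φ (c h p.1) p.2) (w : H) (u : Fin k → H) :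
    Good atTop (fun N => qb k (N + 1)) (P.prod μ)
      fun n : Fin k → ℕ => cx Ψ Φ c (w * (List.ofFn fun l => u l ^ n l).prod) :=
  good_cube (Pool.Agent.Run7.h484.KB.good_lin (Φ := cxHom Ψ Φ c hc)
    (fun h => cx_mp hΦ hΨ hcm h) w u)

/-- the limit over cubes of box averages -/
theorem cube_lim {b : (Fin k → ℕ) → ℂ} {L : ℂ}
    (h : Tendsto (fun N => bxc k N b) atTop (𝓝 L)) :
    Tendsto (fun N => av (qb k (N + 1)) b) atTop (𝓝 L) := by
  have h1 : Tendsto (fun N : ℕ => (fun _ : Fin k => N + 1)) atTop atTop := by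
    rw [tendsto_atTop]
    intro b
    filter_upwards [eventually_ge_atTop (∑ l, b l)] with N hN
    intro l
    exact ((Finset.single_le_sum (f := b) (fun _ _ => Nat.zero_le _) (Finset.mem_univ l)).trans
      hN).trans (Nat.le_succ _)
  refine (h.comp h1).congr fun N => ?_
  rw [Function.comp_apply]
  unfold bxc av
  rw [qb_card]
  simp [qb]

/-- base actions with discrete spectrum -/
theorem disc_cube {m d : ℕ} (hΨ : ∀ h, MeasurePreserving (Ψ h) P P)
    (t : Fin d → H) (Q : Fin m → Fin d → MvPolynomial (Fin k) ℤ)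
    (hgood : ∀ j, Good atTop (fun N => qb k (N + 1)) P
      fun n => (Ψ (Pool.Agent.Run7.h484.KB.word t (Q j) n) : Ω → Ω))
    (hdisc : ∀ e : Ω → ℂ, Measurable e → (∃ C : ℝ, ∀ x, ‖e x‖ ≤ C) → ∀ ε : ℝ, 0 < ε →
      ∃ (s : ℕ) (c : Fin s → ℂ) (h : Fin s → Ω → ℂ), (∀ i, Measurable (h i) ∧
        (∃ C : ℝ, ∀ x, ‖h i x‖ ≤ C) ∧ ∃ χ : H →* Circle, ∀ g, ∀ᵐ x ∂P,
          h i (Ψ g x) = (χ g : ℂ) * h i x) ∧ ∫ x, ‖e x - ∑ i, c i * h i x‖ ∂P ≤ ε)
    {e : Fin m → Ω → ℂ} (he : ∀ j, BM (e j)) :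
    ∀ᵐ ω ∂P, ∃ L, Tendsto (fun N => av (qb k (N + 1)) fun n =>
      ∏ j, e j (Ψ (Pool.Agent.Run7.h484.KB.word t (Q j) n) ω)) atTop (𝓝 L) := by
  classical
  have hbase : Cvg P (fun N => qb k (N + 1))
      (fun j n => (Ψ (Pool.Agent.Run7.h484.KB.word t (Q j) n) : Ω → Ω)) e := by
    refine Cvg_dense (𝓔 := {h | BM h ∧ ∃ χ : H →* Circle, ∀ g, ∀ᵐ x ∂P,
      h (Ψ g x) = (χ g : ℂ) * h x}) (fun j n => hΨ _) hgood (fun f hf => hf.1) ?_ ?_
    · intro F hF
      choose χ hχ using fun j => (hF j).2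
      have h1 : ∀ᵐ x ∂P, ∀ (n : Fin k → ℕ) (j : Fin m),
          F j (Ψ (Pool.Agent.Run7.h484.KB.word t (Q j) n) x) =
          (χ j (Pool.Agent.Run7.h484.KB.word t (Q j) n) : ℂ) * F j x := by
        rw [ae_all_iff]
        intro n
        rw [ae_all_iff]
        intro j
        exact hχ j _
      filter_upwards [h1] with x hx
      obtain ⟨L, hL⟩ := Pool.Agent.Run7.h484.KB.phase_conv (ι := Fin m × Fin d)
        (fun a => χ a.1 (t a.2)) (fun a => Q a.1 a.2)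
      refine ⟨(∏ j, F j x) * L, ((cube_lim hL).const_mul (∏ j, F j x)).congr fun N => ?_⟩
      rw [← av_mul]
      congr 1
      funext n
      rw [mul_one, Finset.prod_congr rfl fun j _ => hx n j, Finset.prod_mul_distrib, mul_comm]
      congr 1
      have e : ∏ a : Fin m × Fin d, χ a.1 (t a.2) ^
          (MvPolynomial.eval (fun l => ((n l : ℕ) : ℤ)) (Q a.1 a.2)) =
          ∏ j, χ j (Pool.Agent.Run7.h484.KB.word t (Q j) n) := by
        rw [Fintype.prod_prod_type]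
        refine Finset.prod_congr rfl fun j _ => ?_
        rw [Pool.Agent.Run7.h484.KB.map_word]
      rw [e]
      exact map_prod Circle.coeHom _ _
    · intro j
      refine ⟨he j, fun ε hε => ?_⟩
      obtain ⟨s, c, h, hh, hle⟩ := hdisc (e j) (he j).1 (he j).2 ε hε
      exact ⟨s, c, h, fun i => ⟨⟨(hh i).1, (hh i).2.1⟩, (hh i).2.2⟩, hle⟩
  filter_upwards [hbase] with ω hω
  obtain ⟨L, hL⟩ := hω
  refine ⟨L, hL.congr fun N => ?_⟩
  congr 1
  funext n
  rw [mul_one]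

theorem good_basec {g : (Fin k → ℕ) → H}
    (hgood : Good atTop (fun N => qb k (N + 1)) (P.prod μ) fun n => cx Ψ Φ c (g n)) :
    Good atTop (fun N => qb k (N + 1)) P fun n => (Ψ (g n) : Ω → Ω) := by
  intro F hF hb
  obtain ⟨C, hC⟩ := hb
  have h1 := hgood (fun p => F p.1) (hF.comp measurable_fst) ⟨C, fun p => hC _⟩
  have h2 := Measure.ae_ae_of_ae_prod h1
  filter_upwards [h2] with ω hω
  have hμne : (ae μ).NeBot := inferInstance
  obtain ⟨x, hx⟩ := hω.exists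
  exact hx

/-- from the cubes `[0, N]^k` to the cubes `[0, N)^k` -/
theorem av_cube {b : (Fin k → ℕ) → ℂ} {L : ℂ}
    (h : Tendsto (fun N => av (qb k (N + 1)) b) atTop (𝓝 L)) :
    Tendsto (fun N : ℕ => ((N : ℂ) ^ k)⁻¹ *
      ∑ n ∈ Fintype.piFinset (fun _ : Fin k => Finset.range N), b n) atTop (𝓝 L) := by
  rw [← tendsto_add_atTop_iff_nat 1]
  refine h.congr fun N => ?_
  unfold av
  rw [qb_card]
  push_cast
  rfl

theorem cube_av {b : (Fin k → ℕ) → ℂ} {L : ℂ}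
    (h : Tendsto (fun N : ℕ => ((N : ℂ) ^ k)⁻¹ *
      ∑ n ∈ Fintype.piFinset (fun _ : Fin k => Finset.range N), b n) atTop (𝓝 L)) :
    Tendsto (fun N => av (qb k (N + 1)) b) atTop (𝓝 L) := by
  rw [← tendsto_add_atTop_iff_nat 1] at h
  refine h.congr fun N => ?_
  unfold av
  rw [qb_card]
  push_cast
  rfl

end Pool.Agent.Run7.h484.KG
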