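import Pool.Agent.Run7.h484.KG.Coc
import Pool.Agent.Run7.h484.KB.Good

/-!
# Averages over cubes
-/

set_option autoImplicit false
set_option linter.unusedSectionVars false

open MeasureTheory Filter Topology
open scoped ENNReal

noncomputable section

namespace Pool.Agent.Run7.h484.KG

open Pool.Agent.TH739.PA (av avr avr_nonneg Good)
open Pool.Agent.W761.Box (bx Good1)

/-- the cubes `[0, N)^k` -/
def qb (k N : ℕ) : Finset (Fin k → ℕ) := Fintype.piFinset fun _ => Finset.range N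

theorem mem_qb {k N : ℕ} {n : Fin k → ℕ} : n ∈ qb k N ↔ ∀ l, n l < N := by
  unfold qb
  rw [Fintype.mem_piFinset]
  exact forall_congr' fun j => Finset.mem_range

theorem qb_card (k N : ℕ) : (qb k N).card = N ^ k := by
  unfold qb
  rw [Fintype.card_piFinset]
  simp

theorem qb_mono {k N M : ℕ} (h : N ≤ M) : qb k N ⊆ qb k M := fun n hn => by
  rw [mem_qb] at hn ⊢
  exact fun l => (hn l).trans_le h

theorem qb_ne (k N : ℕ) : (qb k (N + 1)).Nonempty :=
  ⟨fun _ => 0, mem_qb.2 fun _ => Nat.succ_pos N⟩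

open Classical in
/-- density zero along cubes -/
def DZc {k : ℕ} (E : Set (Fin k → ℕ)) : Prop :=
  Tendsto (fun N : ℕ => (((qb k N).filter fun n => n ∈ E).card : ℝ) / (N : ℝ) ^ k) atTop (𝓝 0)

/-- dispersion along cubes -/
def Dispc {k : ℕ} (a : (Fin k → ℕ) → ℝ) : Prop :=
  ∀ R : ℝ, ∃ (L : ℕ → ℕ) (E : Set (Fin k → ℕ)), DZc E ∧
    Tendsto (fun N : ℕ => (L N : ℝ) * Real.log N / (N : ℝ) ^ k) atTop (𝓝 0) ∧
    ∀ (N : ℕ) (s : ℝ) (T : Finset (Fin k → ℕ)),
      (∀ n ∈ T, (∀ l, n l < N) ∧ n ∉ E ∧ s ≤ a n ∧ a n < s + R) → T.card ≤ L N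

variable {k : ℕ}

theorem DZc.toDZg {E : Set (Fin k → ℕ)} (h : DZc E) : DZg (fun N => qb k (N + 1)) E := by
  classical
  unfold DZc at h
  unfold DZg
  have h1 := (tendsto_add_atTop_iff_nat 1).2 h
  refine h1.congr fun N => ?_
  unfold avr
  rw [qb_card, ← Finset.sum_filter, Finset.sum_const, nsmul_eq_mul, mul_one, div_eq_inv_mul]
  push_cast
  rfl

theorem Dispc.toDispg (hk : 0 < k) {a : (Fin k → ℕ) → ℝ} (h : Dispc a) :
    Dispg (fun N => qb k (N + 1)) a := by
  intro R hR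
  obtain ⟨L, E, hE, hL, hm⟩ := h R
  refine ⟨fun N => L (N + 1) + 1, E, fun N => Nat.succ_pos _, fun η hη => ?_, hE.toDZg, ?_⟩
  · -- summability
    have hlogN : Tendsto (fun N : ℕ => Real.log N / (N : ℝ) ^ k) atTop (𝓝 0) := by
      have h1 := Real.isLittleO_log_id_atTop.tendsto_div_nhds_zero
      have h2 : Tendsto (fun N : ℕ => Real.log N / N) atTop (𝓝 0) :=
        h1.comp tendsto_natCast_atTop_atTop
      refine squeeze_zero' ?_ ?_ h2
      · exact Eventually.of_forall fun N => div_nonneg (Real.log_natCast_nonneg N) (by positivity)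
      · filter_upwards [eventually_gt_atTop 0] with N hN
        have hN1 : (1 : ℝ) ≤ N := by exact_mod_cast hN
        show Real.log N / (N : ℝ) ^ k ≤ Real.log N / N
        refine div_le_div_of_nonneg_left (Real.log_natCast_nonneg N) (by positivity) ?_
        calc (N : ℝ) = (N : ℝ) ^ 1 := (pow_one _).symm
          _ ≤ (N : ℝ) ^ k := pow_le_pow_right₀ hN1 hk
    have hL1 : Tendsto (fun N : ℕ => ((L N + 1 : ℕ) : ℝ) * Real.log N / (N : ℝ) ^ k)
        atTop (𝓝 0) := by
      have h2 := hL.add hlogN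
      rw [add_zero] at h2
      refine h2.congr fun N => ?_
      push_cast
      ring
    have hev : ∀ᶠ N : ℕ in atTop, ‖((L N + 1 : ℕ) : ℝ) *
        Real.exp (-(η * ((N : ℝ) ^ k / ((L N + 1 : ℕ) : ℝ))))‖ ≤ 1 / (N : ℝ) ^ 3 := by
      have h3 := (tendsto_order.mp hL1).2 (min (η / (k + 3)) 1)
        (lt_min (by positivity) one_pos)
      have h4 : ∀ᶠ N : ℕ in atTop, (1 : ℝ) ≤ Real.log N :=
        (Real.tendsto_log_atTop.comp tendsto_natCast_atTop_atTop).eventually_ge_atTop 1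
      filter_upwards [h3, h4, eventually_gt_atTop 0] with N hN1 hN2 hN3
      have hN : (0 : ℝ) < N := by exact_mod_cast hN3
      have hNk : (0 : ℝ) < (N : ℝ) ^ k := by positivity
      have hLp : (0 : ℝ) < ((L N + 1 : ℕ) : ℝ) := by positivity
      have hb1 : ((L N + 1 : ℕ) : ℝ) * Real.log N * (k + 3) < η * (N : ℝ) ^ k := by
        have := hN1.trans_le (min_le_left _ _)
        rw [div_lt_div_iff₀ hNk (by positivity)] at this
        linarith
      have hb2 : ((L N + 1 : ℕ) : ℝ) ≤ (N : ℝ) ^ k := by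
        have := hN1.trans_le (min_le_right _ _)
        rw [div_lt_iff₀ hNk, one_mul] at this
        nlinarith
      have hexp : Real.exp (-(η * ((N : ℝ) ^ k / ((L N + 1 : ℕ) : ℝ)))) ≤
          Real.exp (-(((k + 3 : ℕ) : ℝ) * Real.log N)) := by
        apply Real.exp_le_exp.2
        rw [neg_le_neg_iff, mul_div_assoc', le_div_iff₀ hLp]
        push_cast
        push_cast at hb1
        linarith
      have hexp2 : Real.exp (-(((k + 3 : ℕ) : ℝ) * Real.log N)) = 1 / (N : ℝ) ^ (k + 3) := by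
        rw [Real.exp_neg, one_div]
        congr 1
        have h5 := Real.exp_nat_mul (Real.log N) (k + 3)
        rw [Real.exp_log hN] at h5
        exact h5
      rw [Real.norm_of_nonneg (by positivity)]
      calc ((L N + 1 : ℕ) : ℝ) * Real.exp (-(η * ((N : ℝ) ^ k / ((L N + 1 : ℕ) : ℝ)))) ≤
          (N : ℝ) ^ k * (1 / (N : ℝ) ^ (k + 3)) := by
            rw [← hexp2]
            exact mul_le_mul hb2 hexp (Real.exp_pos _).le hNk.le
        _ = 1 / (N : ℝ) ^ 3 := by
            rw [pow_add]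
            field_simp
    have hs := Summable.of_norm_bounded_eventually_nat
      (Real.summable_one_div_nat_pow.2 (by norm_num)) hev
    have hs' := (summable_nat_add_iff 1).2 hs
    refine hs'.congr fun N => ?_
    rw [qb_card]
    push_cast
    rfl
  · intro N T hT hTE s hs
    refine (hm (N + 1) s T fun n hn => ?_).trans (Nat.le_succ _)
    exact ⟨mem_qb.1 (hT hn), hTE n hn, hs n hn⟩

theorem good_cube {Z : Type} [MeasurableSpace Z] {ρ : Measure Z} {g : (Fin k → ℕ) → Z → Z}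
    (h : Good1 ρ g) : Good atTop (fun N => qb k (N + 1)) ρ g := by
  intro F hF hb
  filter_upwards [h F hF hb] with z hz
  obtain ⟨L, hL⟩ := hz
  have h1 : Tendsto (fun N : ℕ => (fun _ : Fin k => N + 1)) atTop atTop := by
    rw [tendsto_atTop]
    intro b
    filter_upwards [eventually_ge_atTop (∑ l, b l)] with N hN
    intro l
    exact ((Finset.single_le_sum (f := b) (fun _ _ => Nat.zero_le _) (Finset.mem_univ l)).trans
      hN).trans (Nat.le_succ _)
  refine ⟨L, (hL.comp h1).congr fun N => ?_⟩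
  rw [Function.comp_apply]
  unfold bx avr
  rw [qb_card]
  simp [qb]

theorem exists_posc {G : Type*} [Group G] {ℓ : G → ℝ} (hinv : ∀ g, ℓ g⁻¹ = -ℓ g)
    {a : (Fin k → ℕ) → G} (h : Dispc fun n => ℓ (a n)) : ∃ s₀ : G, 0 < ℓ s₀ := by
  classical
  by_contra hcon
  push Not at hcon
  have h0 : ∀ g, ℓ g = 0 := by
    intro g
    have h1 := hcon g
    have h2 := hcon g⁻¹
    rw [hinv] at h2
    linarith
  obtain ⟨L, E, hE, hL, hm⟩ := h 1
  have h1 : ∀ N : ℕ, ((qb k N).filter fun n => n ∉ E).card ≤ L N := by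
    intro N
    refine hm N 0 _ fun n hn => ?_
    rw [Finset.mem_filter, mem_qb] at hn
    refine ⟨hn.1, hn.2, ?_, ?_⟩
    · show 0 ≤ ℓ (a n)
      rw [h0]
    · show ℓ (a n) < 0 + 1
      rw [h0]
      norm_num
  have h2 : ∀ᶠ N : ℕ in atTop, (1 : ℝ) ≤ Real.log N :=
    (Real.tendsto_log_atTop.comp tendsto_natCast_atTop_atTop).eventually_ge_atTop 1
  have h3 := (tendsto_order.mp hL).2 (1 / 2) (by norm_num)
  unfold DZc at hE
  have h4 := (tendsto_order.mp hE).2 (1 / 2) (by norm_num)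
  obtain ⟨N, hN1, hN2, hN3, hN4⟩ := (h2.and (h3.and (h4.and (eventually_gt_atTop 0)))).exists
  have hN : (0 : ℝ) < N := by exact_mod_cast hN4
  have hNk : (0 : ℝ) < (N : ℝ) ^ k := by positivity
  have h5 := h1 N
  have h6 : ((qb k N).filter fun n => n ∈ E).card +
      ((qb k N).filter fun n => n ∉ E).card = N ^ k := by
    rw [Finset.card_filter_add_card_filter_not, qb_card]
  have h7 : (L N : ℝ) < 1 / 2 * (N : ℝ) ^ k := by
    rw [div_lt_iff₀ hNk] at hN2
    nlinarith [Nat.cast_nonneg (α := ℝ) (L N)]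
  rw [div_lt_iff₀ hNk] at hN3
  have h8 : (((qb k N).filter fun n => n ∈ E).card : ℝ) +
      (((qb k N).filter fun n => n ∉ E).card : ℝ) = (N : ℝ) ^ k := by
    exact_mod_cast h6
  have h9 : (((qb k N).filter fun n => n ∉ E).card : ℝ) ≤ L N := by
    exact_mod_cast h5
  linarith

/-! ### rates -/

variable {Ω : Type} [MeasurableSpace Ω] {P : Measure Ω} [IsProbabilityMeasure P]

theorem pair_dispc {φ : (Fin k → ℕ) → Ω → ℝ} (hφ : ∀ n, Measurable (φ n))
    (h : ∀ R : ℝ, ∃ c C : ℝ, 3 < c ∧ ∀ N : ℕ, 2 ≤ N →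
      ∑ n ∈ qb k N, ∑ n' ∈ qb k N, P.real {ω | |φ n ω - φ n' ω| < R} ≤
        C * ((N : ℝ) ^ k) ^ 2 / (Real.log N) ^ c) :
    ∀ᵐ ω ∂P, Dispc fun n => φ n ω := by
  classical
  have key : ∀ r : ℕ, ∀ᵐ ω ∂P, ∃ L : ℕ → ℕ,
      Tendsto (fun N : ℕ => (L N : ℝ) * Real.log N / (N : ℝ) ^ k) atTop (𝓝 0) ∧
      ∀ (N : ℕ) (s : ℝ) (T : Finset (Fin k → ℕ)), (∀ n ∈ T, (∀ l, n l < N) ∧
        s ≤ φ n ω ∧ φ n ω < s + r) → T.card ≤ L N := by
    intro r
    obtain ⟨c, C, hc, hC⟩ := h r
    let A : (Fin k → ℕ) → (Fin k → ℕ) → Set Ω := fun n n' => {ω | |φ n ω - φ n' ω| < r}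
    have hA : ∀ n n', MeasurableSet (A n n') := fun n n' =>
      measurableSet_lt ((hφ n).sub (hφ n')).abs measurable_const
    let W : ℕ → Ω → ℝ := fun N ω => ∑ n ∈ qb k N,
      ∑ n' ∈ qb k N, (A n n').indicator (fun _ => (1 : ℝ)) ω
    have hind : ∀ (n n' : Fin k → ℕ) (ω : Ω), 0 ≤ (A n n').indicator (fun _ => (1 : ℝ)) ω :=
      fun n n' ω => Set.indicator_nonneg (fun _ _ => zero_le_one) _
    have hW0 : ∀ N ω, 0 ≤ W N ω := fun N ω => Finset.sum_nonneg fun n _ =>
      Finset.sum_nonneg fun h _ => hind _ _ _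
    have hWmono : ∀ ω, Monotone fun N => W N ω := by
      intro ω N M hNM
      show W N ω ≤ W M ω
      calc W N ω ≤ ∑ n ∈ qb k N, ∑ n' ∈ qb k M,
            (A n n').indicator (fun _ => (1 : ℝ)) ω :=
          Finset.sum_le_sum fun n _ => Finset.sum_le_sum_of_subset_of_nonneg
            (qb_mono hNM) fun h _ _ => hind _ _ _
        _ ≤ W M ω := Finset.sum_le_sum_of_subset_of_nonneg
            (qb_mono hNM) fun n _ _ => Finset.sum_nonneg fun h _ => hind _ _ _
    have hWi : ∀ N, Integrable (W N) P ∧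
        ∫ ω, W N ω ∂P = ∑ n ∈ qb k N, ∑ n' ∈ qb k N, P.real (A n n') := by
      intro N
      have h1 : ∀ n ∈ qb k N, Integrable (fun ω =>
          ∑ n' ∈ qb k N, (A n n').indicator (fun _ => (1 : ℝ)) ω) P :=
        fun n _ => integrable_finsetSum _ fun n' _ => (ind_int (hA n n')).1
      refine ⟨integrable_finsetSum _ h1, ?_⟩
      have h2 : ∫ ω, W N ω ∂P = ∑ n ∈ qb k N, ∫ ω,
          ∑ n' ∈ qb k N, (A n n').indicator (fun _ => (1 : ℝ)) ω ∂P :=
        integral_finsetSum _ h1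
      rw [h2]
      refine Finset.sum_congr rfl fun n _ => ?_
      rw [integral_finsetSum _ fun n' _ => (ind_int (hA n n')).1]
      exact Finset.sum_congr rfl fun n' _ => (ind_int (hA n n')).2
    have hWm : ∀ N, Measurable (W N) := fun N => Finset.measurable_fun_sum _ fun n _ =>
      Finset.measurable_fun_sum _ fun n' _ => measurable_const.indicator (hA n n')
    have hsum := rate_sum (p := fun κ => (∫ ω, W (2 ^ κ) ω ∂P) * (2 : ℝ) ^ κ /
        (((2 : ℝ) ^ κ) ^ k) ^ 2) (e := 2)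
      (fun κ => div_nonneg (mul_nonneg (integral_nonneg fun ω => hW0 _ _) (by positivity))
        (by positivity)) (c := c) (C := C)
      (by norm_num; linarith) (fun κ hκ => by
        have h1 := hC (2 ^ κ) (by
          calc 2 = 2 ^ 1 := by norm_num
            _ ≤ 2 ^ κ := Nat.pow_le_pow_right (by norm_num) hκ)
        have h1' : ∫ ω, W (2 ^ κ) ω ∂P ≤ C * (((2 ^ κ : ℕ) : ℝ) ^ k) ^ 2 /
            (Real.log ((2 ^ κ : ℕ) : ℝ)) ^ c := by
          rw [(hWi (2 ^ κ)).2]
          exact h1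
        push_cast at h1'
        have h2 : (0 : ℝ) < (((2 : ℝ) ^ κ) ^ k) ^ 2 := by positivity
        show (∫ ω, W (2 ^ κ) ω ∂P) * (2 : ℝ) ^ κ / (((2 : ℝ) ^ κ) ^ k) ^ 2 ≤ _
        rw [div_le_iff₀ h2]
        have h3 := mul_le_mul_of_nonneg_right h1' (show (0 : ℝ) ≤ 2 ^ κ by positivity)
        refine h3.trans (le_of_eq ?_)
        ring)
    have hsmall := ae_small (P := P)
      (f := fun κ ω => (κ : ℝ) ^ 2 * W (2 ^ κ) ω / ((2 : ℝ) ^ κ) ^ (k * 2))
      (fun κ => ((hWm _).const_mul _).div_const _)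
      (fun κ ω => div_nonneg (mul_nonneg (by positivity) (hW0 _ _)) (by positivity))
      (fun κ => ((hWi _).1.const_mul _).div_const _)
      (by
        refine hsum.congr fun κ => ?_
        rw [integral_div, integral_const_mul, pow_mul]
        field_simp)
    filter_upwards [hsmall] with ω hω
    have hdy := dyadic (hWmono ω) (fun N => hW0 N ω) hω
    refine ⟨fun N => Nat.sqrt ⌊W N ω⌋₊, ?_, ?_⟩
    · have h1 := hdy.sqrt
      rw [Real.sqrt_zero] at h1
      refine squeeze_zero' ?_ ?_ h1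
      · filter_upwards [eventually_gt_atTop 0] with N hN
        have := Real.log_natCast_nonneg N
        positivity
      · filter_upwards [eventually_gt_atTop 0] with N hN
        have hN' : (0 : ℝ) < N := by exact_mod_cast hN
        have hlog := Real.log_natCast_nonneg N
        apply Real.le_sqrt_of_sq_le
        have h2 : ((Nat.sqrt ⌊W N ω⌋₊ : ℕ) : ℝ) ^ 2 ≤ W N ω := by
          have h3 := Nat.sqrt_le' ⌊W N ω⌋₊
          have h4 : ((Nat.sqrt ⌊W N ω⌋₊ : ℕ) : ℝ) ^ 2 ≤ (⌊W N ω⌋₊ : ℝ) := by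
            exact_mod_cast h3
          exact h4.trans (Nat.floor_le (hW0 _ _))
        rw [div_pow, mul_pow, ← pow_mul]
        refine div_le_div_of_nonneg_right ?_ (by positivity)
        have h5 := mul_le_mul_of_nonneg_right h2 (sq_nonneg (Real.log N))
        linarith
    · intro N s T hT
      rw [Nat.le_sqrt', Nat.le_floor_iff (hW0 _ _)]
      push_cast
      have hsub : T ⊆ qb k N := fun n hn => mem_qb.2 (hT n hn).1
      have h6 : (T.card : ℝ) ^ 2 = ∑ n ∈ T, ∑ n' ∈ T, (1 : ℝ) := by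
        rw [Finset.sum_const, Finset.sum_const, nsmul_eq_mul, nsmul_eq_mul, mul_one, sq]
      rw [h6]
      calc ∑ n ∈ T, ∑ n' ∈ T, (1 : ℝ) ≤
          ∑ n ∈ T, ∑ n' ∈ T, (A n n').indicator (fun _ => (1 : ℝ)) ω := by
            refine Finset.sum_le_sum fun n hn => Finset.sum_le_sum fun n' hn' => ?_
            have h7 : ω ∈ A n n' := by
              show |φ n ω - φ n' ω| < r
              have h8 := hT n hn
              have h9 := hT n' hn'
              rw [abs_lt]
              constructor <;> linarith [h8.2.1, h8.2.2, h9.2.1, h9.2.2]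
            rw [Set.indicator_of_mem h7]
        _ ≤ ∑ n ∈ T, ∑ n' ∈ qb k N,
            (A n n').indicator (fun _ => (1 : ℝ)) ω :=
            Finset.sum_le_sum fun n _ => Finset.sum_le_sum_of_subset_of_nonneg hsub
              fun _ _ _ => hind _ _ _
        _ ≤ W N ω := Finset.sum_le_sum_of_subset_of_nonneg hsub fun n _ _ =>
            Finset.sum_nonneg fun _ _ => hind _ _ _
  filter_upwards [ae_all_iff.2 key] with ω hω R
  obtain ⟨r, hr⟩ := exists_nat_ge R
  obtain ⟨L, hL, hm⟩ := hω r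
  refine ⟨L, ∅, ?_, hL, fun N s T hT => hm N s T fun n hn => ?_⟩
  · unfold DZc
    simp
  · obtain ⟨h1, -, h3, h4⟩ := hT n hn
    exact ⟨h1, h3, by linarith⟩

theorem close_sepc {φ ψ : (Fin k → ℕ) → Ω → ℝ} (hφ : ∀ n, Measurable (φ n))
    (hψ : ∀ n, Measurable (ψ n))
    (h : ∀ R : ℝ, ∃ c C : ℝ, 1 < c ∧ ∀ N : ℕ, 2 ≤ N →
      ∑ n ∈ qb k N, P.real {ω | |φ n ω - ψ n ω| < R} ≤ C * (N : ℝ) ^ k / (Real.log N) ^ c) :
    ∀ᵐ ω ∂P, ∀ R : ℝ, DZc {n | |φ n ω - ψ n ω| < R} := by
  classical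
  have key : ∀ r : ℕ, ∀ᵐ ω ∂P, DZc {n | |φ n ω - ψ n ω| < r} := by
    intro r
    obtain ⟨c, C, hc, hC⟩ := h r
    let A : (Fin k → ℕ) → Set Ω := fun n => {ω | |φ n ω - ψ n ω| < r}
    have hA : ∀ n, MeasurableSet (A n) := fun n =>
      measurableSet_lt ((hφ n).sub (hψ n)).abs measurable_const
    let w : ℕ → Ω → ℝ := fun N ω => ∑ n ∈ qb k N, (A n).indicator (fun _ => (1 : ℝ)) ω
    have hind : ∀ (n : Fin k → ℕ) (ω : Ω), 0 ≤ (A n).indicator (fun _ => (1 : ℝ)) ω :=
      fun n ω => Set.indicator_nonneg (fun _ _ => zero_le_one) _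
    have hw0 : ∀ N ω, 0 ≤ w N ω := fun N ω => Finset.sum_nonneg fun n _ => hind _ _
    have hwmono : ∀ ω, Monotone fun N => w N ω := by
      intro ω N M hNM
      exact Finset.sum_le_sum_of_subset_of_nonneg (qb_mono hNM) fun n _ _ => hind _ _
    have hwm : ∀ N, Measurable (w N) := fun N => Finset.measurable_fun_sum _ fun n _ =>
      measurable_const.indicator (hA n)
    have hwi : ∀ N, Integrable (w N) P ∧
        ∫ ω, w N ω ∂P = ∑ n ∈ qb k N, P.real (A n) := by
      intro N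
      have h1 : ∀ n ∈ qb k N, Integrable (fun ω =>
          (A n).indicator (fun _ => (1 : ℝ)) ω) P := fun n _ => (ind_int (hA n)).1
      refine ⟨integrable_finsetSum _ h1, ?_⟩
      have h2 : ∫ ω, w N ω ∂P = ∑ n ∈ qb k N, ∫ ω,
          (A n).indicator (fun _ => (1 : ℝ)) ω ∂P := integral_finsetSum _ h1
      rw [h2]
      exact Finset.sum_congr rfl fun n _ => (ind_int (hA n)).2
    have hsum := rate_sum (p := fun κ => (∫ ω, w (2 ^ κ) ω ∂P) * (2 : ℝ) ^ κ /
        ((2 : ℝ) ^ κ) ^ k) (e := 0)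
      (fun κ => div_nonneg (mul_nonneg (integral_nonneg fun ω => hw0 _ _) (by positivity))
        (by positivity)) (c := c) (C := C)
      (by norm_num; linarith) (fun κ hκ => by
        have h1 := hC (2 ^ κ) (by
          calc 2 = 2 ^ 1 := by norm_num
            _ ≤ 2 ^ κ := Nat.pow_le_pow_right (by norm_num) hκ)
        have h1' : ∫ ω, w (2 ^ κ) ω ∂P ≤ C * ((2 ^ κ : ℕ) : ℝ) ^ k /
            (Real.log ((2 ^ κ : ℕ) : ℝ)) ^ c := by
          rw [(hwi (2 ^ κ)).2]
          exact h1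
        push_cast at h1'
        have h2 : (0 : ℝ) < ((2 : ℝ) ^ κ) ^ k := by positivity
        show (∫ ω, w (2 ^ κ) ω ∂P) * (2 : ℝ) ^ κ / ((2 : ℝ) ^ κ) ^ k ≤ _
        rw [div_le_iff₀ h2]
        have h3 := mul_le_mul_of_nonneg_right h1' (show (0 : ℝ) ≤ 2 ^ κ by positivity)
        refine h3.trans (le_of_eq ?_)
        ring)
    have hsmall := ae_small (P := P)
      (f := fun κ ω => (κ : ℝ) ^ 0 * w (2 ^ κ) ω / ((2 : ℝ) ^ κ) ^ k)
      (fun κ => ((hwm _).const_mul _).div_const _)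
      (fun κ ω => div_nonneg (mul_nonneg (by positivity) (hw0 _ _)) (by positivity))
      (fun κ => ((hwi _).1.const_mul _).div_const _)
      (by
        refine hsum.congr fun κ => ?_
        rw [integral_div, integral_const_mul]
        field_simp)
    filter_upwards [hsmall] with ω hω
    have hdy := dyadic (hwmono ω) (fun N => hw0 N ω) hω
    unfold DZc
    refine hdy.congr fun N => ?_
    rw [pow_zero, one_mul]
    congr 1
    show ∑ n ∈ qb k N, (A n).indicator (fun _ => (1 : ℝ)) ω = _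
    simp only [Set.indicator_apply]
    rw [← Finset.sum_filter, Finset.sum_const, nsmul_eq_mul, mul_one]
    congr 2
  filter_upwards [ae_all_iff.2 key] with ω hω R
  obtain ⟨r, hr⟩ := exists_nat_ge R
  have h1 := hω r
  unfold DZc at *
  refine squeeze_zero (fun N => by positivity) (fun N => ?_) h1
  refine div_le_div_of_nonneg_right ?_ (by positivity)
  have h2 : ((qb k N).filter fun n => n ∈ {n | |φ n ω - ψ n ω| < R}).card ≤
      ((qb k N).filter fun n => n ∈ {n | |φ n ω - ψ n ω| < r}).card := by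
    apply Finset.card_le_card
    intro n hn
    rw [Finset.mem_filter] at hn ⊢
    exact ⟨hn.1, lt_of_lt_of_le hn.2 hr⟩
  exact_mod_cast h2

end Pool.Agent.Run7.h484.KG
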