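import Pool.Agent.Run7.h484.KG.SkewF
import Pool.Agent.Run7.h484.KG.Disc

/-!
# Base systems with discrete spectrum
-/

set_option autoImplicit false
set_option linter.unusedSectionVars false

open MeasureTheory Filter Topology
open scoped ENNReal

noncomputable section

namespace Pool.Agent.Run7.h484.KG

open Pool.Agent.TH739.PA (av avr av_mul Good)
open Pool.Agent.W761.Gauss (BM)

theorem geom_conv (z : ℂ) (hz : ‖z‖ = 1) :
    ∃ L : ℂ, Tendsto (fun N => av (In N) fun n => z ^ n) atTop (𝓝 L) := by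
  by_cases h1 : z = 1
  · refine ⟨1, Tendsto.congr (fun N => ?_) (tendsto_const_nhds (x := (1 : ℂ)))⟩
    unfold av
    rw [h1]
    simp only [one_pow, Finset.sum_const, nsmul_eq_mul, mul_one]
    rw [inv_mul_cancel₀]
    rw [In_card]
    exact_mod_cast Nat.succ_ne_zero N
  · have h2 : z - 1 ≠ 0 := sub_ne_zero.2 h1
    have hs : ∀ M : ℕ, (∑ n ∈ Finset.Icc 1 M, z ^ n) * (z - 1) = z ^ (M + 1) - z := by
      intro M
      induction M with
      | zero => simp
      | succ M ih =>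
        rw [Finset.sum_Icc_succ_top (by omega), add_mul, ih]
        ring
    have hb : ∀ M : ℕ, ‖∑ n ∈ Finset.Icc 1 M, z ^ n‖ ≤ 2 / ‖z - 1‖ := by
      intro M
      rw [le_div_iff₀ (norm_pos_iff.2 h2), ← norm_mul, hs]
      refine (norm_sub_le _ _).trans ?_
      rw [norm_pow, hz, one_pow]
      norm_num
    refine ⟨0, squeeze_zero_norm (a := fun N : ℕ => 2 / ‖z - 1‖ * (1 / ((N : ℝ) + 1)))
      (fun N => ?_) ?_⟩
    · unfold av
      rw [norm_mul, norm_inv, In_card, Complex.norm_natCast]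
      have h3 := hb (N + 1)
      have h4 : (0 : ℝ) < ((N + 1 : ℕ) : ℝ) := by exact_mod_cast Nat.succ_pos N
      push_cast at h4 ⊢
      rw [mul_comm, one_div]
      exact mul_le_mul_of_nonneg_right h3 (inv_nonneg.2 h4.le)
    · have h3 := (tendsto_one_div_add_atTop_nhds_zero_nat (𝕜 := ℝ)).const_mul (2 / ‖z - 1‖)
      rw [mul_zero] at h3
      exact h3

variable {Ω : Type} [mΩ : MeasurableSpace Ω] {P : Measure Ω} [IsProbabilityMeasure P]

/-- discrete spectrum -/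
def DiscB (P : Measure Ω) (σ : Ω → Ω) : Prop :=
  ∀ e : Ω → ℂ, Measurable e → (∃ C : ℝ, ∀ x, ‖e x‖ ≤ C) → ∀ ε : ℝ, 0 < ε →
    ∃ (s : ℕ) (c : Fin s → ℂ) (h : Fin s → Ω → ℂ), (∀ i, Measurable (h i) ∧
      (∃ C : ℝ, ∀ x, ‖h i x‖ ≤ C) ∧ ∃ z : ℂ, ‖z‖ = 1 ∧ ∀ᵐ x ∂P, h i (σ x) = z * h i x) ∧
      ∫ x, ‖e x - ∑ i, c i * h i x‖ ∂P ≤ ε

theorem disc_base {σ : Ω → Ω} (hσ : MeasurePreserving σ P P) (hd : DiscB P σ) {m : ℕ}
    (a : Fin m → ℕ) {h : Fin m → Ω → ℂ} (hh : ∀ j, BM (h j)) :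
    ∀ᵐ ω ∂P, ∃ L : ℂ, Tendsto (fun N : ℕ => (N : ℂ)⁻¹ * ∑ n ∈ Finset.Icc 1 N,
      ∏ j, h j (σ^[a j * n] ω)) atTop (𝓝 L) := by
  classical
  have hmain : Cvg P In (fun j n => σ^[a j * n]) h := by
    refine Cvg_dense (fun j n => hσ.iterate _) (fun j => good_powN hσ (a j))
      (𝓔 := {f | BM f ∧ ∃ z : ℂ, ‖z‖ = 1 ∧ ∀ᵐ x ∂P, f (σ x) = z * f x})
      (fun f hf => hf.1) ?_ fun j => ⟨hh j, fun ε hε => ?_⟩
    · intro F hF
      choose hFB z hz hFz using hF
      have h1 : ∀ᵐ x ∂P, ∀ (k : ℕ) (j : Fin m), F j (σ^[k] x) = z j ^ k * F j x := by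
        have h2 : ∀ᵐ x ∂P, ∀ (k : ℕ) (j : Fin m), F j (σ (σ^[k] x)) = z j * F j (σ^[k] x) := by
          rw [ae_all_iff]
          intro k
          rw [ae_all_iff]
          intro j
          exact (hσ.iterate k).quasiMeasurePreserving.ae (hFz j)
        filter_upwards [h2] with x hx k j
        induction k with
        | zero => simp
        | succ k ih => rw [Function.iterate_succ_apply', hx k j, ih, pow_succ]; ring
      obtain ⟨L, hL⟩ := geom_conv (∏ j, z j ^ a j) (by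
        rw [norm_prod]
        refine Finset.prod_eq_one fun j _ => ?_
        rw [norm_pow, hz, one_pow])
      filter_upwards [h1] with x hx
      refine ⟨(∏ j, F j x) * L, (hL.const_mul _).congr fun N => ?_⟩
      rw [← av_mul]
      congr 1
      funext n
      rw [mul_one, Finset.prod_congr rfl fun j _ => hx (a j * n) j, Finset.prod_mul_distrib,
        ← Finset.prod_pow]
      simp only [← pow_mul]
      ring
    · obtain ⟨hm, hb⟩ := hh j
      obtain ⟨s, c, u, hu, hle⟩ := hd (h j) hm hb ε hε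
      exact ⟨s, c, u, fun i => ⟨⟨(hu i).1, (hu i).2.1⟩, (hu i).2.2⟩, hle⟩
  filter_upwards [hmain] with ω hω
  obtain ⟨L, hL⟩ := hω
  refine ⟨L, ?_⟩
  rw [← tendsto_add_atTop_iff_nat 1]
  refine hL.congr fun N => ?_
  unfold av
  rw [In_card]
  simp only [mul_one]
  rfl

end Pool.Agent.Run7.h484.KG
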