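import Pool.Agent.Run7.h484.KB.Line
import Pool.Agent.TH784.KE.Zero
import Pool.Agent.TH739.PA.Abs

/-!
# Sums over general finite sets of positions
-/

set_option autoImplicit false
set_option linter.unusedSectionVars false

open MeasureTheory Filter Topology

noncomputable section

namespace Pool.Agent.Run7.h484.KG

open Pool.Agent.TH784.KE
open Pool.Agent.Run7.h484.KB (orth_gen)
open Pool.Agent.TH739.PA (av avr avr_add avr_mono avr_nonneg avr_abs avr_const_le avr_mul av_add
  av_mul int_lim Good)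

variable {ι : Type*}

/-- enumeration of a finite set along which `a` is nondecreasing -/
theorem exists_sort' [DecidableEq ι] (T₀ : Finset ι) (hne : T₀.Nonempty) (a : ι → ℝ) :
    ∃ σ : ℕ → ι, Set.InjOn σ (Finset.range T₀.card : Set ℕ) ∧
      (Finset.range T₀.card).image σ = T₀ ∧
      ∀ i j, i ≤ j → j < T₀.card → a (σ i) ≤ a (σ j) := by
  classical
  let e := T₀.equivFin
  let f : Fin T₀.card → ℝ := fun i => a (e.symm i : ι)
  let τ : Equiv.Perm (Fin T₀.card) := Tuple.sort f
  have hτ : Monotone (f ∘ τ) := Tuple.monotone_sort f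
  obtain ⟨i₀, -⟩ := hne
  let σ : ℕ → ι := fun i => if h : i < T₀.card then (e.symm (τ ⟨i, h⟩) : ι) else i₀
  have hσ : ∀ i (h : i < T₀.card), σ i = (e.symm (τ ⟨i, h⟩) : ι) := fun i h => dif_pos h
  have hinj : Set.InjOn σ (Finset.range T₀.card : Set ℕ) := by
    intro i hi j hj hij
    have hi' : i < T₀.card := Finset.mem_range.1 hi
    have hj' : j < T₀.card := Finset.mem_range.1 hj
    rw [hσ i hi', hσ j hj'] at hij
    have h1 := τ.injective (e.symm.injective (Subtype.ext hij))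
    exact congrArg Fin.val h1
  refine ⟨σ, hinj, ?_, ?_⟩
  · apply Finset.eq_of_subset_of_card_le
    · intro m hm
      obtain ⟨i, hi, rfl⟩ := Finset.mem_image.1 hm
      rw [hσ i (Finset.mem_range.1 hi)]
      exact (e.symm _).2
    · rw [Finset.card_image_of_injOn hinj, Finset.card_range]
  · intro i j hij hj
    rw [hσ i (hij.trans_lt hj), hσ j hj]
    exact hτ (show (⟨i, hij.trans_lt hj⟩ : Fin T₀.card) ≤ ⟨j, hj⟩ from hij)

theorem card_class (N L ρ : ℕ) (hL : 0 < L) :
    ((Finset.range N).filter (fun m => m % L = ρ)).card ≤ N / L + 1 := by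
  have h : ((Finset.range N).filter (fun m => m % L = ρ)).card ≤
      (Finset.range (N / L + 1)).card := by
    apply Finset.card_le_card_of_injOn (fun m => m / L)
    · intro m hm
      have hm' := Finset.mem_filter.1 (Finset.mem_coe.1 hm)
      rw [Finset.mem_range] at hm'
      apply Finset.mem_coe.2
      rw [Finset.mem_range]
      exact Nat.lt_succ_of_le (Nat.div_le_div_right hm'.1.le)
    · intro a ha b hb hab
      have ha' := (Finset.mem_filter.1 (Finset.mem_coe.1 ha)).2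
      have hb' := (Finset.mem_filter.1 (Finset.mem_coe.1 hb)).2
      have h1 := Nat.div_add_mod a L
      have h2 := Nat.div_add_mod b L
      have hab' : a / L = b / L := hab
      rw [← h1, ← h2, ha', hb', hab']
  rwa [Finset.card_range] at h

variable {X : Type} {mA mY mX : MeasurableSpace X} {μ : Measure X} [IsProbabilityMeasure μ]
variable {G : Type*} [Group G]
variable {Φ : G →* Equiv.Perm X} {ℓ : G → ℝ}
variable {J : Type*} [DecidableEq J]

theorem set_bound [DecidableEq ι] (hFl : Flow μ Φ) (hA : Filt mX mA Φ ℓ) (hY : Base mY mA Φ)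
    {V : Finset J} {v : J} (hv : v ∈ V) {p : ι → J → G}
    {F H : J → X → ℝ} {W : ι → X → ℝ} {r s : G} {R : ℝ}
    (hsr : ℓ s ≤ ℓ r) (hR : ℓ r - ℓ s ≤ R) (hR0 : 0 ≤ R)
    (hF : ∀ w ∈ V, Measurable[cm mA Φ r] (F w) ∧ ∀ x, |F w x| ≤ 1)
    (hH : CE μ (cm mA Φ s) (F v) (H v)) (hW : ∀ m, Measurable[mY] (W m) ∧ ∀ x, |W m x| ≤ 1)
    {L : ℕ} (hL : 0 < L) (T₀ : Finset ι) {b : ℕ} (hb : 0 < b) (hTb : T₀.card ≤ b)
    (hmult : ∀ T ⊆ T₀, ∀ s : ℝ, (∀ i ∈ T, s ≤ ℓ (p i v) ∧ ℓ (p i v) < s + R) → T.card ≤ L)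
    {η : ℝ} (hη : 0 < η) (hη1 : η ≤ 1) :
    μ.real {x | η * b ≤ |∑ i ∈ T₀, DD V Φ ℓ R F H (W i) (p i) v x|} ≤
      2 * (L * Real.exp (-(η ^ 2 / 16 * (b / L)))) := by
  classical
  have hL' : (0 : ℝ) < L := by exact_mod_cast hL
  have hL1 : (1 : ℝ) ≤ L := by exact_mod_cast hL
  have hb' : (0 : ℝ) < b := by exact_mod_cast hb
  rcases lt_or_ge b L with hbL | hLb
  · -- the trivial bound
    have h1 : μ.real {x | η * b ≤ |∑ i ∈ T₀, DD V Φ ℓ R F H (W i) (p i) v x|} ≤ 1 :=
      measureReal_le_one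
    have h2 : η ^ 2 / 16 * (b / L) ≤ 1 / 16 := by
      have h3 : (b : ℝ) / L ≤ 1 := by
        rw [div_le_one hL']
        exact_mod_cast hbL.le
      have h4 : η ^ 2 ≤ 1 := by nlinarith
      have h5 : 0 ≤ (b : ℝ) / L := by positivity
      nlinarith
    have h3 : (15 : ℝ) / 16 ≤ Real.exp (-(η ^ 2 / 16 * (b / L))) := by
      have := Real.add_one_le_exp (-(η ^ 2 / 16 * ((b : ℝ) / L)))
      linarith
    nlinarith
  rcases T₀.eq_empty_or_nonempty with h0 | hne
  · have : {x | η * b ≤ |∑ i ∈ T₀, DD V Φ ℓ R F H (W i) (p i) v x|} = ∅ := by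
      ext x
      simp only [h0, Finset.sum_empty, abs_zero, Set.mem_ofPred_eq, Set.mem_empty_iff_false,
        iff_false, not_le]
      positivity
    rw [this, measureReal_empty]
    positivity
  obtain ⟨σ, hinj, himg, hmon⟩ := exists_sort' T₀ hne (fun m => ℓ (p m v))
  set N := T₀.card with hN
  have hsum : ∀ x, ∑ m ∈ T₀, DD V Φ ℓ R F H (W m) (p m) v x =
      ∑ i ∈ Finset.range N, DD V Φ ℓ R F H (W (σ i)) (p (σ i)) v x := by
    intro x
    conv_lhs => rw [← himg]
    rw [Finset.sum_image hinj]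
  have hmeas : ∀ m, Measurable (DD V Φ ℓ R F H (W (σ m)) (p (σ m)) v) := fun m =>
    (DD_past hA hY hv hsr hR0 (fun w hw => (hF w hw).1) hH.1 (hW (σ m)).1
      (t := r * p (σ m) v) (hA.hom _ _).ge).mono (cm_le hFl hA _) le_rfl
  have hgap : ∀ i j : ℕ, i < N → j + L ≤ i → ℓ (p (σ j) v) + R ≤ ℓ (p (σ i) v) := by
    intro i j hi hji
    by_contra hcon
    rw [not_le] at hcon
    have h1 := hmult ((Finset.Icc j i).image σ) (by
      intro m hm
      obtain ⟨i', hi', rfl⟩ := Finset.mem_image.1 hm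
      rw [Finset.mem_Icc] at hi'
      rw [← himg]
      exact Finset.mem_image_of_mem _ (Finset.mem_range.2 (by omega))) (ℓ (p (σ j) v)) (by
      intro m hm
      obtain ⟨i', hi', rfl⟩ := Finset.mem_image.1 hm
      rw [Finset.mem_Icc] at hi'
      have h2 := hmon j i' hi'.1 (by omega)
      have h3 := hmon i' i hi'.2 hi
      exact ⟨h2, lt_of_le_of_lt h3 hcon⟩)
    rw [Finset.card_image_of_injOn, Nat.card_Icc] at h1
    · omega
    · intro a ha b hb hab
      rw [Finset.coe_Icc, Set.mem_Icc] at ha hb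
      exact hinj (Finset.mem_coe.2 (Finset.mem_range.2 (by omega)))
        (Finset.mem_coe.2 (Finset.mem_range.2 (by omega))) hab
  set t : ℝ := η * b with ht
  have ht0 : 0 ≤ t := by positivity
  have key : ∀ ρ ∈ Finset.range L, μ.real {x | t / (2 * L) ≤
      |∑ m ∈ (Finset.range N).filter (fun m => m % L = ρ),
        DD V Φ ℓ R F H (W (σ m)) (p (σ m)) v x / 2|} ≤
      2 * Real.exp (-((t / (2 * L)) ^ 2 / (2 * ((N / L + 1 : ℕ) : ℝ)))) := by
    intro ρ _
    have hb : ∀ m ∈ (Finset.range N).filter (fun m => m % L = ρ), ∀ x,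
        |DD V Φ ℓ R F H (W (σ m)) (p (σ m)) v x / 2| ≤ 1 := by
      intro m _ x
      rw [abs_div, abs_two]
      have := DD_abs (Φ := Φ) (ℓ := ℓ) (R := R) hv (fun w hw => (hF w hw).2) hH.2.1 (hW (σ m)).2
        (p (σ m)) x
      linarith
    have hmm : ∀ m ∈ (Finset.range N).filter (fun m => m % L = ρ), Measurable fun x =>
        DD V Φ ℓ R F H (W (σ m)) (p (σ m)) v x / 2 :=
      fun m _ => (hmeas m).div_const 2
    have hmod : ∀ i j : ℕ, j < i → i % L = j % L → j + L ≤ i := by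
      intro i j hij h
      have h1 : L ∣ i - j := (Nat.modEq_iff_dvd' hij.le).1 h.symm
      have h2 := Nat.le_of_dvd (Nat.sub_pos_of_lt hij) h1
      omega
    refine azuma (rk := fun m : ℕ => (m : ℤ)) Nat.cast_injective _ hmm hb ?_
      (div_nonneg ht0 (by positivity)) (Nat.succ_pos _) (card_class N L ρ hL)
    refine orth_gen (p := fun m => p (σ m)) (W := fun m => W (σ m)) hFl hA hY hv hsr hR hR0 hF hH
      (fun m => hW _) _ _ ?_
    intro i hi j hj hij
    rw [Finset.mem_filter, Finset.mem_range] at hi hj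
    have hij' : j < i := by exact_mod_cast hij
    exact hgap i j hi.1 (hmod i j hij' (hi.2.trans hj.2.symm))
  have hsub : {x | t ≤ |∑ m ∈ T₀, DD V Φ ℓ R F H (W m) (p m) v x|} ⊆
      ⋃ ρ ∈ Finset.range L, {x | t / (2 * L) ≤
      |∑ m ∈ (Finset.range N).filter (fun m => m % L = ρ),
        DD V Φ ℓ R F H (W (σ m)) (p (σ m)) v x / 2|} := by
    intro x hx
    by_contra hcon
    simp only [Set.mem_iUnion, Set.mem_ofPred_eq, not_exists, not_le] at hcon
    have h1 : ∑ m ∈ T₀, DD V Φ ℓ R F H (W m) (p m) v x =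
        2 * ∑ ρ ∈ Finset.range L, ∑ m ∈ (Finset.range N).filter (fun m => m % L = ρ),
          DD V Φ ℓ R F H (W (σ m)) (p (σ m)) v x / 2 := by
      rw [hsum, Finset.sum_fiberwise_of_maps_to (s := Finset.range N) (t := Finset.range L)
        (g := fun m => m % L) (fun m _ => Finset.mem_range.2 (Nat.mod_lt _ hL)), Finset.mul_sum]
      refine Finset.sum_congr rfl fun m _ => ?_
      ring
    have h2 : |∑ m ∈ T₀, DD V Φ ℓ R F H (W m) (p m) v x| < t := by
      rw [h1, abs_mul, abs_two]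
      have h3 : |∑ ρ ∈ Finset.range L, ∑ m ∈ (Finset.range N).filter (fun m => m % L = ρ),
          DD V Φ ℓ R F H (W (σ m)) (p (σ m)) v x / 2| < L * (t / (2 * L)) := by
        refine (Finset.abs_sum_le_sum_abs _ _).trans_lt ?_
        refine (Finset.sum_lt_sum_of_nonempty ⟨0, Finset.mem_range.2 hL⟩
          fun ρ hρ => hcon ρ hρ).trans_le ?_
        rw [Finset.sum_const, Finset.card_range, nsmul_eq_mul]
      calc 2 * _ < 2 * (L * (t / (2 * L))) := by linarith
        _ = t := by field_simp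
    exact absurd hx (not_le.2 h2)
  refine (measureReal_mono hsub (measure_ne_top _ _)).trans
    ((measureReal_biUnion_finset_le _ _).trans ?_)
  refine (Finset.sum_le_sum key).trans ?_
  rw [Finset.sum_const, Finset.card_range, nsmul_eq_mul]
  have hc : ((N / L + 1 : ℕ) : ℝ) ≤ 2 * b / L := by
    push_cast
    have h1 : ((N / L : ℕ) : ℝ) ≤ (N : ℝ) / L := Nat.cast_div_le
    have h2 : (N : ℝ) / L ≤ b / L := by
      apply div_le_div_of_nonneg_right _ hL'.le
      exact_mod_cast hTb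
    have h3 : (1 : ℝ) ≤ b / L := by
      rw [one_le_div hL']
      exact_mod_cast hLb
    have h4 : (2 : ℝ) * b / L = b / L + b / L := by ring
    linarith
  have hexp : Real.exp (-((t / (2 * L)) ^ 2 / (2 * ((N / L + 1 : ℕ) : ℝ)))) ≤
      Real.exp (-(η ^ 2 / 16 * (b / L))) := by
    apply Real.exp_le_exp.2
    rw [neg_le_neg_iff]
    have hcpos : (0 : ℝ) < ((N / L + 1 : ℕ) : ℝ) := by positivity
    rw [le_div_iff₀ (by positivity)]
    calc η ^ 2 / 16 * (b / L) * (2 * ((N / L + 1 : ℕ) : ℝ)) ≤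
        η ^ 2 / 16 * (b / L) * (2 * (2 * b / L)) := by
          apply mul_le_mul_of_nonneg_left _ (by positivity)
          linarith
      _ = (t / (2 * L)) ^ 2 := by
          rw [ht]
          field_simp
          ring
  calc (L : ℝ) * (2 * Real.exp (-((t / (2 * L)) ^ 2 / (2 * ((N / L + 1 : ℕ) : ℝ))))) ≤
      L * (2 * Real.exp (-(η ^ 2 / 16 * (b / L)))) := by
        apply mul_le_mul_of_nonneg_left _ hL'.le
        linarith
    _ = _ := by ring

end Pool.Agent.Run7.h484.KG
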