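import Pool.Agent.Run7.h484.KG.SkewC
import Pool.Agent.H165R3.BPE

/-!
# One-sided averages
-/

set_option autoImplicit false
set_option linter.unusedSectionVars false

open MeasureTheory Filter Topology
open scoped ENNReal

noncomputable section

namespace Pool.Agent.Run7.h484.KG

open Pool.Agent.TH784.KE
open Pool.Agent.TH739.PA (av avr avr_add avr_mono avr_nonneg avr_abs avr_const_le avr_mul av_add
  av_mul av_sub int_lim Good)
open Pool.Agent.W761.Gauss (BM)

/-- the intervals `[1, N + 1]` -/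
def In (N : ℕ) : Finset ℕ := Finset.Icc 1 (N + 1)

theorem In_card (N : ℕ) : (In N).card = N + 1 := by
  unfold In
  rw [Nat.card_Icc]
  omega

theorem In_ne (N : ℕ) : (In N).Nonempty := Finset.card_pos.1 (by rw [In_card]; omega)

open Classical in
/-- density zero -/
def DZn (E : Set ℕ) : Prop :=
  Tendsto (fun N : ℕ => (((Finset.Icc 1 N).filter fun n => n ∈ E).card : ℝ) / N)
    atTop (𝓝 0)

/-- dispersion -/
def Dispn (a : ℕ → ℝ) : Prop :=
  ∀ R : ℝ, ∃ (L : ℕ → ℕ) (E : Set ℕ), DZn E ∧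
    Tendsto (fun N : ℕ => (L N : ℝ) * Real.log N / N) atTop (𝓝 0) ∧
    ∀ (N : ℕ) (s : ℝ) (T : Finset ℕ),
      (∀ n ∈ T, 1 ≤ n ∧ n ≤ N ∧ n ∉ E ∧ s ≤ a n ∧ a n < s + R) → T.card ≤ L N

theorem DZn.toDZg {E : Set ℕ} (h : DZn E) : DZg In E := by
  classical
  unfold DZn at h
  unfold DZg
  have h1 := (tendsto_add_atTop_iff_nat 1).2 h
  refine h1.congr fun N => ?_
  unfold avr
  rw [In_card, ← Finset.sum_filter, Finset.sum_const, nsmul_eq_mul, mul_one, div_eq_inv_mul]
  rfl

theorem DZg.toDZn {E : Set ℕ} (h : DZg In E) : DZn E := by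
  classical
  unfold DZg at h
  unfold DZn
  rw [← tendsto_add_atTop_iff_nat 1]
  refine h.congr fun N => ?_
  unfold avr
  rw [In_card, ← Finset.sum_filter, Finset.sum_const, nsmul_eq_mul, mul_one, div_eq_inv_mul]
  rfl

theorem Dispn.toDispg {a : ℕ → ℝ} (h : Dispn a) : Dispg In a := by
  intro R hR
  obtain ⟨L, E, hE, hL, hm⟩ := h R
  refine ⟨fun N => L (N + 1) + 1, E, fun N => Nat.succ_pos _, fun η hη => ?_, hE.toDZg, ?_⟩
  · -- summability
    have hlogN : Tendsto (fun N : ℕ => Real.log N / N) atTop (𝓝 0) := by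
      have h1 := Real.isLittleO_log_id_atTop.tendsto_div_nhds_zero
      exact h1.comp tendsto_natCast_atTop_atTop
    have hL1 : Tendsto (fun N : ℕ => ((L N + 1 : ℕ) : ℝ) * Real.log N / N) atTop (𝓝 0) := by
      have h2 := hL.add hlogN
      rw [add_zero] at h2
      refine h2.congr fun N => ?_
      push_cast
      ring
    have hev : ∀ᶠ N : ℕ in atTop, ‖((L N + 1 : ℕ) : ℝ) *
        Real.exp (-(η * ((N : ℝ) / ((L N + 1 : ℕ) : ℝ))))‖ ≤ 1 / (N : ℝ) ^ 3 := by
      have h3 := (tendsto_order.mp hL1).2 (min (η / 4) 1) (lt_min (by positivity) one_pos)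
      have h4 : ∀ᶠ N : ℕ in atTop, (1 : ℝ) ≤ Real.log N :=
        (Real.tendsto_log_atTop.comp tendsto_natCast_atTop_atTop).eventually_ge_atTop 1
      filter_upwards [h3, h4, eventually_gt_atTop 0] with N hN1 hN2 hN3
      have hN : (0 : ℝ) < N := by exact_mod_cast hN3
      have hLp : (0 : ℝ) < ((L N + 1 : ℕ) : ℝ) := by positivity
      have hb1 : ((L N + 1 : ℕ) : ℝ) * Real.log N < η / 4 * N := by
        have := hN1.trans_le (min_le_left _ _)
        rwa [div_lt_iff₀ hN] at this
      have hb2 : ((L N + 1 : ℕ) : ℝ) ≤ N := by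
        have := hN1.trans_le (min_le_right _ _)
        rw [div_lt_iff₀ hN, one_mul] at this
        nlinarith
      have hexp : Real.exp (-(η * ((N : ℝ) / ((L N + 1 : ℕ) : ℝ)))) ≤
          Real.exp (-(4 * Real.log N)) := by
        apply Real.exp_le_exp.2
        rw [neg_le_neg_iff, mul_div_assoc', le_div_iff₀ hLp]
        push_cast
        push_cast at hb1
        nlinarith
      have hexp2 : Real.exp (-(4 * Real.log N)) = 1 / (N : ℝ) ^ 4 := by
        rw [Real.exp_neg, one_div]
        congr 1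
        have h5 := Real.exp_nat_mul (Real.log N) 4
        rw [Real.exp_log hN] at h5
        rw [← h5]
        norm_num
      rw [Real.norm_of_nonneg (by positivity)]
      calc ((L N + 1 : ℕ) : ℝ) * Real.exp (-(η * ((N : ℝ) / ((L N + 1 : ℕ) : ℝ)))) ≤
          N * (1 / (N : ℝ) ^ 4) := by
            rw [← hexp2]
            exact mul_le_mul hb2 hexp (Real.exp_pos _).le hN.le
        _ = 1 / (N : ℝ) ^ 3 := by
            field_simp
    have hs := Summable.of_norm_bounded_eventually_nat
      (Real.summable_one_div_nat_pow.2 (by norm_num)) hev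
    have hs' := (summable_nat_add_iff 1).2 hs
    refine hs'.congr fun N => ?_
    rw [In_card]
  · intro N T hT hTE s hs
    refine (hm (N + 1) s T fun n hn => ?_).trans (Nat.le_succ _)
    have h1 := Finset.mem_Icc.1 (hT hn)
    exact ⟨h1.1, h1.2, hTE n hn, hs n hn⟩

theorem tendsto_kmul {k : ℕ} (hk : 0 < k) : Tendsto (fun N : ℕ => k * N) atTop atTop :=
  tendsto_atTop_mono (fun N => Nat.le_mul_of_pos_left N hk) tendsto_id

theorem Dispn.dil {a : ℕ → ℝ} (h : Dispn a) {k : ℕ} (hk : 0 < k) : Dispn fun n => a (k * n) := by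
  classical
  intro R
  obtain ⟨L, E, hE, hL, hm⟩ := h R
  have hk' : (0 : ℝ) < k := by exact_mod_cast hk
  have hk1 : (1 : ℝ) ≤ k := by exact_mod_cast hk
  refine ⟨fun N => L (k * N), {n | k * n ∈ E}, ?_, ?_, ?_⟩
  · unfold DZn at *
    have h1 := (hE.comp (tendsto_kmul hk)).const_mul (k : ℝ)
    rw [mul_zero] at h1
    refine squeeze_zero (fun N => by positivity) (fun N => ?_) h1
    rw [Function.comp_apply]
    have h2 : ((Finset.Icc 1 N).filter fun n => n ∈ {n | k * n ∈ E}).card ≤
        ((Finset.Icc 1 (k * N)).filter fun n => n ∈ E).card := by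
      apply Finset.card_le_card_of_injOn (fun n => k * n)
      · intro n hn
        have hn' := Finset.mem_filter.1 (Finset.mem_coe.1 hn)
        have hn1 := Finset.mem_Icc.1 hn'.1
        apply Finset.mem_coe.2
        rw [Finset.mem_filter, Finset.mem_Icc]
        exact ⟨⟨Nat.mul_pos hk hn1.1, Nat.mul_le_mul_left k hn1.2⟩, hn'.2⟩
      · intro x _ y _ hxy
        exact Nat.eq_of_mul_eq_mul_left hk hxy
    have h3 : (((Finset.Icc 1 N).filter fun n => n ∈ {n | k * n ∈ E}).card : ℝ) ≤
        (((Finset.Icc 1 (k * N)).filter fun n => n ∈ E).card : ℝ) := by exact_mod_cast h2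
    rcases Nat.eq_zero_or_pos N with h0 | h0
    · subst h0
      simp
    · have hN : (0 : ℝ) < N := by exact_mod_cast h0
      rw [mul_div_assoc', div_le_div_iff₀ hN (by push_cast; positivity)]
      push_cast
      nlinarith [mul_le_mul_of_nonneg_right h3 (mul_pos hk' hN).le]
  · have h1 := (hL.comp (tendsto_kmul hk)).const_mul (k : ℝ)
    rw [mul_zero] at h1
    refine squeeze_zero' (Eventually.of_forall fun N => by positivity) ?_ h1
    filter_upwards [eventually_gt_atTop 0] with N h0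
    rw [Function.comp_apply]
    have hN : (0 : ℝ) < N := by exact_mod_cast h0
    have hlog : Real.log N ≤ Real.log ((k * N : ℕ) : ℝ) := by
      apply Real.log_le_log hN
      push_cast
      nlinarith
    have hL0 : (0 : ℝ) ≤ L (k * N) := Nat.cast_nonneg _
    rw [mul_div_assoc', div_le_div_iff₀ hN (by push_cast; positivity)]
    have h5 := mul_le_mul_of_nonneg_left hlog hL0
    have h6 : ((k * N : ℕ) : ℝ) = k * N := by push_cast; ring
    rw [h6] at h5 ⊢
    have h7 := mul_le_mul_of_nonneg_right h5 (mul_pos hk' hN).le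
    linarith
  · intro N s T hT
    have h1 : (T.image fun n => k * n).card = T.card :=
      Finset.card_image_of_injective _ fun x y hxy => Nat.eq_of_mul_eq_mul_left hk hxy
    rw [← h1]
    refine hm (k * N) s _ fun n hn => ?_
    obtain ⟨n', hn', rfl⟩ := Finset.mem_image.1 hn
    obtain ⟨h2, h3, h4, h5⟩ := hT n' hn'
    exact ⟨Nat.mul_pos hk h2, Nat.mul_le_mul_left k h3, h4, h5⟩

theorem exists_posn {G : Type*} [Group G] {ℓ : G → ℝ} (hinv : ∀ g, ℓ g⁻¹ = -ℓ g) {a : ℕ → G}
    (h : Dispn fun n => ℓ (a n)) : ∃ s₀ : G, 0 < ℓ s₀ := by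
  classical
  by_contra hcon
  push Not at hcon
  have h0 : ∀ g, ℓ g = 0 := by
    intro g
    have h1 := hcon g
    have h2 := hcon g⁻¹
    rw [hinv] at h2
    linarith
  obtain ⟨L, E, hE, hL, hm⟩ := h 1
  have h1 : ∀ N : ℕ, ((Finset.Icc 1 N).filter fun n => n ∉ E).card ≤ L N := by
    intro N
    refine hm N 0 _ fun n hn => ?_
    rw [Finset.mem_filter, Finset.mem_Icc] at hn
    refine ⟨hn.1.1, hn.1.2, hn.2, ?_, ?_⟩
    · show 0 ≤ ℓ (a n)
      rw [h0]
    · show ℓ (a n) < 0 + 1
      rw [h0]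
      norm_num
  have h2 : ∀ᶠ N : ℕ in atTop, (1 : ℝ) ≤ Real.log N :=
    (Real.tendsto_log_atTop.comp tendsto_natCast_atTop_atTop).eventually_ge_atTop 1
  have h3 := (tendsto_order.mp hL).2 (1 / 2) (by norm_num)
  unfold DZn at hE
  have h4 := (tendsto_order.mp hE).2 (1 / 2) (by norm_num)
  obtain ⟨N, hN1, hN2, hN3, hN4⟩ := (h2.and (h3.and (h4.and (eventually_gt_atTop 0)))).exists
  have hN : (0 : ℝ) < N := by exact_mod_cast hN4
  have h5 := h1 N
  have h6 : ((Finset.Icc 1 N).filter fun n => n ∈ E).card +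
      ((Finset.Icc 1 N).filter fun n => n ∉ E).card = N := by
    rw [Finset.card_filter_add_card_filter_not, Nat.card_Icc]
    omega
  have h7 : (L N : ℝ) < 1 / 2 * N := by
    rw [div_lt_iff₀ hN] at hN2
    nlinarith [Nat.cast_nonneg (α := ℝ) (L N)]
  rw [div_lt_iff₀ hN] at hN3
  have h8 : (((Finset.Icc 1 N).filter fun n => n ∈ E).card : ℝ) +
      (((Finset.Icc 1 N).filter fun n => n ∉ E).card : ℝ) = N := by
    exact_mod_cast h6
  have h9 : (((Finset.Icc 1 N).filter fun n => n ∉ E).card : ℝ) ≤ L N := by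
    exact_mod_cast h5
  linarith

theorem sum_Icc_shift (M : ℕ) (u : ℕ → ℝ) :
    ∑ n ∈ Finset.Icc 1 M, u n = ∑ n ∈ Finset.range M, u (n + 1) := by
  induction M with
  | zero => simp
  | succ M ih => rw [Finset.sum_Icc_succ_top (by omega), ih, Finset.sum_range_succ]

/-- averages along the powers of one map -/
theorem good_powN {Z : Type} [MeasurableSpace Z] {μ : Measure Z} [IsProbabilityMeasure μ]
    {T : Z → Z} (hT : MeasurePreserving T μ μ) (k : ℕ) :
    Good atTop In μ fun n => T^[k * n] := by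
  intro F hF hb
  obtain ⟨C, hC⟩ := hb
  have h1 := Pool.Agent.H165R3.BPE.birkhoff (hT.iterate k) (fun z => F (T^[k] z))
    (hF.comp (hT.iterate k).measurable) C (fun z => hC _)
  filter_upwards [h1] with z hz
  refine ⟨_, ((tendsto_add_atTop_iff_nat 1).2 hz).congr fun N => ?_⟩
  unfold avr
  rw [In_card]
  congr 1
  unfold In
  rw [sum_Icc_shift]
  refine Finset.sum_congr rfl fun n _ => ?_
  rw [← Function.iterate_succ_apply' T^[k] n z, ← Function.iterate_mul]

end Pool.Agent.Run7.h484.KG
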