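import Pool.Agent.Run7.h484.KG.Nat

/-!
# Rates for the return probabilities give dispersion and separation
-/

set_option autoImplicit false
set_option linter.unusedSectionVars false

open MeasureTheory Filter Topology
open scoped ENNReal

noncomputable section

namespace Pool.Agent.Run7.h484.KG

variable {Ω : Type} [MeasurableSpace Ω] {P : Measure Ω} [IsProbabilityMeasure P]

theorem ae_small {f : ℕ → Ω → ℝ} (hf : ∀ k, Measurable (f k)) (h0 : ∀ k z, 0 ≤ f k z)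
    (hi : ∀ k, Integrable (f k) P) (hs : Summable fun k => ∫ z, f k z ∂P) :
    ∀ᵐ z ∂P, Tendsto (fun k => f k z) atTop (𝓝 0) := by
  have h1 : ∫⁻ z, ∑' k, ENNReal.ofReal (f k z) ∂P ≠ ∞ := by
    rw [lintegral_tsum fun k => (hf k).ennreal_ofReal.aemeasurable]
    have h2 : ∀ k, ∫⁻ z, ENNReal.ofReal (f k z) ∂P = ENNReal.ofReal (∫ z, f k z ∂P) := fun k =>
      (ofReal_integral_eq_lintegral_ofReal (hi k) (Eventually.of_forall (h0 k))).symm
    simp only [h2]
    rw [← ENNReal.ofReal_tsum_of_nonneg (fun k => integral_nonneg (h0 k)) hs]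
    exact ENNReal.ofReal_ne_top
  have h3 := ae_lt_top' (AEMeasurable.tsum fun k =>
    (hf k).ennreal_ofReal.aemeasurable) h1
  filter_upwards [h3] with z hz
  have h4 := ENNReal.tendsto_atTop_zero_of_tsum_ne_top hz.ne
  have h5 := (ENNReal.tendsto_toReal ENNReal.zero_ne_top).comp h4
  rw [ENNReal.toReal_zero] at h5
  refine h5.congr fun k => ?_
  exact ENNReal.toReal_ofReal (h0 k z)

theorem dyadic {w : ℕ → ℝ} (hw : Monotone w) (h0 : ∀ N, 0 ≤ w N) {e d : ℕ}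
    (h : Tendsto (fun k : ℕ => (k : ℝ) ^ e * w (2 ^ k) / ((2 : ℝ) ^ k) ^ d) atTop (𝓝 0)) :
    Tendsto (fun N : ℕ => (Real.log N) ^ e * w N / (N : ℝ) ^ d) atTop (𝓝 0) := by
  have hk : Tendsto (fun N : ℕ => Nat.log 2 N + 1) atTop atTop := by
    rw [tendsto_atTop]
    intro b
    filter_upwards [eventually_ge_atTop (2 ^ b)] with N hN
    exact (Nat.le_log_of_pow_le one_lt_two hN).trans (Nat.le_succ _)
  have h1 := (h.comp hk).const_mul ((2 : ℝ) ^ d)
  rw [mul_zero] at h1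
  refine squeeze_zero' ?_ ?_ h1
  · filter_upwards [eventually_gt_atTop 0] with N hN
    have h2 : 0 ≤ Real.log N := Real.log_natCast_nonneg N
    have h3 := h0 N
    positivity
  · filter_upwards [eventually_gt_atTop 0] with N hN
    rw [Function.comp_apply]
    set k := Nat.log 2 N with hkdef
    have hk1 : 2 ^ k ≤ N := Nat.pow_log_le_self 2 hN.ne'
    have hk2 : N < 2 ^ (k + 1) := Nat.lt_pow_succ_log_self one_lt_two N
    have hN' : (0 : ℝ) < N := by exact_mod_cast hN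
    have hk1' : (2 : ℝ) ^ k ≤ N := by exact_mod_cast hk1
    have hk2' : (N : ℝ) ≤ 2 ^ (k + 1) := by exact_mod_cast hk2.le
    have hlog0 : 0 ≤ Real.log N := Real.log_natCast_nonneg N
    have hlog : Real.log N ≤ ((k + 1 : ℕ) : ℝ) := by
      have h2 := Real.log_le_log hN' hk2'
      rw [Real.log_pow] at h2
      have h3 : Real.log 2 ≤ 1 := by
        have := Real.log_two_lt_d9
        linarith
      have h4 : (0 : ℝ) ≤ ((k + 1 : ℕ) : ℝ) := Nat.cast_nonneg _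
      nlinarith
    have h5 : (Real.log N) ^ e ≤ ((k + 1 : ℕ) : ℝ) ^ e := pow_le_pow_left₀ hlog0 hlog e
    have h6 : w N ≤ w (2 ^ (k + 1)) := hw hk2.le
    have h7 : (Real.log N) ^ e * w N ≤ ((k + 1 : ℕ) : ℝ) ^ e * w (2 ^ (k + 1)) :=
      mul_le_mul h5 h6 (h0 N) (by positivity)
    have h8 : ((2 : ℝ) ^ (k + 1)) ^ d = 2 ^ d * ((2 : ℝ) ^ k) ^ d := by
      rw [pow_succ, mul_pow, mul_comm]
    have h9 : ((2 : ℝ) ^ k) ^ d ≤ (N : ℝ) ^ d := pow_le_pow_left₀ (by positivity) hk1' d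
    have h10 : 0 ≤ ((k + 1 : ℕ) : ℝ) ^ e * w (2 ^ (k + 1)) := mul_nonneg (by positivity) (h0 _)
    calc (Real.log N) ^ e * w N / (N : ℝ) ^ d ≤
        ((k + 1 : ℕ) : ℝ) ^ e * w (2 ^ (k + 1)) / (N : ℝ) ^ d :=
          div_le_div_of_nonneg_right h7 (by positivity)
      _ ≤ ((k + 1 : ℕ) : ℝ) ^ e * w (2 ^ (k + 1)) / ((2 : ℝ) ^ k) ^ d :=
          div_le_div_of_nonneg_left h10 (by positivity) h9
      _ = 2 ^ d * (((k + 1 : ℕ) : ℝ) ^ e * w (2 ^ (k + 1)) / ((2 : ℝ) ^ (k + 1)) ^ d) := by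
          rw [h8]
          field_simp

/-- the rate along the dyadic integers -/
theorem rate_sum {p : ℕ → ℝ} (hp : ∀ k, 0 ≤ p k) {c C : ℝ} {e : ℕ} (hc : (e : ℝ) + 1 < c)
    (h : ∀ k : ℕ, 1 ≤ k → p k ≤ C * (2 : ℝ) ^ k / (Real.log ((2 : ℝ) ^ k)) ^ c) :
    Summable fun k : ℕ => (k : ℝ) ^ e * p k / (2 : ℝ) ^ k := by
  have hlog2 : 0 < Real.log 2 := Real.log_pos one_lt_two
  have hs : Summable fun k : ℕ => (|C| / (Real.log 2) ^ c) * (k : ℝ) ^ ((e : ℝ) - c) :=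
    (Real.summable_nat_rpow.2 (by linarith)).mul_left _
  refine Summable.of_norm_bounded_eventually_nat hs ?_
  filter_upwards [eventually_ge_atTop 1] with k hk
  have hk' : (0 : ℝ) < k := by exact_mod_cast hk
  have h1 := h k hk
  rw [Real.log_pow, Real.mul_rpow hk'.le hlog2.le] at h1
  rw [Real.norm_of_nonneg (div_nonneg (mul_nonneg (by positivity) (hp k)) (by positivity))]
  have h2 : (k : ℝ) ^ ((e : ℝ) - c) = (k : ℝ) ^ e / (k : ℝ) ^ c := by
    rw [Real.rpow_sub hk', Real.rpow_natCast]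
  rw [h2]
  have hkc : 0 < (k : ℝ) ^ c := Real.rpow_pos_of_pos hk' c
  have hlc : 0 < (Real.log 2) ^ c := Real.rpow_pos_of_pos hlog2 c
  have h3 : p k ≤ |C| * (2 : ℝ) ^ k / ((k : ℝ) ^ c * (Real.log 2) ^ c) := by
    refine h1.trans (div_le_div_of_nonneg_right ?_ (by positivity))
    exact mul_le_mul_of_nonneg_right (le_abs_self C) (by positivity)
  calc (k : ℝ) ^ e * p k / (2 : ℝ) ^ k ≤
      (k : ℝ) ^ e * (|C| * (2 : ℝ) ^ k / ((k : ℝ) ^ c * (Real.log 2) ^ c)) / (2 : ℝ) ^ k := by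
        refine div_le_div_of_nonneg_right ?_ (by positivity)
        exact mul_le_mul_of_nonneg_left h3 (by positivity)
    _ = |C| / (Real.log 2) ^ c * ((k : ℝ) ^ e / (k : ℝ) ^ c) := by
        field_simp

end Pool.Agent.Run7.h484.KG
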