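import Pool.Agent.Run7.h484.KG.Multi
import Pool.Agent.TH739.PA.Base

/-!
# Random positions: skew products with Kolmogorov fibres
-/

set_option autoImplicit false
set_option linter.unusedSectionVars false

open MeasureTheory Filter Topology
open scoped ENNReal

noncomputable section

namespace Pool.Agent.Run7.h484.KG

open Pool.Agent.TH784.KE
open Pool.Agent.TH739.PA (av avr avr_add avr_mono avr_nonneg avr_abs avr_const_le avr_mul av_add
  av_mul av_sub int_lim Good Cls_zero Cls_conv closed_slot av_norm av_ofReal int_snd)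
open Pool.Agent.Run7.h484.KB (AdmR AdmZ AdmR.bm one_le_prod_real)
open Pool.Agent.W761.Gauss (BM)

variable {ι : Type*} {Ω X : Type} [MeasurableSpace Ω] {P : Measure Ω} [IsProbabilityMeasure P]
variable {mA mY mX : MeasurableSpace X} {μ : Measure X} [IsProbabilityMeasure μ]
variable {G : Type*} [Group G]
variable {Φ : G →* Equiv.Perm X} {ℓ : G → ℝ}
variable {J : Type*} [DecidableEq J] [Fintype J]

theorem meas_avr {Z : Type*} [MeasurableSpace Z] {s : Finset ι} {f : ι → Z → ℝ}
    (hf : ∀ n, Measurable (f n)) : Measurable fun z => avr s fun n => f n z := by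
  unfold avr
  exact (Finset.measurable_fun_sum _ fun n _ => hf n).const_mul _

theorem meas_ev_lt {Z : Type*} [MeasurableSpace Z] {f : ℕ → Z → ℝ} (hf : ∀ n, Measurable (f n))
    (c : ℝ) : MeasurableSet {z | ∀ᶠ N in atTop, f N z < c} := by
  have e : {z | ∀ᶠ N in atTop, f N z < c} = ⋃ N₀ : ℕ, ⋂ N : ℕ, ⋂ _ : N₀ ≤ N, {z | f N z < c} := by
    ext z
    simp only [Set.mem_ofPred_eq, eventually_atTop, Set.mem_iUnion, Set.mem_iInter]
  rw [e]
  exact MeasurableSet.iUnion fun _ => MeasurableSet.iInter fun N => MeasurableSet.iInter fun _ =>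
    measurableSet_lt (hf N) measurable_const

theorem meas_ev_le {Z : Type*} [MeasurableSpace Z] {f : ℕ → Z → ℝ} (hf : ∀ n, Measurable (f n))
    (c : ℝ) : MeasurableSet {z | ∀ᶠ N in atTop, f N z ≤ c} := by
  have e : {z | ∀ᶠ N in atTop, f N z ≤ c} = ⋃ N₀ : ℕ, ⋂ N : ℕ, ⋂ _ : N₀ ≤ N, {z | f N z ≤ c} := by
    ext z
    simp only [Set.mem_ofPred_eq, eventually_atTop, Set.mem_iUnion, Set.mem_iInter]
  rw [e]
  exact MeasurableSet.iUnion fun _ => MeasurableSet.iInter fun N => MeasurableSet.iInter fun _ =>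
    measurableSet_le (hf N) measurable_const

/-- **Convergence to zero**, real functions of the fibre coordinate. -/
theorem zero_real_prod [Nonempty J] (hK : KExt μ mA mY Φ ℓ) {s₀ : G} (hs₀ : 0 < ℓ s₀)
    {q : ι → J → Ω → G} {g : J → ι → Ω × X → Ω × X}
    (hg : ∀ v n, MeasurePreserving (g v n) (P.prod μ) (P.prod μ))
    (hg2 : ∀ v n p, (g v n p).2 = Φ (q n v p.1) p.2)
    {B : ℕ → Finset ι} (hB : ∀ N, (B N).Nonempty)
    (hdisp : ∀ v, ∀ᵐ ω ∂P, Dispg B fun n => ℓ (q n v ω))
    (hsepa : ∀ v w, v ≠ w → ∀ᵐ ω ∂P, Sepg B (fun n => ℓ (q n v ω)) fun n => ℓ (q n w ω))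
    (hgood : ∀ v, Good atTop B (P.prod μ) (g v))
    {b : J → X → ℝ} (hb : ∀ v, AdmR μ mA mY Φ (b v))
    {W : ι → Ω × X → ℝ} (hW : ∀ n, Measurable (W n) ∧ ∀ x, |W n x| ≤ 1)
    (hWY : ∀ n ω, Measurable[mY] fun x => W n (ω, x)) :
    ∀ᵐ p ∂(P.prod μ), Tendsto (fun N => avr (B N) fun n => (∏ v, b v (g v n p).2) * W n p)
      atTop (𝓝 0) := by
  classical
  choose r₀ hr₀ using fun v => (hb v).2.1
  obtain ⟨r, hr⟩ := exists_upper hK.filt hs₀ r₀
  have hFm : ∀ v, Measurable[cm mA Φ r] (b v) := fun v =>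
    (hr₀ v).mono (cm_mono hK.filt (hr v)) le_rfl
  have hFmX : ∀ v, Measurable (b v) := fun v =>
    (hFm v).mono (cm_le hK.fl hK.filt r) le_rfl
  have hsm : ∀ ε : ℝ, 0 < ε → ∃ s : G, ℓ s ≤ ℓ r ∧ ∃ H : J → X → ℝ,
      (∀ v, CE μ (cm mA Φ s) (b v) (H v)) ∧ ∀ v, ∫ x, |H v x| ∂μ ≤ ε := by
    intro ε hε
    choose s₁ hs₁ using fun v => small_past' hK.fl hK.filt hs₀ hK.tail (hFmX v) (hb v).1
      (hb v).2.2 hε
    obtain ⟨s₂, hs₂⟩ := exists_lower hK.filt hs₀ s₁
    obtain ⟨s, hs⟩ := exists_lower (J := Bool) hK.filt hs₀ (fun b => if b then s₂ else r)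
    have hss₂ : ℓ s ≤ ℓ s₂ := hs true
    have hsr : ℓ s ≤ ℓ r := hs false
    choose H hH hHe using fun v => exists_CE (cm_le hK.fl hK.filt s) (hFmX v) (hb v).1 (μ := μ)
    refine ⟨s, hsr, H, hH, fun v => ?_⟩
    have e : ∫ x, |H v x| ∂μ = ∫ x, |(μ[b v | cm mA Φ s]) x| ∂μ := by
      apply integral_congr_ae
      filter_upwards [hHe v] with x hx
      rw [hx]
    rw [e]
    exact hs₁ v s (hss₂.trans (hs₂ v))
  have hSm : ∀ N, Measurable fun p : Ω × X => avr (B N) fun n =>
      (∏ v, b v (g v n p).2) * W n p := by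
    intro N
    refine meas_avr fun n => ?_
    refine Measurable.mul ?_ (hW n).1
    exact Finset.measurable_fun_prod _ fun v _ =>
      (hFmX v).comp (measurable_snd.comp (hg v n).measurable)
  have hbad : ∀ δ : ℝ, 0 < δ → ∀ᵐ p ∂(P.prod μ), ∀ᶠ N : ℕ in atTop,
      |avr (B N) fun n => (∏ v, b v (g v n p).2) * W n p| ≤ δ := by
    intro δ hδ
    rw [ae_iff, ← nonpos_iff_eq_zero]
    apply ENNReal.le_of_forall_pos_le_add
    intro ε hε _
    rw [zero_add]
    have hε' : (0 : ℝ) < ε := by exact_mod_cast hε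
    obtain ⟨s, hsr, H, hH, hHs⟩ := hsm (ε * (δ / 4) / (Fintype.card J + 1)) (by positivity)
    set R : ℝ := max (ℓ r - ℓ s) 1 with hRdef
    have hR : ℓ r - ℓ s ≤ R := le_max_left _ _
    have hR0 : 0 < R := lt_of_lt_of_le one_pos (le_max_right _ _)
    have hHm : ∀ v, Measurable (H v) := fun v =>
      (hH v).1.mono (cm_le hK.fl hK.filt s) le_rfl
    let Gf : J → Ω × X → ℝ := fun v p => |H v p.2|
    have hGm : ∀ v, Measurable (Gf v) := fun v => (hHm v).abs.comp measurable_snd
    have hG1 : ∀ v p, |Gf v p| ≤ 1 := fun v p => by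
      show |(|H v p.2|)| ≤ 1
      rw [abs_abs]
      exact (hH v).2.1 _
    let E : J → Ω × X → ℝ := fun v p => limUnder atTop
      (fun N => avr (B N) fun n => Gf v (g v n p))
    have hE : ∀ v, ∀ᵐ p ∂(P.prod μ), Tendsto (fun N => avr (B N) fun n => Gf v (g v n p))
        atTop (𝓝 (E v p)) := by
      intro v
      have h4 := hgood v (Gf v) (hGm v) ⟨1, hG1 v⟩
      filter_upwards [h4] with x hx
      exact tendsto_nhds_limUnder hx
    have hEint : ∀ v, 0 ≤ᵐ[P.prod μ] E v ∧ Integrable (E v) (P.prod μ) ∧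
        ∫ p, E v p ∂(P.prod μ) ≤ ∫ x, |H v x| ∂μ := by
      intro v
      have h5 := int_lim (fun n => hg v n) (hGm v) (zero_le_one (α := ℝ))
        (hG1 v) (fun x => abs_nonneg _) (hE v)
      refine ⟨h5.1, h5.2.1, h5.2.2.trans (le_of_eq ?_)⟩
      exact int_snd (μ := P) (ν := μ) fun x => |H v x|
    let T : Ω × X → ℝ := fun p => ∑ v, E v p
    have hT0 : 0 ≤ᵐ[P.prod μ] T := by
      have : ∀ᵐ p ∂(P.prod μ), ∀ v, 0 ≤ E v p := ae_all_iff.2 fun v => (hEint v).1
      filter_upwards [this] with x hx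
      exact Finset.sum_nonneg fun v _ => hx v
    have hTi : Integrable T (P.prod μ) := integrable_finsetSum _ fun v _ => (hEint v).2.1
    have hTint : ∫ p, T p ∂(P.prod μ) ≤ ε * (δ / 4) := by
      have : ∫ p, T p ∂(P.prod μ) = ∑ v, ∫ p, E v p ∂(P.prod μ) :=
        integral_finsetSum _ fun v _ => (hEint v).2.1
      rw [this]
      refine (Finset.sum_le_sum fun v _ => ((hEint v).2.2.trans (hHs v))).trans ?_
      rw [Finset.sum_const, nsmul_eq_mul, mul_div_assoc', div_le_iff₀ (by positivity),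
        Finset.card_univ]
      have : 0 ≤ ε * (δ / 4) := by positivity
      nlinarith
    have hmark := mul_meas_ge_le_integral_of_nonneg hT0 hTi (δ / 4)
    have hmark' : (P.prod μ).real {p | δ / 4 ≤ T p} ≤ ε := by
      have h5 : δ / 4 * (P.prod μ).real {p | δ / 4 ≤ T p} ≤ δ / 4 * ε := by
        refine (hmark.trans hTint).trans ?_
        rw [mul_comm]
      exact le_of_mul_le_mul_left h5 (by positivity)
    -- the good set
    let 𝒢 : Set (Ω × X) := {p | ∀ᶠ N in atTop,
      ∑ v, (avr (B N) fun n => Gf v (g v n p)) < δ / 4}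
    have h𝒢m : MeasurableSet 𝒢 := by
      refine meas_ev_lt (fun N => ?_) _
      exact Finset.measurable_fun_sum _ fun v _ => meas_avr fun n =>
        (hGm v).comp (hg v n).measurable
    have h𝒢 : (P.prod μ) 𝒢ᶜ ≤ ε := by
      have hEall : ∀ᵐ p ∂(P.prod μ), ∀ v, Tendsto (fun N => avr (B N) fun n =>
        Gf v (g v n p)) atTop (𝓝 (E v p)) := ae_all_iff.2 hE
      have h1 : ∀ᵐ p ∂(P.prod μ), p ∈ 𝒢ᶜ → p ∈ {p | δ / 4 ≤ T p} := by
        filter_upwards [hEall] with p hp hp2
        show δ / 4 ≤ T p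
        by_contra hcon
        rw [not_le] at hcon
        apply hp2
        have h6 : Tendsto (fun N => ∑ v, avr (B N) fun n => Gf v (g v n p))
            atTop (𝓝 (T p)) := tendsto_finsetSum _ fun v _ => hp v
        exact (tendsto_order.mp h6).2 _ hcon
      have h1' : (P.prod μ) 𝒢ᶜ ≤ (P.prod μ) {p | δ / 4 ≤ T p} := measure_mono_ae h1
      refine h1'.trans ?_
      have h9 : (P.prod μ) {p | δ / 4 ≤ T p} =
          ENNReal.ofReal ((P.prod μ).real {p | δ / 4 ≤ T p}) := by
        rw [measureReal_def, ENNReal.ofReal_toReal (measure_ne_top _ _)]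
      rw [h9]
      calc ENNReal.ofReal ((P.prod μ).real {p | δ / 4 ≤ T p}) ≤ ENNReal.ofReal (ε : ℝ) :=
            ENNReal.ofReal_le_ofReal hmark'
        _ = ε := ENNReal.ofReal_coe_nnreal
    let bad : Set (Ω × X) := {p | ¬ ∀ᶠ N : ℕ in atTop,
      |avr (B N) fun n => (∏ v, b v (g v n p).2) * W n p| ≤ δ}
    have hbadm : MeasurableSet bad := (meas_ev_le (fun N => (hSm N).abs) δ).compl
    have hfib : ∀ᵐ ω ∂P, μ (Prod.mk ω ⁻¹' (bad ∩ 𝒢)) = 0 := by
      have hd : ∀ᵐ ω ∂P, ∀ v, Dispg B fun n => ℓ (q n v ω) := ae_all_iff.2 hdisp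
      have hs : ∀ᵐ ω ∂P, ∀ v w, v ≠ w →
          Sepg B (fun n => ℓ (q n v ω)) fun n => ℓ (q n w ω) := by
        rw [ae_all_iff]
        intro v
        rw [ae_all_iff]
        intro w
        by_cases hvw : v = w
        · exact Eventually.of_forall fun ω h => absurd hvw h
        · filter_upwards [hsepa v w hvw] with ω hω _
          exact hω
      filter_upwards [hd, hs] with ω hdω hsω
      choose L Ex hL hsum hEx hmult using fun v => hdω v R hR0
      have hmain := bound_set (q := fun n v => q n v ω) (W := fun n x => W n (ω, x))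
        (η := δ / 4)
        hK.fl hK.filt hK.base hsr hR hR0 hFm (fun v => (hb v).1)
        (fun n => ⟨hWY n ω, fun x => (hW n).2 (ω, x)⟩) hH hB hL hsum hmult (by positivity)
      have hclose : Tendsto (fun N => ∑ v, ∑ w ∈ Finset.univ.erase v, avr (B N)
          (fun n => if |ℓ (q n v ω) - ℓ (q n w ω)| < R then (1 : ℝ) else 0))
          atTop (𝓝 0) := by
        have h5 : Tendsto (fun N => ∑ v, ∑ w ∈ Finset.univ.erase v, avr (B N)
            (fun n => if |ℓ (q n v ω) - ℓ (q n w ω)| < R then (1 : ℝ) else 0))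
            atTop (𝓝 (∑ v : J, ∑ _w ∈ Finset.univ.erase v, (0 : ℝ))) := by
          refine tendsto_finsetSum _ fun v _ => tendsto_finsetSum _ fun w hw => ?_
          exact (hsω v w (Finset.ne_of_mem_erase hw).symm R)
        rw [Finset.sum_eq_zero fun v _ => Finset.sum_const_zero] at h5
        exact h5
      have hlz : Tendsto (fun N => ∑ v, 2 * avr (B N)
          (fun n => if n ∈ Ex v then (1 : ℝ) else 0)) atTop (𝓝 0) := by
        have h5 := tendsto_finsetSum (Finset.univ : Finset J) fun v _ => (hEx v).const_mul 2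
        simp only [mul_zero] at h5
        rw [Finset.sum_const_zero] at h5
        refine h5.congr fun N => ?_
        refine Finset.sum_congr rfl fun l _ => ?_
        congr 1
      have hae : ∀ᵐ x ∂μ, x ∉ Prod.mk ω ⁻¹' (bad ∩ 𝒢) := by
        filter_upwards [hmain] with x hx1 hx3
        obtain ⟨hx3, hx4⟩ := hx3
        apply hx3
        have h7 : ∀ᶠ N in atTop, ∑ v, (avr (B N) fun n => |H v (Φ (q n v ω) x)|) < δ / 4 := by
          have h7' : ∀ᶠ N in atTop, ∑ v, (avr (B N) fun n => Gf v (g v n (ω, x))) < δ / 4 := hx4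
          filter_upwards [h7'] with N hN
          refine lt_of_le_of_lt (le_of_eq ?_) hN
          refine Finset.sum_congr rfl fun v _ => ?_
          congr 1
          funext n
          show _ = |H v (g v n (ω, x)).2|
          rw [hg2]
        have h8 := (tendsto_order.mp hclose).2 (δ / 4) (by positivity)
        have h9 := (tendsto_order.mp hlz).2 (δ / 4) (by positivity)
        filter_upwards [hx1, h7, h8, h9] with N hN1 hN2 hN3 hN4
        have e0 : (avr (B N) fun n => (∏ v, b v (g v n (ω, x)).2) * W n (ω, x)) =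
            avr (B N) fun n => (∏ v, b v (Φ (q n v ω) x)) * W n (ω, x) := by
          congr 1
          funext n
          rw [Finset.prod_congr rfl fun v _ => by rw [hg2 v n (ω, x)]]
        rw [e0]
        refine hN1.trans ?_
        have e : (avr (B N) fun n => errb Φ ℓ R H Finset.univ (fun v => q n v ω) x) =
            ∑ v, (avr (B N) fun n => |H v (Φ (q n v ω) x)|) +
            ∑ v, ∑ w ∈ Finset.univ.erase v, avr (B N)
              (fun n => if |ℓ (q n v ω) - ℓ (q n w ω)| < R then (1 : ℝ) else 0) := by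
          unfold errb avr
          rw [Finset.sum_add_distrib, mul_add, Finset.sum_comm, Finset.mul_sum]
          congr 1
          rw [Finset.sum_comm, Finset.mul_sum]
          refine Finset.sum_congr rfl fun v _ => ?_
          rw [Finset.sum_comm, Finset.mul_sum]
        rw [e]
        linarith
      have h10 := ae_iff.1 hae
      refine le_antisymm ?_ (zero_le)
      rw [← h10]
      exact measure_mono fun x hx => by
        simp only [Set.mem_ofPred_eq, not_not]
        exact hx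
    have hnull : (P.prod μ) (bad ∩ 𝒢) = 0 := by
      rw [Measure.measure_prod_null (hbadm.inter h𝒢m)]
      exact hfib
    have hsub : bad ⊆ (bad ∩ 𝒢) ∪ 𝒢ᶜ := by
      intro p hp
      by_cases h : p ∈ 𝒢
      · exact Or.inl ⟨hp, h⟩
      · exact Or.inr h
    calc (P.prod μ) bad ≤ (P.prod μ) ((bad ∩ 𝒢) ∪ 𝒢ᶜ) := measure_mono hsub
      _ ≤ (P.prod μ) (bad ∩ 𝒢) + (P.prod μ) 𝒢ᶜ := measure_union_le _ _
      _ ≤ ε := by rw [hnull, zero_add]; exact h𝒢
  have hall := ae_all_iff.mpr fun i : ℕ => hbad (1 / ((i : ℝ) + 1)) (by positivity)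
  filter_upwards [hall] with x hx
  rw [Metric.tendsto_nhds]
  intro ε hε
  obtain ⟨i, hi⟩ := exists_nat_one_div_lt hε
  filter_upwards [hx i] with N hN
  rw [Real.dist_eq, sub_zero]
  exact hN.trans_lt hi

end Pool.Agent.Run7.h484.KG
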