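import Pool.Agent.Run7.h484.KG.Skew

/-!
# Random positions: complex functions, and the characteristic factor
-/

set_option autoImplicit false
set_option linter.unusedSectionVars false

open MeasureTheory Filter Topology
open scoped ENNReal

noncomputable section

namespace Pool.Agent.Run7.h484.KG

open Pool.Agent.TH784.KE
open Pool.Agent.TH739.PA (av avr avr_add avr_mono avr_nonneg avr_abs avr_const_le avr_mul av_add
  av_mul av_sub int_lim Good Cls_zero Cls_conv closed_slot av_norm av_ofReal int_snd)
open Pool.Agent.Run7.h484.KB (AdmR AdmZ AdmR.bm one_le_prod_real)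
open Pool.Agent.W761.Gauss (BM)

variable {ι : Type*} {Ω X : Type} [MeasurableSpace Ω] {P : Measure Ω} [IsProbabilityMeasure P]
variable {mA mY mX : MeasurableSpace X} {μ : Measure X} [IsProbabilityMeasure μ]
variable {G : Type*} [Group G]
variable {Φ : G →* Equiv.Perm X} {ℓ : G → ℝ}
variable {J : Type*} [DecidableEq J] [Fintype J]

theorem Cwg_closed {Z : Type} [MeasurableSpace Z] {μ : Measure Z} [IsProbabilityMeasure μ]
    {Bs : ℕ → Finset ι} {g : J → ι → Z → Z} {W : ι → Z → ℂ} (hW : ∀ n x, ‖W n x‖ ≤ 1)
    (hg : ∀ j m, MeasurePreserving (g j m) μ μ) (hgood : ∀ j, Good atTop Bs μ (g j))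
    {F : J → Z → ℂ} (hF : ∀ l, BM (F l)) {j : J} {f : Z → ℂ} (hf : BM f)
    (h : ∀ ε : ℝ, 0 < ε → ∃ f' : Z → ℂ, BM f' ∧ ∫ x, ‖f x - f' x‖ ∂μ ≤ ε ∧
      Cwg μ Bs g W (Function.update F j f')) : Cwg μ Bs g W (Function.update F j f) :=
  slot_closed (Cls_zero atTop) hW hg hgood hF hf h

theorem upd_snd (F : J → X → ℂ) (v : J) (f : X → ℂ) :
    (fun w (p : Ω × X) => (Function.update F v f) w p.2) =
      Function.update (fun w (p : Ω × X) => F w p.2) v fun p => f p.2 := by
  funext w
  by_cases h : w = v
  · subst h
    rw [Function.update_self, Function.update_self]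
  · rw [Function.update_of_ne h, Function.update_of_ne h]

/-- Convergence to zero, complex functions of the fibre coordinate. -/
theorem zero_complex_prod [Nonempty J] (hK : KExt μ mA mY Φ ℓ) {s₀ : G} (hs₀ : 0 < ℓ s₀)
    {q : ι → J → Ω → G} {g : J → ι → Ω × X → Ω × X}
    (hg : ∀ v n, MeasurePreserving (g v n) (P.prod μ) (P.prod μ))
    (hg2 : ∀ v n p, (g v n p).2 = Φ (q n v p.1) p.2)
    {Bs : ℕ → Finset ι} (hBs : ∀ N, (Bs N).Nonempty)
    (hdisp : ∀ v, ∀ᵐ ω ∂P, Dispg Bs fun n => ℓ (q n v ω))
    (hsepa : ∀ v w, v ≠ w → ∀ᵐ ω ∂P, Sepg Bs (fun n => ℓ (q n v ω)) fun n => ℓ (q n w ω))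
    (hgood : ∀ v, Good atTop Bs (P.prod μ) (g v))
    {W : ι → Ω × X → ℂ} (hW : ∀ n, Measurable (W n) ∧ ∀ x, ‖W n x‖ ≤ 1)
    (hWY : ∀ n ω, Measurable[mY] fun x => W n (ω, x))
    {F : J → X → ℂ} (hF : ∀ v, AdmZ μ mY (F v)) :
    Cwg (P.prod μ) Bs g W fun v p => F v p.2 := by
  classical
  have key : ∀ (B : Finset J) (F : J → X → ℂ), (∀ v ∈ B, AdmZ μ mY (F v)) →
      (∀ v ∉ B, ∃ f : X → ℝ, AdmR μ mA mY Φ f ∧ F v = fun x => (f x : ℂ)) →
      Cwg (P.prod μ) Bs g W fun v p => F v p.2 := by
    intro B
    induction B using Finset.induction_on with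
    | empty =>
      intro F _ hF2
      choose f hf hFf using fun v => hF2 v (Finset.notMem_empty v)
      have hWre : ∀ n, Measurable (fun x => (W n x).re) ∧ ∀ x, |(W n x).re| ≤ 1 := fun n =>
        ⟨Complex.measurable_re.comp (hW n).1, fun x =>
          (Complex.abs_re_le_norm _).trans ((hW n).2 x)⟩
      have hWim : ∀ n, Measurable (fun x => (W n x).im) ∧ ∀ x, |(W n x).im| ≤ 1 := fun n =>
        ⟨Complex.measurable_im.comp (hW n).1, fun x =>
          (Complex.abs_im_le_norm _).trans ((hW n).2 x)⟩
      have h4 := zero_real_prod hK hs₀ hg hg2 hBs hdisp hsepa hgood hf hWre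
        fun n ω => Complex.measurable_re.comp (hWY n ω)
      have h4' := zero_real_prod hK hs₀ hg hg2 hBs hdisp hsepa hgood hf hWim
        fun n ω => Complex.measurable_im.comp (hWY n ω)
      filter_upwards [h4, h4'] with x hx hx'
      have h5 := (Complex.continuous_ofReal.tendsto _).comp hx
      have h6 := (Complex.continuous_ofReal.tendsto _).comp hx'
      rw [Complex.ofReal_zero] at h5 h6
      have h7 := h5.add (h6.const_mul Complex.I)
      rw [mul_zero, add_zero] at h7
      refine h7.congr fun N => ?_
      rw [Function.comp_apply, Function.comp_apply, ← av_ofReal, ← av_ofReal, ← av_mul, ← av_add]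
      congr 1
      funext n
      have e1 : ∏ j, F j (g j n x).2 = ((∏ v, f v (g v n x).2 : ℝ) : ℂ) := by
        push_cast
        refine Finset.prod_congr rfl fun v _ => ?_
        rw [hFf v]
      rw [e1]
      conv_rhs => rw [← Complex.re_add_im (W n x)]
      push_cast
      ring
    | insert v B hv ih =>
      intro F hF1 hF2
      have hBMall : ∀ w, BM (F w) := by
        intro w
        by_cases hw : w ∈ insert v B
        · exact (hF1 w hw).1
        · obtain ⟨f, hf, e⟩ := hF2 w hw
          rw [e]
          exact hf.bm hK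
      have hcast : ∀ f : X → ℝ, AdmR μ mA mY Φ f →
          Cwg (P.prod μ) Bs g W
            (Function.update (fun v (p : Ω × X) => F v p.2) v fun p => (f p.2 : ℂ)) := by
        intro f hf
        have h0 := upd_snd (Ω := Ω) F v fun x => (f x : ℂ)
        rw [← h0]
        apply ih
        · intro w hw
          have hwv : w ≠ v := fun e => hv (e ▸ hw)
          rw [Function.update_of_ne hwv]
          exact hF1 w (Finset.mem_insert_of_mem hw)
        · intro w hw
          by_cases hwv : w = v
          · subst hwv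
            exact ⟨f, hf, by rw [Function.update_self]⟩
          · rw [Function.update_of_ne hwv]
            apply hF2
            intro hmem
            rcases Finset.mem_insert.mp hmem with h5 | h5
            · exact hwv h5
            · exact hw h5
      have hcomb : ∀ (C : ℝ) (f₁ f₂ : X → ℝ), AdmR μ mA mY Φ f₁ → AdmR μ mA mY Φ f₂ →
          Cwg (P.prod μ) Bs g W
            (Function.update (fun v (p : Ω × X) => F v p.2) v
              (((C : ℂ) • fun p : Ω × X => (f₁ p.2 : ℂ)) +
                ((C : ℂ) * Complex.I) • fun p : Ω × X => (f₂ p.2 : ℂ))) := by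
        intro C f₁ f₂ hf₁ hf₂
        exact Cwg_add (Cwg_smul _ (hcast f₁ hf₁)) (Cwg_smul _ (hcast f₂ hf₂))
      obtain ⟨hBM, hSv⟩ := hF1 v (Finset.mem_insert_self v B)
      obtain ⟨hFm, C₀, hC₀⟩ := hBM
      set C : ℝ := |C₀| + 1 with hC
      have hCpos : 0 < C := by positivity
      have hCb : ∀ x, ‖F v x‖ ≤ C := fun x =>
        ((hC₀ x).trans (le_abs_self _)).trans (by rw [hC]; linarith)
      set f₁ : X → ℝ := fun x => (F v x).re / C with hf₁
      set f₂ : X → ℝ := fun x => (F v x).im / C with hf₂
      have hb₁ : ∀ x, |f₁ x| ≤ 1 := by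
        intro x
        rw [hf₁]
        show |(F v x).re / C| ≤ 1
        rw [abs_div, abs_of_pos hCpos, div_le_one hCpos]
        exact (Complex.abs_re_le_norm _).trans (hCb x)
      have hb₂ : ∀ x, |f₂ x| ≤ 1 := by
        intro x
        rw [hf₂]
        show |(F v x).im / C| ≤ 1
        rw [abs_div, abs_of_pos hCpos, div_le_one hCpos]
        exact (Complex.abs_im_le_norm _).trans (hCb x)
      have hm₁ : Measurable f₁ := (Complex.measurable_re.comp hFm).div_const _
      have hm₂ : Measurable f₂ := (Complex.measurable_im.comp hFm).div_const _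
      have hdec : ∀ x, F v x = (C : ℂ) * (f₁ x : ℂ) + (C : ℂ) * Complex.I * (f₂ x : ℂ) := by
        intro x
        have hC' : (C : ℂ) ≠ 0 := by exact_mod_cast hCpos.ne'
        rw [hf₁, hf₂]
        push_cast
        field_simp
        exact (Complex.re_add_im (F v x)).symm.trans (by ring)
      have hgoal : Cwg (P.prod μ) Bs g W
          (Function.update (fun v (p : Ω × X) => F v p.2) v fun p => F v p.2) := by
        have hFi : Integrable (F v) μ := Integrable.of_bound hFm.aestronglyMeasurable C
          (Eventually.of_forall hCb)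
        have hV₁ : Van μ mY f₁ := by
          intro B hB
          have h4 := hSv B hB
          have h5 : ∫ x in B, f₁ x ∂μ = (∫ x in B, F v x ∂μ).re / C := by
            rw [hf₁, integral_div]
            congr 1
            exact integral_re hFi.integrableOn
          rw [h5, h4]
          simp
        have hV₂ : Van μ mY f₂ := by
          intro B hB
          have h4 := hSv B hB
          have h5 : ∫ x in B, f₂ x ∂μ = (∫ x in B, F v x ∂μ).im / C := by
            rw [hf₂, integral_div]
            congr 1
            exact integral_im hFi.integrableOn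
          rw [h5, h4]
          simp
        have hWp : ∀ (n : ι) (p : Ω × X), ‖W n p‖ ≤ 1 := fun n p => (hW n).2 p
        have hFp : ∀ w, BM fun p : Ω × X => F w p.2 := fun w =>
          ⟨(hBMall w).1.comp measurable_snd, (hBMall w).2.imp fun D hD p => hD p.2⟩
        have hcl := Cwg_closed (μ := P.prod μ) (Bs := Bs) (g := g)
          (W := W) (F := fun v (p : Ω × X) => F v p.2) (j := v)
          (f := fun p => F v p.2) hWp hg hgood hFp (hFp v)
        apply hcl
        intro ε hε
        have happ : ∀ f : X → ℝ, Measurable f → (∀ x, |f x| ≤ 1) → Van μ mY f →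
            ∃ g' : X → ℝ, AdmR μ mA mY Φ g' ∧ ∫ x, |f x - g' x| ∂μ ≤ ε / (2 * C) := by
          intro f hfm hfb hfV
          obtain ⟨r, hr⟩ := dense_future hK.fl hK.filt hs₀ hK.gen hfm hfb
            (show (0 : ℝ) < ε / (2 * C) by positivity)
          obtain ⟨g', hg', hge⟩ := exists_CE (cm_le hK.fl hK.filt r) hfm hfb (μ := μ)
          refine ⟨g', ⟨hg'.2.1, ⟨r, hg'.1⟩, van_CE (cm_le hK.fl hK.filt r)
            (base_le hK.base r) hfm hfb hg' hfV⟩, ?_⟩
          refine le_trans (le_of_eq ?_) hr
          apply integral_congr_ae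
          filter_upwards [hge] with x hx
          rw [hx]
        obtain ⟨g₁, hg₁, hg₁'⟩ := happ f₁ hm₁ hb₁ hV₁
        obtain ⟨g₂, hg₂, hg₂'⟩ := happ f₂ hm₂ hb₂ hV₂
        obtain ⟨hg₁m, -⟩ := hg₁.bm hK
        obtain ⟨hg₂m, -⟩ := hg₂.bm hK
        have hg₁r : Measurable g₁ := by
          have := Complex.measurable_re.comp hg₁m
          exact this
        have hg₂r : Measurable g₂ := by
          have := Complex.measurable_re.comp hg₂m
          exact this
        refine ⟨((C : ℂ) • fun p : Ω × X => (g₁ p.2 : ℂ)) +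
            ((C : ℂ) * Complex.I) • fun p : Ω × X => (g₂ p.2 : ℂ),
          ⟨((hg₁m.comp measurable_snd).const_smul _).add
            ((hg₂m.comp measurable_snd).const_smul _), 2 * C, fun x => ?_⟩, ?_,
          hcomb C g₁ g₂ hg₁ hg₂⟩
        · simp only [Pi.add_apply, Pi.smul_apply, smul_eq_mul]
          refine (norm_add_le _ _).trans ?_
          rw [norm_mul, norm_mul, norm_mul, Complex.norm_I, Complex.norm_real,
            Complex.norm_real, Complex.norm_real, Real.norm_of_nonneg hCpos.le,
            Real.norm_eq_abs, Real.norm_eq_abs]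
          have a1 := hg₁.1 x.2
          have a2 := hg₂.1 x.2
          nlinarith [abs_nonneg (g₁ x.2), abs_nonneg (g₂ x.2)]
        · have hi₁ : Integrable (fun x => |f₁ x - g₁ x|) μ := by
            refine Integrable.of_bound (hm₁.sub hg₁r).abs.aestronglyMeasurable 2
              (Eventually.of_forall fun x => ?_)
            rw [Real.norm_eq_abs, abs_abs]
            exact (abs_sub _ _).trans (by linarith [hb₁ x, hg₁.1 x])
          have hi₂ : Integrable (fun x => |f₂ x - g₂ x|) μ := by
            refine Integrable.of_bound (hm₂.sub hg₂r).abs.aestronglyMeasurable 2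
              (Eventually.of_forall fun x => ?_)
            rw [Real.norm_eq_abs, abs_abs]
            exact (abs_sub _ _).trans (by linarith [hb₂ x, hg₂.1 x])
          have hle : ∀ x, ‖F v x - (((C : ℂ) • fun x => (g₁ x : ℂ)) +
              ((C : ℂ) * Complex.I) • fun x => (g₂ x : ℂ)) x‖ ≤
              C * |f₁ x - g₁ x| + C * |f₂ x - g₂ x| := by
            intro x
            simp only [Pi.add_apply, Pi.smul_apply, smul_eq_mul]
            rw [hdec x]
            have e : (C : ℂ) * (f₁ x : ℂ) + (C : ℂ) * Complex.I * (f₂ x : ℂ) -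
                ((C : ℂ) * (g₁ x : ℂ) + (C : ℂ) * Complex.I * (g₂ x : ℂ)) =
                (C : ℂ) * ((f₁ x - g₁ x : ℝ) : ℂ) +
                  (C : ℂ) * Complex.I * ((f₂ x - g₂ x : ℝ) : ℂ) := by
              push_cast
              ring
            rw [e]
            refine (norm_add_le _ _).trans ?_
            rw [norm_mul, norm_mul, norm_mul, Complex.norm_I, Complex.norm_real,
              Complex.norm_real, Complex.norm_real, Real.norm_of_nonneg hCpos.le,
              Real.norm_eq_abs, Real.norm_eq_abs, mul_one]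
          have hsnd := int_snd (μ := P) (ν := μ) fun x => ‖F v x - (((C : ℂ) • fun x =>
            (g₁ x : ℂ)) + ((C : ℂ) * Complex.I) • fun x => (g₂ x : ℂ)) x‖
          refine le_trans (le_of_eq hsnd) ?_
          refine (integral_mono_of_nonneg (Eventually.of_forall fun x => norm_nonneg _)
            ((hi₁.const_mul C).add (hi₂.const_mul C)) (Eventually.of_forall hle)).trans ?_
          rw [integral_add' (hi₁.const_mul C) (hi₂.const_mul C), integral_const_mul,
            integral_const_mul]
          calc C * ∫ x, |f₁ x - g₁ x| ∂μ + C * ∫ x, |f₂ x - g₂ x| ∂μ ≤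
              C * (ε / (2 * C)) + C * (ε / (2 * C)) :=
                add_le_add (mul_le_mul_of_nonneg_left hg₁' hCpos.le)
                  (mul_le_mul_of_nonneg_left hg₂' hCpos.le)
            _ = ε := by field_simp; norm_num
      rw [← upd_snd, Function.update_eq_self] at hgoal
      exact hgoal
  exact key Finset.univ F (fun v _ => hF v) fun v hv => absurd (Finset.mem_univ v) hv


end Pool.Agent.Run7.h484.KG
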