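import Pool.Agent.Run7.h484.KG.SkewZ

/-!
# Random positions: the base and the factor are characteristic
-/

set_option autoImplicit false
set_option linter.unusedSectionVars false

open MeasureTheory Filter Topology
open scoped ENNReal

noncomputable section

namespace Pool.Agent.Run7.h484.KG

open Pool.Agent.TH784.KE
open Pool.Agent.TH739.PA (av avr avr_add avr_mono avr_nonneg avr_abs avr_const_le avr_mul av_add
  av_mul av_sub int_lim Good Cls_zero Cls_conv closed_slot av_norm av_ofReal int_snd)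
open Pool.Agent.Run7.h484.KB (AdmR AdmZ AdmR.bm one_le_prod_real)
open Pool.Agent.W761.Gauss (BM)

theorem contr {Z : Type} {m mZ : MeasurableSpace Z} (hm : m ≤ mZ) {ρ : Measure Z}
    [IsProbabilityMeasure ρ] {u e : Z → ℝ} (hu : Integrable u ρ) (he : Integrable e ρ)
    (hem : Measurable[m] e)
    (h : ∀ C : Set Z, MeasurableSet[m] C → ∫ z in C, u z ∂ρ = ∫ z in C, e z ∂ρ) :
    ∫ z, |e z| ∂ρ ≤ ∫ z, |u z| ∂ρ := by
  have hS : MeasurableSet[m] {z | 0 ≤ e z} := hem measurableSet_Ici
  have hS' : MeasurableSet {z | 0 ≤ e z} := hm _ hS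
  have h1 : ∫ z, |e z| ∂ρ = ∫ z in {z | 0 ≤ e z}, |e z| ∂ρ + ∫ z in {z | 0 ≤ e z}ᶜ, |e z| ∂ρ :=
    (integral_add_compl hS' he.abs).symm
  have h2 : ∫ z, |u z| ∂ρ = ∫ z in {z | 0 ≤ e z}, |u z| ∂ρ + ∫ z in {z | 0 ≤ e z}ᶜ, |u z| ∂ρ :=
    (integral_add_compl hS' hu.abs).symm
  have h3 : ∫ z in {z | 0 ≤ e z}, |e z| ∂ρ = ∫ z in {z | 0 ≤ e z}, u z ∂ρ := by
    rw [h _ hS]
    exact setIntegral_congr_fun hS' fun z hz => abs_of_nonneg hz
  have h4 : ∫ z in {z | 0 ≤ e z}ᶜ, |e z| ∂ρ = -∫ z in {z | 0 ≤ e z}ᶜ, u z ∂ρ := by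
    rw [h _ (MeasurableSet.compl hS), ← integral_neg]
    refine setIntegral_congr_fun hS'.compl fun z hz => ?_
    have hz' : ¬ 0 ≤ e z := hz
    exact abs_of_neg (not_le.1 hz')
  have h5 : ∫ z in {z | 0 ≤ e z}, u z ∂ρ ≤ ∫ z in {z | 0 ≤ e z}, |u z| ∂ρ :=
    integral_mono hu.integrableOn hu.abs.integrableOn fun z => le_abs_self _
  have h6 : -∫ z in {z | 0 ≤ e z}ᶜ, u z ∂ρ ≤ ∫ z in {z | 0 ≤ e z}ᶜ, |u z| ∂ρ := by
    rw [← integral_neg]
    exact integral_mono hu.neg.integrableOn hu.abs.integrableOn fun z => neg_le_abs _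
  rw [h1, h2, h3, h4]
  exact add_le_add h5 h6

variable {ι : Type*} {Ω X : Type} [mΩ : MeasurableSpace Ω] {P : Measure Ω} [IsProbabilityMeasure P]
variable {mA mY mX : MeasurableSpace X} {μ : Measure X} [IsProbabilityMeasure μ]
variable {G : Type*} [Group G]
variable {Φ : G →* Equiv.Perm X} {ℓ : G → ℝ}
variable {J : Type*} [DecidableEq J] [Fintype J]

/-- approximation of the functions with zero expectation -/
theorem dens_Z (hle : mY ≤ mX) {F : Ω × X → ℂ} (hF : AdmZ (P.prod μ) (mΩ.prod mY) F)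
    {ε : ℝ} (hε : 0 < ε) : ∃ G : Ω × X → ℂ, Sp mY μ G ∧ ∫ p, ‖F p - G p‖ ∂(P.prod μ) ≤ ε := by
  obtain ⟨e, G, hG, he, heY, hi⟩ := dens (P := P) (μ := μ) hle hF.1 (ε / 3) (by positivity)
  have hGa := hG.adm (P := P) hle
  refine ⟨G, hG, ?_⟩
  let u : Ω × X → ℂ := fun p => F p - (e p + G p)
  have iF := bm_int (ρ := P.prod μ) hF.1
  have ie := bm_int (ρ := P.prod μ) he
  have iG := bm_int (ρ := P.prod μ) hGa.1
  have iu : Integrable u (P.prod μ) := iF.sub (ie.add iG)
  have hset : ∀ C : Set (Ω × X), MeasurableSet[mΩ.prod mY] C →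
      ∫ p in C, u p ∂(P.prod μ) = ∫ p in C, -e p ∂(P.prod μ) := by
    intro C hC
    have h1 : ∫ p in C, u p ∂(P.prod μ) = ∫ p in C, F p ∂(P.prod μ) -
        (∫ p in C, e p ∂(P.prod μ) + ∫ p in C, G p ∂(P.prod μ)) := by
      rw [← integral_add ie.integrableOn iG.integrableOn]
      exact integral_sub iF.integrableOn (ie.add iG).integrableOn
    rw [h1, hF.2 C hC, hGa.2 C hC, integral_neg]
    ring
  have hre : ∫ p, |(-e p).re| ∂(P.prod μ) ≤ ∫ p, |(u p).re| ∂(P.prod μ) := by
    refine contr (prod_le' hle) iu.re ie.neg.re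
      (Complex.measurable_re.comp heY.neg) fun C hC => ?_
    have h1 := congrArg Complex.re (hset C hC)
    have h2 : ∫ p in C, (u p).re ∂(P.prod μ) = (∫ p in C, u p ∂(P.prod μ)).re :=
      integral_re iu.integrableOn
    have h3 : ∫ p in C, (-e p).re ∂(P.prod μ) = (∫ p in C, -e p ∂(P.prod μ)).re :=
      integral_re ie.neg.integrableOn
    exact h2.trans (h1.trans h3.symm)
  have him : ∫ p, |(-e p).im| ∂(P.prod μ) ≤ ∫ p, |(u p).im| ∂(P.prod μ) := by
    refine contr (prod_le' hle) iu.im ie.neg.im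
      (Complex.measurable_im.comp heY.neg) fun C hC => ?_
    have h1 := congrArg Complex.im (hset C hC)
    have h2 : ∫ p in C, (u p).im ∂(P.prod μ) = (∫ p in C, u p ∂(P.prod μ)).im :=
      integral_im iu.integrableOn
    have h3 : ∫ p in C, (-e p).im ∂(P.prod μ) = (∫ p in C, -e p ∂(P.prod μ)).im :=
      integral_im ie.neg.integrableOn
    exact h2.trans (h1.trans h3.symm)
  have hur : ∫ p, |(u p).re| ∂(P.prod μ) ≤ ∫ p, ‖u p‖ ∂(P.prod μ) :=
    integral_mono iu.re.abs iu.norm fun p => Complex.abs_re_le_norm _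
  have hui : ∫ p, |(u p).im| ∂(P.prod μ) ≤ ∫ p, ‖u p‖ ∂(P.prod μ) :=
    integral_mono iu.im.abs iu.norm fun p => Complex.abs_im_le_norm _
  have hu : ∫ p, ‖u p‖ ∂(P.prod μ) ≤ ε / 3 := hi
  have i1 : Integrable (fun p => |(-e p).re|) (P.prod μ) := ie.neg.re.abs
  have i2 : Integrable (fun p => |(-e p).im|) (P.prod μ) := ie.neg.im.abs
  have i3 : Integrable (fun p => ‖u p‖ + |(-e p).re|) (P.prod μ) := iu.norm.add i1
  calc ∫ p, ‖F p - G p‖ ∂(P.prod μ) ≤
      ∫ p, (‖u p‖ + |(-e p).re| + |(-e p).im|) ∂(P.prod μ) := by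
        refine integral_mono_of_nonneg (Eventually.of_forall fun p => norm_nonneg _)
          (i3.add i2) (Eventually.of_forall fun p => ?_)
        have h1 : F p - G p = u p - (-e p) := by
          show F p - G p = (F p - (e p + G p)) - (-e p)
          ring
        show ‖F p - G p‖ ≤ ‖u p‖ + |(-e p).re| + |(-e p).im|
        rw [h1, add_assoc]
        exact (norm_sub_le _ _).trans (add_le_add le_rfl (Complex.norm_le_abs_re_add_abs_im _))
    _ = ∫ p, ‖u p‖ ∂(P.prod μ) + ∫ p, |(-e p).re| ∂(P.prod μ) +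
        ∫ p, |(-e p).im| ∂(P.prod μ) := by
        rw [integral_add i3 i2, integral_add iu.norm i1]
    _ ≤ ε := by linarith

/-- **Convergence to zero**, functions of both coordinates. -/
theorem zero_Z [Nonempty J] (hK : KExt μ mA mY Φ ℓ) {s₀ : G} (hs₀ : 0 < ℓ s₀)
    {q : ι → J → Ω → G} {a : J → ι → Ω → Ω} {g : J → ι → Ω × X → Ω × X}
    (ha : ∀ j n, Measurable (a j n))
    (hg : ∀ v n, MeasurePreserving (g v n) (P.prod μ) (P.prod μ))
    (hg1 : ∀ v n p, (g v n p).1 = a v n p.1)
    (hg2 : ∀ v n p, (g v n p).2 = Φ (q n v p.1) p.2)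
    {Bs : ℕ → Finset ι} (hBs : ∀ N, (Bs N).Nonempty)
    (hdisp : ∀ v, ∀ᵐ ω ∂P, Dispg Bs fun n => ℓ (q n v ω))
    (hsepa : ∀ v w, v ≠ w → ∀ᵐ ω ∂P, Sepg Bs (fun n => ℓ (q n v ω)) fun n => ℓ (q n w ω))
    (hgood : ∀ v, Good atTop Bs (P.prod μ) (g v))
    {W : ι → Ω × X → ℂ} (hW : ∀ n, Measurable (W n) ∧ ∀ x, ‖W n x‖ ≤ 1)
    (hWY : ∀ n ω, Measurable[mY] fun x => W n (ω, x))
    {F : J → Ω × X → ℂ} (hF : ∀ v, AdmZ (P.prod μ) (mΩ.prod mY) (F v)) :
    Cwg (P.prod μ) Bs g W F := by
  classical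
  have hle : mY ≤ mX := hK.base.le.trans hK.filt.le
  have key : ∀ (B : Finset J) (F : J → Ω × X → ℂ),
      (∀ v ∈ B, AdmZ (P.prod μ) (mΩ.prod mY) (F v)) →
      (∀ v ∉ B, ∃ (D : Set Ω) (b : X → ℂ), MeasurableSet D ∧ AdmZ μ mY b ∧
        F v = fun p => D.indicator (fun _ => (1 : ℂ)) p.1 * b p.2) →
      Cwg (P.prod μ) Bs g W F := by
    intro B
    induction B using Finset.induction_on with
    | empty =>
      intro F _ hF2
      choose D b hD hb hFe using fun v => hF2 v (Finset.notMem_empty v)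
      have hi : ∀ (v : J) (ω : Ω), ‖(D v).indicator (fun _ => (1 : ℂ)) ω‖ ≤ 1 := fun v ω => by
        refine (norm_indicator_le_norm_self _ _).trans ?_
        simp
      have h1 := zero_complex_prod (q := q) (g := g)
        (W := fun n p => (∏ v, (D v).indicator (fun _ => (1 : ℂ)) (a v n p.1)) * W n p)
        hK hs₀ hg hg2 hBs hdisp hsepa hgood (fun n => by
          refine ⟨Measurable.mul (Finset.measurable_fun_prod _ fun j _ =>
            ((measurable_const.indicator (hD j)).comp (ha j n)).comp measurable_fst) (hW n).1,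
            fun p => ?_⟩
          rw [norm_mul, norm_prod]
          exact mul_le_one₀ (Finset.prod_le_one (fun j _ => norm_nonneg _) fun j _ => hi _ _)
            (norm_nonneg _) ((hW n).2 p))
        (fun n ω => (hWY n ω).const_mul
          (∏ v, (D v).indicator (fun _ => (1 : ℂ)) (a v n ω))) hb
      filter_upwards [h1] with p hp
      refine hp.congr fun N => ?_
      congr 1
      funext n
      have e1 : ∏ j, F j (g j n p) = (∏ j, (D j).indicator (fun _ => (1 : ℂ)) (a j n p.1)) *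
          ∏ j, b j (g j n p).2 := by
        rw [← Finset.prod_mul_distrib]
        refine Finset.prod_congr rfl fun j _ => ?_
        rw [hFe j]
        show (D j).indicator (fun _ => (1 : ℂ)) (g j n p).1 * b j (g j n p).2 = _
        rw [hg1]
      rw [e1]
      ring
    | insert v B hv ih =>
      intro F hF1 hF2
      have hSp : ∀ H : Ω × X → ℂ, Sp mY μ H → Cwg (P.prod μ) Bs g W (Function.update F v H) := by
        intro H hH
        induction hH with
        | base D b hD hb =>
          apply ih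
          · intro w hw
            have hwv : w ≠ v := fun e => hv (e ▸ hw)
            rw [Function.update_of_ne hwv]
            exact hF1 w (Finset.mem_insert_of_mem hw)
          · intro w hw
            by_cases hwv : w = v
            · subst hwv
              exact ⟨D, b, hD, hb, by rw [Function.update_self]⟩
            · rw [Function.update_of_ne hwv]
              apply hF2
              intro hmem
              rcases Finset.mem_insert.mp hmem with h5 | h5
              · exact hwv h5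
              · exact hw h5
        | add H H' _ _ ih1 ih2 => exact Cwg_add ih1 ih2
        | smul c H _ ih1 => exact Cwg_smul c ih1
      have hBMall : ∀ w, BM (F w) := by
        intro w
        by_cases hw : w ∈ insert v B
        · exact (hF1 w hw).1
        · obtain ⟨D, b, hD, hb, e⟩ := hF2 w hw
          rw [e]
          exact rect_BM hD hb.1
      have hcl := Cwg_closed (μ := P.prod μ) (Bs := Bs) (g := g) (W := W) (F := F) (j := v)
        (f := F v) (fun n => (hW n).2) hg hgood hBMall (hBMall v) (fun ε hε => by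
          obtain ⟨H, hH, hi⟩ := dens_Z hle (hF1 v (Finset.mem_insert_self v B)) hε
          exact ⟨H, (hH.adm (P := P) hle).1, hi, hSp H hH⟩)
      rwa [Function.update_eq_self] at hcl
  exact key Finset.univ F (fun v _ => hF v) fun v hv => absurd (Finset.mem_univ v) hv

end Pool.Agent.Run7.h484.KG
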