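import Pool.Agent.Run7.h484.KG.Rate

/-!
# Rates for the return probabilities give dispersion and separation
-/

set_option autoImplicit false
set_option linter.unusedSectionVars false

open MeasureTheory Filter Topology
open scoped ENNReal

noncomputable section

namespace Pool.Agent.Run7.h484.KG

variable {Ω : Type} [MeasurableSpace Ω] {P : Measure Ω} [IsProbabilityMeasure P]

/-- the return sets -/
def rs (σ : Ω → Ω) (φ : Ω → ℝ) (R : ℝ) (h : ℕ) : Set Ω := {ω | |birkhoffSum σ φ h ω| < R}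

/-- rate of return -/
def Rated (P : Measure Ω) (σ : Ω → Ω) (φ : Ω → ℝ) : Prop :=
  ∀ R : ℝ, ∃ c C : ℝ, 3 < c ∧ ∀ N : ℕ, 2 ≤ N →
    ∑ h ∈ Finset.range N, P.real (rs σ φ R h) ≤ C * N / (Real.log N) ^ c

theorem meas_bs {σ : Ω → Ω} (hσ : Measurable σ) {φ : Ω → ℝ} (hφ : Measurable φ) (n : ℕ) :
    Measurable (birkhoffSum σ φ n) :=
  Finset.measurable_fun_sum _ fun i _ => hφ.comp (hσ.iterate i)

theorem meas_rs {σ : Ω → Ω} (hσ : Measurable σ) {φ : Ω → ℝ} (hφ : Measurable φ) (R : ℝ) (h : ℕ) :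
    MeasurableSet (rs σ φ R h) :=
  measurableSet_lt (meas_bs hσ hφ h).abs measurable_const

theorem int_ind {σ : Ω → Ω} (hσ : MeasurePreserving σ P P) {A : Set Ω} (hA : MeasurableSet A)
    (n : ℕ) : Integrable (fun ω => A.indicator (fun _ => (1 : ℝ)) (σ^[n] ω)) P ∧
      ∫ ω, A.indicator (fun _ => (1 : ℝ)) (σ^[n] ω) ∂P = P.real A := by
  have hm : Measurable (A.indicator fun _ : Ω => (1 : ℝ)) := measurable_const.indicator hA
  have hn := hσ.iterate n
  refine ⟨Integrable.of_bound (hm.comp hn.measurable).aestronglyMeasurable 1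
    (Eventually.of_forall fun ω => ?_), ?_⟩
  · refine (norm_indicator_le_norm_self _ _).trans ?_
    simp
  · have h3 := integral_map (μ := P) (φ := σ^[n]) (f := A.indicator fun _ : Ω => (1 : ℝ))
      hn.measurable.aemeasurable hm.aestronglyMeasurable
    rw [hn.map_eq] at h3
    rw [← h3, integral_indicator_const _ hA]
    simp

theorem spread_disp {σ : Ω → Ω} (hσ : MeasurePreserving σ P P) {φ : Ω → ℝ} (hφ : Measurable φ)
    (h : Rated P σ φ) : ∀ᵐ ω ∂P, Dispn fun n => birkhoffSum σ φ n ω := by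
  classical
  have key : ∀ r : ℕ, ∀ᵐ ω ∂P, ∃ L : ℕ → ℕ,
      Tendsto (fun N : ℕ => (L N : ℝ) * Real.log N / N) atTop (𝓝 0) ∧
      ∀ (N : ℕ) (s : ℝ) (T : Finset ℕ), (∀ n ∈ T, 1 ≤ n ∧ n ≤ N ∧
        s ≤ birkhoffSum σ φ n ω ∧ birkhoffSum σ φ n ω < s + r) → T.card ≤ L N := by
    intro r
    obtain ⟨c, C, hc, hC⟩ := h r
    let A : ℕ → Set Ω := rs σ φ r
    have hA : ∀ h, MeasurableSet (A h) := fun h => meas_rs hσ.measurable hφ _ _
    let W : ℕ → Ω → ℝ := fun N ω => ∑ n ∈ Finset.Icc 1 N, ∑ h ∈ Finset.range N,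
      (A h).indicator (fun _ => (1 : ℝ)) (σ^[n] ω)
    have hind : ∀ (h : ℕ) (ω : Ω), 0 ≤ (A h).indicator (fun _ => (1 : ℝ)) ω := fun h ω =>
      Set.indicator_nonneg (fun _ _ => zero_le_one) _
    have hW0 : ∀ N ω, 0 ≤ W N ω := fun N ω => Finset.sum_nonneg fun n _ =>
      Finset.sum_nonneg fun h _ => hind _ _
    have hWmono : ∀ ω, Monotone fun N => W N ω := by
      intro ω N M hNM
      show W N ω ≤ W M ω
      calc W N ω ≤ ∑ n ∈ Finset.Icc 1 N, ∑ h ∈ Finset.range M,
            (A h).indicator (fun _ => (1 : ℝ)) (σ^[n] ω) :=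
          Finset.sum_le_sum fun n _ => Finset.sum_le_sum_of_subset_of_nonneg
            (Finset.range_mono hNM) fun h _ _ => hind _ _
        _ ≤ W M ω := Finset.sum_le_sum_of_subset_of_nonneg
            (Finset.Icc_subset_Icc le_rfl hNM) fun n _ _ =>
              Finset.sum_nonneg fun h _ => hind _ _
    have hWi : ∀ N, Integrable (W N) P ∧
        ∫ ω, W N ω ∂P = N * ∑ h ∈ Finset.range N, P.real (A h) := by
      intro N
      have h1 : ∀ n ∈ Finset.Icc 1 N, Integrable (fun ω => ∑ h ∈ Finset.range N,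
          (A h).indicator (fun _ => (1 : ℝ)) (σ^[n] ω)) P := fun n _ =>
        integrable_finsetSum _ fun h _ => (int_ind hσ (hA h) n).1
      refine ⟨integrable_finsetSum _ h1, ?_⟩
      have h2 : ∫ ω, W N ω ∂P = ∑ n ∈ Finset.Icc 1 N, ∫ ω, ∑ h ∈ Finset.range N,
          (A h).indicator (fun _ => (1 : ℝ)) (σ^[n] ω) ∂P := integral_finsetSum _ h1
      rw [h2]
      have h3 : ∀ n ∈ Finset.Icc 1 N, ∫ ω, ∑ h ∈ Finset.range N,
          (A h).indicator (fun _ => (1 : ℝ)) (σ^[n] ω) ∂P =
          ∑ h ∈ Finset.range N, P.real (A h) := by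
        intro n _
        rw [integral_finsetSum _ fun h _ => (int_ind hσ (hA h) n).1]
        exact Finset.sum_congr rfl fun h _ => (int_ind hσ (hA h) n).2
      rw [Finset.sum_congr rfl h3, Finset.sum_const, Nat.card_Icc, nsmul_eq_mul]
      congr 2
    have hWm : ∀ N, Measurable (W N) := fun N => Finset.measurable_fun_sum _ fun n _ =>
      Finset.measurable_fun_sum _ fun h _ =>
        (measurable_const.indicator (hA h)).comp (hσ.iterate n).measurable
    have hsum := rate_sum (p := fun k => ∑ h ∈ Finset.range (2 ^ k), P.real (A h)) (e := 2)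
      (fun k => Finset.sum_nonneg fun h _ => measureReal_nonneg) (c := c) (C := C)
      (by norm_num; linarith) (fun k hk => by
        have h1 := hC (2 ^ k) (by
          calc 2 = 2 ^ 1 := by norm_num
            _ ≤ 2 ^ k := Nat.pow_le_pow_right (by norm_num) hk)
        push_cast at h1
        exact h1)
    have hsmall := ae_small (P := P)
      (f := fun k ω => (k : ℝ) ^ 2 * W (2 ^ k) ω / ((2 : ℝ) ^ k) ^ 2)
      (fun k => ((hWm _).const_mul _).div_const _)
      (fun k ω => div_nonneg (mul_nonneg (by positivity) (hW0 _ _)) (by positivity))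
      (fun k => ((hWi _).1.const_mul _).div_const _)
      (by
        refine hsum.congr fun k => ?_
        rw [integral_div, integral_const_mul, (hWi (2 ^ k)).2]
        push_cast
        field_simp)
    filter_upwards [hsmall] with ω hω
    have hdy := dyadic (hWmono ω) (fun N => hW0 N ω) hω
    refine ⟨fun N => Nat.sqrt ⌊2 * W N ω⌋₊, ?_, ?_⟩
    · have h1 := (hdy.const_mul 2).sqrt
      rw [mul_zero, Real.sqrt_zero] at h1
      refine squeeze_zero' ?_ ?_ h1
      · filter_upwards [eventually_gt_atTop 0] with N hN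
        have := Real.log_natCast_nonneg N
        positivity
      · filter_upwards [eventually_gt_atTop 0] with N hN
        have hN' : (0 : ℝ) < N := by exact_mod_cast hN
        have hlog := Real.log_natCast_nonneg N
        apply Real.le_sqrt_of_sq_le
        have h2 : ((Nat.sqrt ⌊2 * W N ω⌋₊ : ℕ) : ℝ) ^ 2 ≤ 2 * W N ω := by
          have h3 := Nat.sqrt_le' ⌊2 * W N ω⌋₊
          have h4 : ((Nat.sqrt ⌊2 * W N ω⌋₊ : ℕ) : ℝ) ^ 2 ≤ (⌊2 * W N ω⌋₊ : ℝ) := by
            exact_mod_cast h3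
          exact h4.trans (Nat.floor_le (mul_nonneg zero_le_two (hW0 _ _)))
        rw [div_pow, mul_pow, mul_div_assoc']
        refine div_le_div_of_nonneg_right ?_ (by positivity)
        have h5 := mul_le_mul_of_nonneg_right h2 (sq_nonneg (Real.log N))
        linarith
    · intro N s T hT
      rw [Nat.le_sqrt', Nat.le_floor_iff (mul_nonneg zero_le_two (hW0 _ _))]
      push_cast
      have h1 : ∀ n ∈ T, ((T.filter fun n' => n ≤ n').card : ℝ) ≤ ∑ h ∈ Finset.range N,
          (A h).indicator (fun _ => (1 : ℝ)) (σ^[n] ω) := by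
        intro n hn
        have h2 : ∑ h ∈ Finset.range N, (A h).indicator (fun _ => (1 : ℝ)) (σ^[n] ω) =
            (((Finset.range N).filter fun h => σ^[n] ω ∈ A h).card : ℝ) := by
          simp only [Set.indicator_apply]
          rw [Finset.sum_ite, Finset.sum_const_zero, add_zero, Finset.sum_const, nsmul_eq_mul,
            mul_one]
        rw [h2]
        have h3 : (T.filter fun n' => n ≤ n').card ≤
            ((Finset.range N).filter fun h => σ^[n] ω ∈ A h).card := by
          apply Finset.card_le_card_of_injOn (fun n' => n' - n)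
          · intro n' hn'
            have hn1 := Finset.mem_filter.1 (Finset.mem_coe.1 hn')
            have h4 := hT n hn
            have h5 := hT n' hn1.1
            apply Finset.mem_coe.2
            rw [Finset.mem_filter, Finset.mem_range]
            refine ⟨show n' - n < N by omega, ?_⟩
            show |birkhoffSum σ φ (n' - n) (σ^[n] ω)| < r
            have h6 := birkhoffSum_add σ φ n (n' - n) ω
            rw [Nat.add_sub_cancel' hn1.2] at h6
            have h7 : birkhoffSum σ φ (n' - n) (σ^[n] ω) =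
                birkhoffSum σ φ n' ω - birkhoffSum σ φ n ω := by linarith
            rw [h7, abs_lt]
            constructor <;> linarith [h4.2.2.1, h4.2.2.2, h5.2.2.1, h5.2.2.2]
          · intro x hx y hy hxy
            have hx' := (Finset.mem_filter.1 (Finset.mem_coe.1 hx)).2
            have hy' := (Finset.mem_filter.1 (Finset.mem_coe.1 hy)).2
            have hxy' : x - n = y - n := hxy
            omega
        exact_mod_cast h3
      have h4 : (T.card : ℝ) ^ 2 ≤ 2 * ∑ n ∈ T, ((T.filter fun n' => n ≤ n').card : ℝ) := by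
        have h5 : ∀ n ∈ T, ((T.filter fun n' => n ≤ n').card : ℝ) =
            ∑ n' ∈ T, if n ≤ n' then (1 : ℝ) else 0 := by
          intro n _
          rw [← Finset.sum_filter, Finset.sum_const, nsmul_eq_mul, mul_one]
        rw [Finset.sum_congr rfl h5]
        have h6 : (T.card : ℝ) ^ 2 = ∑ n ∈ T, ∑ n' ∈ T, (1 : ℝ) := by
          rw [Finset.sum_const, Finset.sum_const, nsmul_eq_mul, nsmul_eq_mul, mul_one, sq]
        have h7 : ∑ n ∈ T, ∑ n' ∈ T, (1 : ℝ) ≤ ∑ n ∈ T, ∑ n' ∈ T,
            ((if n ≤ n' then (1 : ℝ) else 0) + if n' ≤ n then (1 : ℝ) else 0) := by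
          refine Finset.sum_le_sum fun n _ => Finset.sum_le_sum fun n' _ => ?_
          rcases le_total n n' with h8 | h8
          · rw [if_pos h8]
            split_ifs <;> norm_num
          · rw [if_pos h8]
            split_ifs <;> norm_num
        have h8 : ∑ n ∈ T, ∑ n' ∈ T,
            ((if n ≤ n' then (1 : ℝ) else 0) + if n' ≤ n then (1 : ℝ) else 0) =
            2 * ∑ n ∈ T, ∑ n' ∈ T, if n ≤ n' then (1 : ℝ) else 0 := by
          simp only [Finset.sum_add_distrib]
          rw [Finset.sum_comm (s := T) (t := T)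
            (f := fun n n' => if n' ≤ n then (1 : ℝ) else 0)]
          ring
        rw [h6]
        linarith
      refine h4.trans (mul_le_mul_of_nonneg_left ?_ zero_le_two)
      refine (Finset.sum_le_sum h1).trans ?_
      refine Finset.sum_le_sum_of_subset_of_nonneg (fun n hn => ?_) fun n _ _ =>
        Finset.sum_nonneg fun h _ => hind _ _
      rw [Finset.mem_Icc]
      exact ⟨(hT n hn).1, (hT n hn).2.1⟩
  filter_upwards [ae_all_iff.2 key] with ω hω R
  obtain ⟨r, hr⟩ := exists_nat_ge R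
  obtain ⟨L, hL, hm⟩ := hω r
  refine ⟨L, ∅, ?_, hL, fun N s T hT => hm N s T fun n hn => ?_⟩
  · unfold DZn
    simp
  · obtain ⟨h1, h2, -, h3, h4⟩ := hT n hn
    exact ⟨h1, h2, h3, by linarith⟩

theorem spread_sep {σ : Ω → Ω} (hσ : MeasurePreserving σ P P) {φ : Ω → ℝ} (hφ : Measurable φ)
    (h : Rated P σ φ) {a b : ℕ} (hab : a < b) : ∀ᵐ ω ∂P, ∀ R : ℝ,
      DZn {n | |birkhoffSum σ φ (a * n) ω - birkhoffSum σ φ (b * n) ω| < R} := by
  classical
  obtain ⟨D, hD, rfl⟩ : ∃ D : ℕ, 0 < D ∧ b = a + D := ⟨b - a, by omega, by omega⟩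
  have hD' : (0 : ℝ) < D := by exact_mod_cast hD
  have hD1 : (1 : ℝ) ≤ D := by exact_mod_cast hD
  have key : ∀ r : ℕ, ∀ᵐ ω ∂P,
      DZn {n | |birkhoffSum σ φ (a * n) ω - birkhoffSum σ φ ((a + D) * n) ω| < r} := by
    intro r
    obtain ⟨c, C, hc, hC⟩ := h r
    let A : ℕ → Set Ω := rs σ φ r
    have hA : ∀ h, MeasurableSet (A h) := fun h => meas_rs hσ.measurable hφ _ _
    let w : ℕ → Ω → ℝ := fun N ω => ∑ n ∈ Finset.Icc 1 N,
      (A (D * n)).indicator (fun _ => (1 : ℝ)) (σ^[a * n] ω)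
    have hind : ∀ (h : ℕ) (ω : Ω), 0 ≤ (A h).indicator (fun _ => (1 : ℝ)) ω := fun h ω =>
      Set.indicator_nonneg (fun _ _ => zero_le_one) _
    have hw0 : ∀ N ω, 0 ≤ w N ω := fun N ω => Finset.sum_nonneg fun n _ => hind _ _
    have hwmono : ∀ ω, Monotone fun N => w N ω := by
      intro ω N M hNM
      exact Finset.sum_le_sum_of_subset_of_nonneg
        (Finset.Icc_subset_Icc le_rfl hNM) fun n _ _ => hind _ _
    have hwm : ∀ N, Measurable (w N) := fun N => Finset.measurable_fun_sum _ fun n _ =>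
      (measurable_const.indicator (hA _)).comp (hσ.iterate _).measurable
    have hwi : ∀ N, Integrable (w N) P ∧
        ∫ ω, w N ω ∂P = ∑ n ∈ Finset.Icc 1 N, P.real (A (D * n)) := by
      intro N
      have h1 : ∀ n ∈ Finset.Icc 1 N, Integrable (fun ω =>
          (A (D * n)).indicator (fun _ => (1 : ℝ)) (σ^[a * n] ω)) P := fun n _ =>
        (int_ind hσ (hA _) _).1
      refine ⟨integrable_finsetSum _ h1, ?_⟩
      have h2 : ∫ ω, w N ω ∂P = ∑ n ∈ Finset.Icc 1 N, ∫ ω,
          (A (D * n)).indicator (fun _ => (1 : ℝ)) (σ^[a * n] ω) ∂P := integral_finsetSum _ h1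
      rw [h2]
      exact Finset.sum_congr rfl fun n _ => (int_ind hσ (hA _) _).2
    have hle : ∀ N : ℕ, ∑ n ∈ Finset.Icc 1 N, P.real (A (D * n)) ≤
        ∑ h ∈ Finset.range (D * N + 1), P.real (A h) := by
      intro N
      have hinj : Set.InjOn (fun n => D * n) (Finset.Icc 1 N : Set ℕ) := fun x _ y _ hxy =>
        Nat.eq_of_mul_eq_mul_left hD hxy
      rw [← Finset.sum_image (f := fun h => P.real (A h)) (g := fun n => D * n) hinj]
      refine Finset.sum_le_sum_of_subset_of_nonneg (fun h hh => ?_) fun h _ _ =>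
        measureReal_nonneg
      obtain ⟨n, hn, rfl⟩ := Finset.mem_image.1 hh
      rw [Finset.mem_range]
      exact Nat.lt_succ_of_le (Nat.mul_le_mul_left D (Finset.mem_Icc.1 hn).2)
    have hsum := rate_sum (p := fun k => ∑ n ∈ Finset.Icc 1 (2 ^ k), P.real (A (D * n)))
      (e := 0) (fun k => Finset.sum_nonneg fun h _ => measureReal_nonneg) (c := c)
      (C := |C| * (2 * D)) (by norm_num; linarith) (fun k hk => by
        have h2k : 2 ≤ 2 ^ k := by
          calc 2 = 2 ^ 1 := by norm_num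
            _ ≤ 2 ^ k := Nat.pow_le_pow_right (by norm_num) hk
        have hM : 2 ^ k ≤ D * 2 ^ k + 1 :=
          (Nat.le_mul_of_pos_left _ hD).trans (Nat.le_succ _)
        have h1 := hC (D * 2 ^ k + 1) (h2k.trans hM)
        have hM' : (2 : ℝ) ^ k ≤ ((D * 2 ^ k + 1 : ℕ) : ℝ) := by exact_mod_cast hM
        have h2k' : (2 : ℝ) ≤ 2 ^ k := by exact_mod_cast h2k
        have hl1 : 0 < Real.log ((2 : ℝ) ^ k) := Real.log_pos (by linarith)
        have hl2 : Real.log ((2 : ℝ) ^ k) ≤ Real.log ((D * 2 ^ k + 1 : ℕ) : ℝ) :=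
          Real.log_le_log (by positivity) hM'
        have hl3 : (Real.log ((2 : ℝ) ^ k)) ^ c ≤ (Real.log ((D * 2 ^ k + 1 : ℕ) : ℝ)) ^ c :=
          Real.rpow_le_rpow hl1.le hl2 (by linarith)
        have hl4 : 0 < (Real.log ((2 : ℝ) ^ k)) ^ c := Real.rpow_pos_of_pos hl1 c
        have h3 : C * ((D * 2 ^ k + 1 : ℕ) : ℝ) ≤ |C| * (2 * D) * 2 ^ k := by
          have h4 : ((D * 2 ^ k + 1 : ℕ) : ℝ) ≤ 2 * D * 2 ^ k := by
            push_cast
            nlinarith
          calc C * ((D * 2 ^ k + 1 : ℕ) : ℝ) ≤ |C| * ((D * 2 ^ k + 1 : ℕ) : ℝ) :=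
                mul_le_mul_of_nonneg_right (le_abs_self C) (Nat.cast_nonneg _)
            _ ≤ |C| * (2 * D * 2 ^ k) := mul_le_mul_of_nonneg_left h4 (abs_nonneg C)
            _ = |C| * (2 * D) * 2 ^ k := by ring
        refine (hle (2 ^ k)).trans (h1.trans ?_)
        calc C * ((D * 2 ^ k + 1 : ℕ) : ℝ) / (Real.log ((D * 2 ^ k + 1 : ℕ) : ℝ)) ^ c ≤
            |C| * (2 * D) * 2 ^ k / (Real.log ((D * 2 ^ k + 1 : ℕ) : ℝ)) ^ c :=
              div_le_div_of_nonneg_right h3 (hl4.le.trans hl3)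
          _ ≤ |C| * (2 * D) * 2 ^ k / (Real.log ((2 : ℝ) ^ k)) ^ c :=
              div_le_div_of_nonneg_left (by positivity) hl4 hl3)
    have hsmall := ae_small (P := P)
      (f := fun k ω => (k : ℝ) ^ 0 * w (2 ^ k) ω / ((2 : ℝ) ^ k) ^ 1)
      (fun k => ((hwm _).const_mul _).div_const _)
      (fun k ω => div_nonneg (mul_nonneg (by positivity) (hw0 _ _)) (by positivity))
      (fun k => ((hwi _).1.const_mul _).div_const _)
      (by
        refine hsum.congr fun k => ?_
        rw [integral_div, integral_const_mul, (hwi (2 ^ k)).2, pow_one])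
    filter_upwards [hsmall] with ω hω
    have hdy := dyadic (hwmono ω) (fun N => hw0 N ω) hω
    unfold DZn
    refine hdy.congr fun N => ?_
    rw [pow_zero, one_mul, pow_one]
    congr 1
    show ∑ n ∈ Finset.Icc 1 N, (A (D * n)).indicator (fun _ => (1 : ℝ)) (σ^[a * n] ω) = _
    simp only [Set.indicator_apply]
    rw [← Finset.sum_filter, Finset.sum_const, nsmul_eq_mul, mul_one]
    congr 2
    refine Finset.filter_congr fun n _ => ?_
    show |birkhoffSum σ φ (D * n) (σ^[a * n] ω)| < r ↔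
      |birkhoffSum σ φ (a * n) ω - birkhoffSum σ φ ((a + D) * n) ω| < r
    have h6 := birkhoffSum_add σ φ (a * n) (D * n) ω
    rw [← add_mul] at h6
    have h7 : birkhoffSum σ φ (a * n) ω - birkhoffSum σ φ ((a + D) * n) ω =
        -birkhoffSum σ φ (D * n) (σ^[a * n] ω) := by linarith
    rw [h7, abs_neg]
  filter_upwards [ae_all_iff.2 key] with ω hω R
  obtain ⟨r, hr⟩ := exists_nat_ge R
  have h1 := hω r
  unfold DZn at *
  refine squeeze_zero (fun N => by positivity) (fun N => ?_) h1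
  refine div_le_div_of_nonneg_right ?_ (Nat.cast_nonneg _)
  have h2 : ((Finset.Icc 1 N).filter fun n => n ∈ {n | |birkhoffSum σ φ (a * n) ω -
      birkhoffSum σ φ ((a + D) * n) ω| < R}).card ≤
      ((Finset.Icc 1 N).filter fun n => n ∈ {n | |birkhoffSum σ φ (a * n) ω -
      birkhoffSum σ φ ((a + D) * n) ω| < r}).card := by
    apply Finset.card_le_card
    intro n hn
    rw [Finset.mem_filter] at hn ⊢
    exact ⟨hn.1, lt_of_lt_of_le hn.2 hr⟩
  exact_mod_cast h2

theorem DZn_symm {a b : ℕ → ℝ} (h : ∀ R : ℝ, DZn {n | |a n - b n| < R}) :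
    ∀ R : ℝ, DZn {n | |b n - a n| < R} := by
  intro R
  have h1 := h R
  have e : {n | |b n - a n| < R} = {n | |a n - b n| < R} := by
    ext n
    show |b n - a n| < R ↔ |a n - b n| < R
    rw [abs_sub_comm]
  rw [e]
  exact h1

end Pool.Agent.Run7.h484.KG
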