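import Pool.Agent.Run7.h484.KG.SkewE
import Pool.Agent.Run7.h484.KG.Spread

/-!
# Skew products with fibres which are Kolmogorov extensions
-/

set_option autoImplicit false
set_option linter.unusedSectionVars false

open MeasureTheory Filter Topology
open scoped ENNReal

noncomputable section

namespace Pool.Agent.Run7.h484.KG

open Pool.Agent.TH784.KE
open Pool.Agent.TH739.PA (av avr avr_add avr_mono avr_nonneg avr_abs avr_const_le avr_mul av_add
  av_mul av_sub int_lim Good Cls_zero Cls_conv closed_slot av_norm av_ofReal int_snd)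
open Pool.Agent.Run7.h484.KB (AdmR AdmZ AdmR.bm one_le_prod_real)
open Pool.Agent.W761.Gauss (BM BM_of_memLp)

variable {ι : Type*} {Ω X : Type} [mΩ : MeasurableSpace Ω] {P : Measure Ω} [IsProbabilityMeasure P]
variable {mA mY mX : MeasurableSpace X} {μ : Measure X} [IsProbabilityMeasure μ]
variable {G : Type*} [Group G]
variable {Φ : G →* Equiv.Perm X} {ℓ : G → ℝ}

section ch

variable {J : Type*} [DecidableEq J] [Fintype J]

/-- **The product of the base and the factor is characteristic.** -/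
theorem char_Z (hK : KExt μ mA mY Φ ℓ) {s₀ : G} (hs₀ : 0 < ℓ s₀)
    {q : ι → J → Ω → G} {a : J → ι → Ω → Ω} {g : J → ι → Ω × X → Ω × X}
    (ha : ∀ j n, Measurable (a j n))
    (hg : ∀ v n, MeasurePreserving (g v n) (P.prod μ) (P.prod μ))
    (hg1 : ∀ v n p, (g v n p).1 = a v n p.1)
    (hg2 : ∀ v n p, (g v n p).2 = Φ (q n v p.1) p.2)
    {Bs : ℕ → Finset ι} (hBs : ∀ N, (Bs N).Nonempty)
    (hdisp : ∀ v, ∀ᵐ ω ∂P, Dispg Bs fun n => ℓ (q n v ω))
    (hsepa : ∀ v w, v ≠ w → ∀ᵐ ω ∂P, Sepg Bs (fun n => ℓ (q n v ω)) fun n => ℓ (q n w ω))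
    (hgood : ∀ v, Good atTop Bs (P.prod μ) (g v))
    {f e : J → Ω × X → ℂ} (hf : ∀ j, BM (f j)) (he : ∀ j, BM (e j))
    (heY : ∀ j, Measurable[mΩ.prod mY] (e j))
    (hfe : ∀ j, ∀ C : Set (Ω × X), MeasurableSet[mΩ.prod mY] C →
      ∫ p in C, (f j p - e j p) ∂(P.prod μ) = 0) :
    ∀ᵐ p ∂(P.prod μ), Tendsto (fun N => av (Bs N) fun n => ∏ j, f j (g j n p) -
      ∏ j, e j (g j n p)) atTop (𝓝 0) := by
  classical
  choose hem Ce hCe using he
  obtain ⟨D, hD⟩ : ∃ D : ℝ, D = ∏ j, (|Ce j| + 1) := ⟨_, rfl⟩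
  have hD1 : 1 ≤ D := by
    rw [hD]
    exact one_le_prod_real _ fun j _ => by
      have := abs_nonneg (Ce j)
      linarith
  have hD0 : 0 < D := lt_of_lt_of_le one_pos hD1
  have hDt : ∀ (t : Finset J) (n : ι) (x : Ω × X),
      ‖∏ j ∈ Finset.univ \ t, e j (g j n x)‖ ≤ D := by
    intro t n x
    rw [norm_prod]
    refine (Finset.prod_le_prod (g := fun j => |Ce j| + 1) (fun l _ => norm_nonneg _)
      fun l _ => ((hCe l _).trans (le_abs_self _)).trans (by linarith)).trans ?_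
    rw [hD, ← Finset.prod_sdiff (Finset.subset_univ t)]
    have h1 : 1 ≤ ∏ j ∈ t, (|Ce j| + 1) := one_le_prod_real _ fun j _ => by
      have := abs_nonneg (Ce j)
      linarith
    have h2 : 0 ≤ ∏ j ∈ Finset.univ \ t, (|Ce j| + 1) :=
      Finset.prod_nonneg fun j _ => by positivity
    nlinarith
  have hsec : ∀ (j : J) (n : ι) (ω : Ω), Measurable[mY] fun x => e j (g j n (ω, x)) := by
    intro j n ω
    have h1 : ∀ x, g j n (ω, x) = (a j n ω, Φ (q n j ω) x) := fun x =>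
      Prod.ext (hg1 j n (ω, x)) (hg2 j n (ω, x))
    have h2 : Measurable[mY] fun x => e j (a j n ω, x) :=
      (heY j).comp (@measurable_prodMk_left Ω X mΩ mY (a j n ω))
    have h3 : (fun x => e j (g j n (ω, x))) = (fun x => e j (a j n ω, x)) ∘ (Φ (q n j ω)) := by
      funext x
      rw [h1]
      rfl
    rw [h3]
    exact h2.comp (hK.base.inv (q n j ω))
  have key : ∀ t : Finset J, t ≠ ∅ → ∀ᵐ x ∂(P.prod μ), Tendsto (fun N => av (Bs N) fun n =>
      (∏ j ∈ t, (f j (g j n x) - e j (g j n x))) *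
        ∏ j ∈ Finset.univ \ t, e j (g j n x)) atTop (𝓝 0) := by
    intro t ht
    obtain ⟨j₀, hj₀⟩ := Finset.nonempty_of_ne_empty ht
    have : Nonempty t := ⟨⟨j₀, hj₀⟩⟩
    have hadm : ∀ v : t, AdmZ (P.prod μ) (mΩ.prod mY) fun p => f v.1 p - e v.1 p := fun v => by
      obtain ⟨m₁, C₁, b₁⟩ := hf v.1
      exact ⟨⟨m₁.sub (hem v.1), C₁ + Ce v.1, fun x => (norm_sub_le _ _).trans
        (add_le_add (b₁ x) (hCe v.1 x))⟩, hfe v.1⟩
    have hz := zero_Z (J := t) (q := fun n j => q n j.1) (g := fun j => g j.1)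
      (a := fun j => a j.1)
      (W := fun n x => (D : ℂ)⁻¹ * ∏ j ∈ Finset.univ \ t, e j (g j n x))
      (F := fun j p => f j.1 p - e j.1 p)
      hK hs₀ (fun j => ha j.1) (fun j => hg j.1) (fun j => hg1 j.1) (fun j => hg2 j.1) hBs
      (fun v => hdisp v.1)
      (fun v w hvw => hsepa v.1 w.1 fun h => hvw (Subtype.ext h)) (fun v => hgood v.1)
      (fun n => by
        refine ⟨?_, fun x => ?_⟩
        · refine Measurable.const_mul ?_ _
          exact Finset.measurable_fun_prod _ fun w _ => (hem w).comp (hg w n).measurable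
        · rw [norm_mul, norm_inv, Complex.norm_real, Real.norm_of_nonneg hD0.le,
            inv_mul_le_iff₀ hD0, mul_one]
          exact hDt t n x)
      (fun n ω => by
        refine Measurable.const_mul ?_ _
        exact Finset.measurable_fun_prod _ fun w _ => hsec w n ω)
      hadm
    filter_upwards [hz] with x hx
    have hx' := hx.const_mul (D : ℂ)
    rw [mul_zero] at hx'
    refine hx'.congr fun N => ?_
    rw [← av_mul]
    congr 1
    funext n
    have hDc : (D : ℂ) ≠ 0 := by exact_mod_cast hD0.ne'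
    have e1 : ∏ j : t, (f j.1 (g j.1 n x) - e j.1 (g j.1 n x)) =
        ∏ j ∈ t, (f j (g j n x) - e j (g j n x)) :=
      Finset.prod_coe_sort t (fun j => f j (g j n x) - e j (g j n x))
    rw [e1]
    field_simp
  have hall : ∀ᵐ x ∂(P.prod μ), ∀ t : Finset J, t ≠ ∅ → Tendsto (fun N => av (Bs N) fun n =>
      (∏ j ∈ t, (f j (g j n x) - e j (g j n x))) *
        ∏ j ∈ Finset.univ \ t, e j (g j n x)) atTop (𝓝 0) := by
    rw [ae_all_iff]
    intro t
    by_cases ht : t = ∅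
    · exact Eventually.of_forall fun x h => absurd ht h
    · filter_upwards [key t ht] with x hx _
      exact hx
  filter_upwards [hall] with x hx
  have hsum := tendsto_finsetSum ((Finset.univ : Finset J).powerset.erase ∅) fun t ht =>
    hx t (Finset.ne_of_mem_erase ht)
  rw [Finset.sum_const_zero] at hsum
  refine hsum.congr fun N => ?_
  rw [← av_sum]
  congr 1
  funext n
  have h1 := Finset.prod_add (fun j => f j (g j n x) - e j (g j n x))
    (fun j => e j (g j n x)) (Finset.univ : Finset J)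
  have h2 : ∏ j, (f j (g j n x) - e j (g j n x) + e j (g j n x)) =
      ∏ j, f j (g j n x) := Finset.prod_congr rfl fun j _ => by ring
  rw [h2, ← Finset.add_sum_erase _ _ (Finset.empty_mem_powerset _)] at h1
  rw [h1, Finset.prod_empty, one_mul, Finset.sdiff_empty]
  ring

end ch

/-- the cocycle -/
def coc (σ : Ω → Ω) (α : Ω → G) : ℕ → Ω → G
  | 0, _ => 1
  | n + 1, ω => α (σ^[n] ω) * coc σ α n ω

/-- the skew product -/
def skw (σ : Ω → Ω) (Φ : G →* Equiv.Perm X) (α : Ω → G) (p : Ω × X) : Ω × X :=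
  (σ p.1, Φ (α p.1) p.2)

omit mΩ in
theorem skw_iter (σ : Ω → Ω) (Φ : G →* Equiv.Perm X) (α : Ω → G) (n : ℕ) (p : Ω × X) :
    (skw σ Φ α)^[n] p = (σ^[n] p.1, Φ (coc σ α n p.1) p.2) := by
  induction n with
  | zero => simp [coc]
  | succ n ih =>
    rw [Function.iterate_succ_apply', ih]
    show (σ (σ^[n] p.1), Φ (α (σ^[n] p.1)) (Φ (coc σ α n p.1) p.2)) =
      (σ^[n + 1] p.1, Φ (α (σ^[n] p.1) * coc σ α n p.1) p.2)
    rw [Function.iterate_succ_apply', map_mul, Equiv.Perm.mul_apply]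

omit mΩ in
theorem ell_coc {ℓ : G → ℝ} (hom : ∀ a b, ℓ (a * b) = ℓ a + ℓ b) (σ : Ω → Ω) (α : Ω → G) (n : ℕ)
    (ω : Ω) : ℓ (coc σ α n ω) = birkhoffSum σ (fun ω => ℓ (α ω)) n ω := by
  induction n with
  | zero =>
    have h := hom 1 1
    rw [mul_one] at h
    rw [birkhoffSum_zero]
    show ℓ 1 = 0
    linarith
  | succ n ih =>
    rw [birkhoffSum_succ, ← ih]
    show ℓ (α (σ^[n] ω) * coc σ α n ω) = _
    rw [hom, add_comm]

variable {σ : Ω → Ω} {α : Ω → G}

theorem skw_mp (hΦ : ∀ g, MeasurePreserving (Φ g) μ μ) (hσ : MeasurePreserving σ P P)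
    (hα : Measurable fun p : Ω × X => Φ (α p.1) p.2) :
    MeasurePreserving (skw σ Φ α) (P.prod μ) (P.prod μ) :=
  MeasurePreserving.skew_product hσ (g := fun ω x => Φ (α ω) x) hα
    (Eventually.of_forall fun ω => (hΦ (α ω)).map_eq)

/-- **The product of the base and the factor is characteristic**, bounded functions. -/
theorem char_skw {m : ℕ} (hK : KExt μ mA mY Φ ℓ) (hσ : MeasurePreserving σ P P)
    (hα : Measurable fun p : Ω × X => Φ (α p.1) p.2) {a : Fin m → ℕ} (ha : ∀ j, 0 < a j)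
    (hdisp : ∀ᵐ ω ∂P, Dispn fun n => birkhoffSum σ (fun ω => ℓ (α ω)) n ω)
    (hsepa : ∀ i j, i ≠ j → ∀ᵐ ω ∂P, ∀ R : ℝ, DZn {n |
      |birkhoffSum σ (fun ω => ℓ (α ω)) (a i * n) ω -
        birkhoffSum σ (fun ω => ℓ (α ω)) (a j * n) ω| < R})
    {f e : Fin m → Ω × X → ℂ} (hf : ∀ j, BM (f j)) (he : ∀ j, BM (e j))
    (heY : ∀ j, Measurable[mΩ.prod mY] (e j))
    (hfe : ∀ j, ∀ C : Set (Ω × X), MeasurableSet[mΩ.prod mY] C →
      ∫ p in C, (f j p - e j p) ∂(P.prod μ) = 0) :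
    ∀ᵐ z ∂(P.prod μ), Tendsto (fun N : ℕ => (N : ℂ)⁻¹ * ∑ n ∈ Finset.Icc 1 N,
      (∏ j, f j ((skw σ Φ α)^[a j * n] z) - ∏ j, e j ((skw σ Φ α)^[a j * n] z)))
      atTop (𝓝 0) := by
  rcases Nat.eq_zero_or_pos m with hm | hm
  · subst hm
    refine Eventually.of_forall fun x => ?_
    simp only [Finset.univ_eq_empty, Finset.prod_empty, sub_self,
      Finset.sum_const_zero, mul_zero]
    exact tendsto_const_nhds
  have hPne : (ae P).NeBot := inferInstance
  obtain ⟨ω₀, hω₀⟩ := hdisp.exists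
  have hs : ∃ s₀ : G, 0 < ℓ s₀ := by
    refine exists_posn (a := fun n => coc σ α n ω₀) hK.filt.inv ?_
    simp only [ell_coc hK.filt.hom]
    exact hω₀
  obtain ⟨s₀, hs₀⟩ := hs
  have hT := skw_mp hK.fl hσ hα
  have hPZ := char_Z (P := P) (μ := μ) (Bs := In) (J := Fin m) (ι := ℕ)
    (q := fun n j ω => coc σ α (a j * n) ω) (a := fun j n => σ^[a j * n])
    (g := fun j n => (skw σ Φ α)^[a j * n]) hK hs₀
    (fun j n => (hσ.iterate _).measurable) (fun j n => hT.iterate _)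
    (fun j n p => by rw [skw_iter]) (fun j n p => by rw [skw_iter]) In_ne
    (fun j => by
      filter_upwards [hdisp] with ω hω
      simp only [ell_coc hK.filt.hom]
      exact (hω.dil (ha j)).toDispg)
    (fun i j hij => by
      filter_upwards [hsepa i j hij] with ω hω R
      simp only [ell_coc hK.filt.hom]
      exact (hω R).toDZg)
    (fun j => good_powN hT (a j)) hf he heY hfe
  filter_upwards [hPZ] with z hz
  rw [← tendsto_add_atTop_iff_nat 1]
  refine hz.congr fun N => ?_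
  unfold av
  rw [In_card]
  rfl

/-- **The product of the base and the factor is characteristic.** -/
theorem char_top {m : ℕ} (hK : KExt μ mA mY Φ ℓ) (hσ : MeasurePreserving σ P P)
    (hα : Measurable fun p : Ω × X => Φ (α p.1) p.2) {a : Fin m → ℕ} (ha : ∀ j, 0 < a j)
    (hdisp : ∀ᵐ ω ∂P, Dispn fun n => birkhoffSum σ (fun ω => ℓ (α ω)) n ω)
    (hsepa : ∀ i j, i ≠ j → ∀ᵐ ω ∂P, ∀ R : ℝ, DZn {n |
      |birkhoffSum σ (fun ω => ℓ (α ω)) (a i * n) ω -
        birkhoffSum σ (fun ω => ℓ (α ω)) (a j * n) ω| < R})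
    {f : Fin m → Ω × X → ℂ} (hf : ∀ j, MemLp (f j) ∞ (P.prod μ)) :
    ∃ e : Fin m → Ω × X → ℂ, (∀ j, BM (e j)) ∧ (∀ j, Measurable[mΩ.prod mY] (e j)) ∧
      (∀ j, e j =ᵐ[P.prod μ] (P.prod μ)[f j | mΩ.prod mY]) ∧
      ∀ᵐ z ∂(P.prod μ), Tendsto (fun N : ℕ => (N : ℂ)⁻¹ * ∑ n ∈ Finset.Icc 1 N,
        (∏ j, f j ((skw σ Φ α)^[a j * n] z) - ∏ j, e j ((skw σ Φ α)^[a j * n] z)))
        atTop (𝓝 0) := by
  have hle : mY ≤ mX := hK.base.le.trans hK.filt.le
  choose h hh hfh using fun j => BM_of_memLp (hf j)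
  choose e he heY hee hhe using fun j =>
    exists_cond (μ := P.prod μ) (prod_le' (mΩ := mΩ) hle) (hh j)
  have hT := skw_mp hK.fl hσ hα
  refine ⟨e, he, heY, fun j => (hee j).trans (condExp_congr_ae (hfh j)).symm, ?_⟩
  have h1 := char_skw hK hσ hα ha hdisp hsepa hh he heY hhe
  have h2 : ∀ᵐ z ∂(P.prod μ), ∀ (n : ℕ) (j : Fin m),
      f j ((skw σ Φ α)^[a j * n] z) = h j ((skw σ Φ α)^[a j * n] z) := by
    rw [ae_all_iff]
    intro n
    rw [ae_all_iff]
    intro j
    exact (hT.iterate _).quasiMeasurePreserving.ae (hfh j)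
  filter_upwards [h1, h2] with z hz hz2
  refine hz.congr fun N => ?_
  congr 1
  refine Finset.sum_congr rfl fun n _ => ?_
  congr 1
  exact Finset.prod_congr rfl fun j _ => (hz2 n j).symm

/-- a function measurable for the trivial factor depends on the base only -/
theorem of_bot (hle : (⊥ : MeasurableSpace X) ≤ mX) {h : Ω × X → ℂ}
    (hh : Measurable[mΩ.prod (⊥ : MeasurableSpace X)] h) (x₀ : X) :
    Measurable (fun ω => h (ω, x₀)) ∧ ∀ ω x, h (ω, x) = h (ω, x₀) := by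
  refine ⟨?_, fun ω x => ?_⟩
  · have h1 : Measurable h := hh.mono (prod_le' (mΩ := mΩ) hle) le_rfl
    exact h1.comp measurable_prodMk_right
  · have h2 : Measurable[⊥] fun x => h (ω, x) :=
      hh.comp (@measurable_prodMk_left Ω X mΩ ⊥ ω)
    have h3 : MeasurableSet[⊥] ((fun x => h (ω, x)) ⁻¹' {h (ω, x₀)}) :=
      h2 (measurableSet_singleton _)
    rcases MeasurableSpace.measurableSet_bot_iff.1 h3 with h4 | h4
    · have : x₀ ∈ (fun x => h (ω, x)) ⁻¹' {h (ω, x₀)} := rfl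
      rw [h4] at this
      exact absurd this (Set.notMem_empty _)
    · have : x ∈ (fun x => h (ω, x)) ⁻¹' {h (ω, x₀)} := by
        rw [h4]
        exact Set.mem_univ x
      exact this

end Pool.Agent.Run7.h484.KG
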