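import Pool.Agent.Run7.h484.KG.SkewC

/-!
# Functions on the product with zero expectation on the base and the factor
-/

set_option autoImplicit false
set_option linter.unusedSectionVars false

open MeasureTheory Filter Topology
open scoped ENNReal

noncomputable section

namespace Pool.Agent.Run7.h484.KG

open Pool.Agent.TH784.KE
open Pool.Agent.TH739.PA (ind_BM ext_one BM_add BM_smul)
open Pool.Agent.Run7.h484.KB (AdmR AdmZ AdmR.bm one_le_prod_real)
open Pool.Agent.W761.Gauss (BM)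

variable {Ω X : Type} [mΩ : MeasurableSpace Ω] {P : Measure Ω} [IsProbabilityMeasure P]
variable {mY mX : MeasurableSpace X} {μ : Measure X} [IsProbabilityMeasure μ]

theorem prod_le' (hle : mY ≤ mX) : mΩ.prod mY ≤ mΩ.prod mX :=
  sup_le_sup le_rfl (MeasurableSpace.comap_mono hle)

theorem bm_int {Z : Type} [MeasurableSpace Z] {ρ : Measure Z} [IsProbabilityMeasure ρ]
    {f : Z → ℂ} (hf : BM f) : Integrable f ρ := by
  obtain ⟨hm, C, hC⟩ := hf
  exact Integrable.of_bound hm.aestronglyMeasurable C (Eventually.of_forall hC)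

theorem rect_BM {D : Set Ω} (hD : MeasurableSet D) {b : X → ℂ} (hb : BM b) :
    BM fun p : Ω × X => D.indicator (fun _ => (1 : ℂ)) p.1 * b p.2 := by
  obtain ⟨hbm, Cb, hCb⟩ := hb
  refine ⟨((measurable_const.indicator hD).comp measurable_fst).mul (hbm.comp measurable_snd),
    Cb, fun p => ?_⟩
  rw [norm_mul]
  have h1 : ‖D.indicator (fun _ => (1 : ℂ)) p.1‖ ≤ 1 := by
    refine (norm_indicator_le_norm_self _ _).trans ?_
    simp
  calc ‖D.indicator (fun _ => (1 : ℂ)) p.1‖ * ‖b p.2‖ ≤ 1 * ‖b p.2‖ :=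
        mul_le_mul_of_nonneg_right h1 (norm_nonneg _)
    _ ≤ Cb := by rw [one_mul]; exact hCb _

theorem rect_Z (hle : mY ≤ mX) {D : Set Ω} (hD : MeasurableSet D) {b : X → ℂ}
    (hb : AdmZ μ mY b) :
    AdmZ (P.prod μ) (mΩ.prod mY) fun p : Ω × X => D.indicator (fun _ => (1 : ℂ)) p.1 * b p.2 := by
  refine ⟨rect_BM hD hb.1, fun C hC => ?_⟩
  have hC' : MeasurableSet C := prod_le' hle C hC
  have hi := bm_int (ρ := P.prod μ) (rect_BM hD hb.1)
  rw [← integral_indicator hC', integral_prod _ (hi.indicator hC')]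
  have h : ∀ ω, ∫ x, C.indicator (fun p : Ω × X => D.indicator (fun _ => (1 : ℂ)) p.1 * b p.2)
      (ω, x) ∂μ = 0 := by
    intro ω
    have hs : MeasurableSet[mY] (Prod.mk ω ⁻¹' C) :=
      @measurable_prodMk_left Ω X mΩ mY ω C hC
    have h1 : ∀ x, C.indicator (fun p : Ω × X => D.indicator (fun _ => (1 : ℂ)) p.1 * b p.2)
        (ω, x) = D.indicator (fun _ => (1 : ℂ)) ω * (Prod.mk ω ⁻¹' C).indicator b x := by
      intro x
      by_cases h2 : (ω, x) ∈ C
      · have h3 : x ∈ Prod.mk ω ⁻¹' C := h2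
        rw [Set.indicator_of_mem h2, Set.indicator_of_mem h3]
      · have h3 : x ∉ Prod.mk ω ⁻¹' C := h2
        rw [Set.indicator_of_notMem h2, Set.indicator_of_notMem h3, mul_zero]
    simp only [h1]
    rw [integral_const_mul, integral_indicator (hle _ hs), hb.2 _ hs, mul_zero]
  simp only [h]
  exact integral_zero _ _

/-- finite combinations of products -/
inductive Sp (mB : MeasurableSpace X) [mZ : MeasurableSpace X] (ν : Measure X) :
    (Ω × X → ℂ) → Prop
  | base (D : Set Ω) (b : X → ℂ) : MeasurableSet D → AdmZ ν mB b →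
      Sp mB ν fun p => D.indicator (fun _ => (1 : ℂ)) p.1 * b p.2
  | add (F F' : Ω × X → ℂ) : Sp mB ν F → Sp mB ν F' → Sp mB ν (F + F')
  | smul (c : ℂ) (F : Ω × X → ℂ) : Sp mB ν F → Sp mB ν (c • F)

theorem Sp.adm (hle : mY ≤ mX) {F : Ω × X → ℂ} (h : Sp mY μ F) :
    AdmZ (P.prod μ) (mΩ.prod mY) F := by
  induction h with
  | base D b hD hb => exact rect_Z hle hD hb
  | add F F' _ _ ih1 ih2 =>
    refine ⟨BM_add ih1.1 ih2.1, fun C hC => ?_⟩
    have h1 := integral_add (μ := (P.prod μ).restrict C) (bm_int (ρ := P.prod μ) ih1.1).integrableOn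
      (bm_int (ρ := P.prod μ) ih2.1).integrableOn
    rw [ih1.2 C hC, ih2.2 C hC, add_zero] at h1
    exact h1
  | smul c F _ ih =>
    refine ⟨BM_smul c ih.1, fun C hC => ?_⟩
    have h1 := integral_const_mul (μ := (P.prod μ).restrict C) c F
    rw [ih.2 C hC, mul_zero] at h1
    exact h1

theorem Sp.zero : Sp (Ω := Ω) mY μ fun _ => 0 := by
  have h := Sp.base (ν := μ) (mB := mY) (∅ : Set Ω) (fun _ => 0) MeasurableSet.empty
    ⟨⟨measurable_const, 0, fun x => by simp⟩, fun B _ => by simp⟩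
  simpa using h

/-- approximation of all bounded functions -/
theorem dens (hle : mY ≤ mX) {h : Ω × X → ℂ} (hh : BM h) : ∀ ε : ℝ, 0 < ε →
    ∃ e G : Ω × X → ℂ, Sp mY μ G ∧ BM e ∧ Measurable[mΩ.prod mY] e ∧
      ∫ p, ‖h p - (e p + G p)‖ ∂(P.prod μ) ≤ ε := by
  refine ext_one (μ := P.prod μ) (P := fun h => ∀ ε : ℝ, 0 < ε →
    ∃ e G : Ω × X → ℂ, Sp mY μ G ∧ BM e ∧ Measurable[mΩ.prod mY] e ∧
      ∫ p, ‖h p - (e p + G p)‖ ∂(P.prod μ) ≤ ε) ?_ ?_ ?_
    (𝒬 := Set.image2 (· ×ˢ ·) {s : Set Ω | MeasurableSet s} {t : Set X | MeasurableSet t})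
    ?_ isPiSystem_prod ?_ ?_ ?_ hh
  · intro f g hf hg h1 h2 ε hε
    obtain ⟨e₁, G₁, a1, a2, a3, a4⟩ := h1 (ε / 2) (by positivity)
    obtain ⟨e₂, G₂, b1, b2, b3, b4⟩ := h2 (ε / 2) (by positivity)
    refine ⟨e₁ + e₂, G₁ + G₂, Sp.add _ _ a1 b1, BM_add a2 b2, ?_, ?_⟩
    · exact a3.add b3
    · have i1 : Integrable (fun p => ‖f p - (e₁ p + G₁ p)‖) (P.prod μ) :=
        ((bm_int hf).sub ((bm_int a2).add (bm_int (a1.adm (P := P) hle).1))).norm
      have i2 : Integrable (fun p => ‖g p - (e₂ p + G₂ p)‖) (P.prod μ) :=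
        ((bm_int hg).sub ((bm_int b2).add (bm_int (b1.adm (P := P) hle).1))).norm
      calc ∫ p, ‖(f + g) p - ((e₁ + e₂) p + (G₁ + G₂) p)‖ ∂(P.prod μ) ≤
          ∫ p, (‖f p - (e₁ p + G₁ p)‖ + ‖g p - (e₂ p + G₂ p)‖) ∂(P.prod μ) := by
            refine integral_mono_of_nonneg (Eventually.of_forall fun p => norm_nonneg _)
              (i1.add i2) (Eventually.of_forall fun p => ?_)
            show ‖(f p + g p) - ((e₁ p + e₂ p) + (G₁ p + G₂ p))‖ ≤ _
            have e : (f p + g p) - ((e₁ p + e₂ p) + (G₁ p + G₂ p)) =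
                (f p - (e₁ p + G₁ p)) + (g p - (e₂ p + G₂ p)) := by ring
            rw [e]
            exact norm_add_le _ _
        _ = ∫ p, ‖f p - (e₁ p + G₁ p)‖ ∂(P.prod μ) +
            ∫ p, ‖g p - (e₂ p + G₂ p)‖ ∂(P.prod μ) := integral_add i1 i2
        _ ≤ ε := by linarith
  · intro c f hf h1 ε hε
    obtain ⟨e₁, G₁, a1, a2, a3, a4⟩ := h1 (ε / (‖c‖ + 1)) (by positivity)
    refine ⟨fun p => c * e₁ p, c • G₁, Sp.smul c _ a1, BM_smul c a2, ?_, ?_⟩
    · exact a3.const_mul c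
    · have e : ∀ p, ‖c * f p - (c * e₁ p + (c • G₁) p)‖ = ‖c‖ * ‖f p - (e₁ p + G₁ p)‖ := by
        intro p
        rw [← norm_mul]
        congr 1
        show c * f p - (c * e₁ p + c * G₁ p) = _
        ring
      simp only [e]
      rw [integral_const_mul]
      have h2 := mul_le_mul_of_nonneg_left a4 (norm_nonneg c)
      refine h2.trans ?_
      rw [mul_div_assoc', div_le_iff₀ (by positivity)]
      nlinarith [norm_nonneg c]
  · intro h hh H ε hε
    obtain ⟨g, hg, hi, hP⟩ := H (ε / 2) (by positivity)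
    obtain ⟨e₁, G₁, a1, a2, a3, a4⟩ := hP (ε / 2) (by positivity)
    refine ⟨e₁, G₁, a1, a2, a3, ?_⟩
    have i1 : Integrable (fun p => ‖h p - g p‖) (P.prod μ) := ((bm_int hh).sub (bm_int hg)).norm
    have i2 : Integrable (fun p => ‖g p - (e₁ p + G₁ p)‖) (P.prod μ) :=
      ((bm_int hg).sub ((bm_int a2).add (bm_int (a1.adm (P := P) hle).1))).norm
    calc ∫ p, ‖h p - (e₁ p + G₁ p)‖ ∂(P.prod μ) ≤
        ∫ p, (‖h p - g p‖ + ‖g p - (e₁ p + G₁ p)‖) ∂(P.prod μ) := by
          refine integral_mono_of_nonneg (Eventually.of_forall fun p => norm_nonneg _)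
            (i1.add i2) (Eventually.of_forall fun p => ?_)
          have e : h p - (e₁ p + G₁ p) = (h p - g p) + (g p - (e₁ p + G₁ p)) := by ring
          show ‖h p - (e₁ p + G₁ p)‖ ≤ _
          rw [e]
          exact norm_add_le _ _
      _ = ∫ p, ‖h p - g p‖ ∂(P.prod μ) + ∫ p, ‖g p - (e₁ p + G₁ p)‖ ∂(P.prod μ) :=
          integral_add i1 i2
      _ ≤ ε := by linarith
  · rintro D ⟨D₁, hD₁, A, hA, rfl⟩
    exact MeasurableSet.prod hD₁ hA
  · exact ⟨Set.univ, MeasurableSet.univ, Set.univ, MeasurableSet.univ, Set.univ_prod_univ⟩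
  · intro C hC
    refine ⟨C, ?_, Eventually.of_forall fun _ => rfl⟩
    rw [generateFrom_prod]
    exact hC
  · rintro D ⟨D₁, hD₁, A, hA, rfl⟩ ε hε
    obtain ⟨e, he, heY, -, heZ⟩ := exists_cond (μ := μ) hle (ind_BM (X := X) hA 1)
    have hb : AdmZ μ mY fun x => A.indicator (fun _ => (1 : ℂ)) x - e x := by
      obtain ⟨hm, C, hC⟩ := he
      refine ⟨⟨(measurable_const.indicator hA).sub hm, 1 + C, fun x => ?_⟩, heZ⟩
      refine (norm_sub_le _ _).trans (add_le_add ?_ (hC x))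
      refine (norm_indicator_le_norm_self _ _).trans ?_
      simp
    refine ⟨fun p => D₁.indicator (fun _ => (1 : ℂ)) p.1 * e p.2, _, Sp.base D₁ _ hD₁ hb,
      rect_BM hD₁ he, ?_, ?_⟩
    · have h1 : Measurable[mΩ.prod mY] fun p : Ω × X => D₁.indicator (fun _ => (1 : ℂ)) p.1 :=
        (measurable_const.indicator hD₁).comp (@measurable_fst Ω X mΩ mY)
      have h2 : Measurable[mΩ.prod mY] fun p : Ω × X => e p.2 :=
        heY.comp (@measurable_snd Ω X mΩ mY)
      exact h1.mul h2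
    · have e1 : ∀ p : Ω × X, ‖(D₁ ×ˢ A).indicator (fun _ => (1 : ℂ)) p -
          (D₁.indicator (fun _ => (1 : ℂ)) p.1 * e p.2 + D₁.indicator (fun _ => (1 : ℂ)) p.1 *
            (A.indicator (fun _ => (1 : ℂ)) p.2 - e p.2))‖ = 0 := by
        intro p
        rw [norm_eq_zero]
        by_cases h1 : p.1 ∈ D₁ <;> by_cases h2 : p.2 ∈ A <;>
          simp [Set.indicator, Set.mem_prod, h1, h2]
      simp only [e1]
      rw [integral_zero]
      exact hε.le

end Pool.Agent.Run7.h484.KG
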