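import Pool.Agent.Run7.h484.KG.Line
import Pool.Agent.TH784.KE.Multi
import Pool.Agent.TH784.KE.One

/-!
# Convergence to zero of weighted averages over general finite sets
-/

set_option autoImplicit false
set_option linter.unusedSectionVars false

open MeasureTheory Filter Topology
open scoped ENNReal

noncomputable section

namespace Pool.Agent.Run7.h484.KG

open Pool.Agent.TH784.KE
open Pool.Agent.TH739.PA (av avr avr_add avr_mono avr_nonneg avr_abs avr_const_le avr_mul av_add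
  av_mul av_sub int_lim Good Cls_zero Cls_conv closed_slot av_norm av_ofReal)
open Pool.Agent.W761.Gauss (BM)

variable {ι : Type*}

open Classical in
/-- density zero -/
def DZg (B : ℕ → Finset ι) (E : Set ι) : Prop :=
  Tendsto (fun N => avr (B N) fun i => if i ∈ E then (1 : ℝ) else 0) atTop (𝓝 0)

/-- dispersion along the sets `B N`: outside a set of density zero, at most `L N` positions of
`B N` lie in an interval of length `R` -/
def Dispg (B : ℕ → Finset ι) (a : ι → ℝ) : Prop :=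
  ∀ R : ℝ, 0 < R → ∃ (L : ℕ → ℕ) (E : Set ι), (∀ N, 0 < L N) ∧
    (∀ η : ℝ, 0 < η → Summable fun N => (L N : ℝ) * Real.exp (-(η * ((B N).card / L N)))) ∧
    DZg B E ∧ ∀ N, ∀ T ⊆ B N, (∀ i ∈ T, i ∉ E) → ∀ s : ℝ,
      (∀ i ∈ T, s ≤ a i ∧ a i < s + R) → T.card ≤ L N

/-- separation -/
def Sepg (B : ℕ → Finset ι) (a b : ι → ℝ) : Prop :=
  ∀ R : ℝ, DZg B {i | |a i - b i| < R}

theorem DZg.union {B : ℕ → Finset ι} {E E' : Set ι} (h : DZg B E) (h' : DZg B E') :
    DZg B (E ∪ E') := by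
  classical
  unfold DZg at *
  have h2 := h.add h'
  rw [add_zero] at h2
  refine squeeze_zero (fun N => avr_nonneg fun n => by split_ifs <;> norm_num) (fun N => ?_) h2
  rw [← avr_add]
  refine avr_mono fun n _ => ?_
  by_cases h3 : n ∈ E
  · by_cases h4 : n ∈ E'
    · simp [h3, h4]
    · simp [h3, h4]
  · by_cases h4 : n ∈ E'
    · simp [h3, h4]
    · simp [h3, h4]

theorem DZg.empty (B : ℕ → Finset ι) : DZg B (∅ : Set ι) := by
  unfold DZg
  refine (tendsto_const_nhds (x := (0 : ℝ))).congr fun N => ?_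
  unfold avr
  symm
  apply mul_eq_zero_of_right
  apply Finset.sum_eq_zero
  intro n _
  rw [if_neg (Set.notMem_empty n)]

variable {X : Type} {mA mY mX : MeasurableSpace X} {μ : Measure X} [IsProbabilityMeasure μ]
variable {G : Type*} [Group G]
variable {Φ : G →* Equiv.Perm X} {ℓ : G → ℝ}
variable {J : Type*} [DecidableEq J] [Fintype J]

open Classical in
/-- sums of the successively orthogonal parts -/
theorem sums_ae [DecidableEq ι] (hFl : Flow μ Φ) (hA : Filt mX mA Φ ℓ) (hY : Base mY mA Φ)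
    {v : J} {q : ι → J → G} {F H : J → X → ℝ} {W : ι → X → ℝ} {r s : G} {R : ℝ}
    (hsr : ℓ s ≤ ℓ r) (hR : ℓ r - ℓ s ≤ R) (hR0 : 0 ≤ R)
    (hF : ∀ w, Measurable[cm mA Φ r] (F w) ∧ ∀ x, |F w x| ≤ 1)
    (hH : CE μ (cm mA Φ s) (F v) (H v))
    (hW : ∀ n, Measurable[mY] (W n) ∧ ∀ x, |W n x| ≤ 1)
    {B : ℕ → Finset ι} (hB : ∀ N, (B N).Nonempty) {L : ℕ → ℕ} {E : Set ι} (hL : ∀ N, 0 < L N)
    (hsum : ∀ η : ℝ, 0 < η → Summable fun N => (L N : ℝ) *
      Real.exp (-(η * ((B N).card / L N))))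
    (hmult : ∀ N, ∀ T ⊆ B N, (∀ i ∈ T, i ∉ E) → ∀ s : ℝ,
      (∀ i ∈ T, s ≤ ℓ (q i v) ∧ ℓ (q i v) < s + R) → T.card ≤ L N)
    {η : ℝ} (hη : 0 < η) (hη1 : η ≤ 1) :
    ∀ᵐ x ∂μ, ∀ᶠ N : ℕ in atTop, |∑ i ∈ (B N).filter (fun i => i ∉ E),
      DD Finset.univ Φ ℓ R F H (W i) (q i) v x| ≤ η * (B N).card := by
  let bad : ℕ → Set X := fun N => {x | η * (B N).card ≤ |∑ i ∈ (B N).filter (fun i => i ∉ E),
      DD Finset.univ Φ ℓ R F H (W i) (q i) v x|}
  have hbad : ∀ N, μ.real (bad N) ≤ 2 * ((L N : ℝ) *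
      Real.exp (-(η ^ 2 / 16 * ((B N).card / L N)))) := by
    intro N
    exact set_bound hFl hA hY (Finset.mem_univ v) hsr hR hR0 (fun w _ => hF w) hH hW (hL N)
      ((B N).filter fun i => i ∉ E) (Finset.card_pos.2 (hB N)) (Finset.card_filter_le _ _)
      (fun T hT s hs => hmult N T (hT.trans (Finset.filter_subset _ _))
        (fun i hi => (Finset.mem_filter.1 (hT hi)).2) s hs) hη hη1
  have hsummable := (hsum (η ^ 2 / 16) (by positivity)).mul_left 2
  have hfin : ∑' M, μ (bad M) ≠ ⊤ := by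
    have h3 : ∀ M, μ (bad M) ≤ ENNReal.ofReal (2 * ((L M : ℝ) *
        Real.exp (-(η ^ 2 / 16 * ((B M).card / L M))))) := by
      intro M
      have h4 := hbad M
      rw [measureReal_def] at h4
      rw [← ENNReal.ofReal_toReal (measure_ne_top μ (bad M))]
      exact ENNReal.ofReal_le_ofReal h4
    refine ne_top_of_le_ne_top ?_ (ENNReal.tsum_le_tsum h3)
    exact hsummable.tsum_ofReal_ne_top
  filter_upwards [ae_eventually_notMem hfin] with x hx
  filter_upwards [hx] with N hN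
  by_contra hcon
  rw [not_le] at hcon
  exact hN hcon.le

open Classical in
theorem bound_set [DecidableEq ι] [Nonempty J] (hFl : Flow μ Φ) (hA : Filt mX mA Φ ℓ)
    (hY : Base mY mA Φ) {q : ι → J → G}
    {F H : J → X → ℝ} {W : ι → X → ℝ} {r s : G} {R : ℝ} (hsr : ℓ s ≤ ℓ r)
    (hR : ℓ r - ℓ s ≤ R) (hR0 : 0 < R)
    (hF : ∀ v, Measurable[cm mA Φ r] (F v)) (hF1 : ∀ v x, |F v x| ≤ 1)
    (hW : ∀ n, Measurable[mY] (W n) ∧ ∀ x, |W n x| ≤ 1)
    (hH : ∀ v, CE μ (cm mA Φ s) (F v) (H v))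
    {B : ℕ → Finset ι} (hB : ∀ N, (B N).Nonempty) {L : J → ℕ → ℕ} {E : J → Set ι}
    (hL : ∀ v N, 0 < L v N)
    (hsum : ∀ v, ∀ η : ℝ, 0 < η → Summable fun N => (L v N : ℝ) *
      Real.exp (-(η * ((B N).card / L v N))))
    (hmult : ∀ v N, ∀ T ⊆ B N, (∀ i ∈ T, i ∉ E v) → ∀ s : ℝ,
      (∀ i ∈ T, s ≤ ℓ (q i v) ∧ ℓ (q i v) < s + R) → T.card ≤ L v N)
    {η : ℝ} (hη : 0 < η) :
    ∀ᵐ x ∂μ, ∀ᶠ N : ℕ in atTop,
      |avr (B N) fun n => (∏ v, F v (Φ (q n v) x)) * W n x| ≤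
        η + (avr (B N) (fun n => errb Φ ℓ R H Finset.univ (q n) x) +
          ∑ v, 2 * avr (B N) fun n => if n ∈ E v then (1 : ℝ) else 0) := by
  set η' : ℝ := min 1 (η / (Fintype.card J + 1)) with hη'
  have hη'0 : 0 < η' := lt_min one_pos (by positivity)
  have hlines : ∀ᵐ x ∂μ, ∀ v, ∀ᶠ N : ℕ in atTop, |∑ i ∈ (B N).filter (fun i => i ∉ E v),
      DD Finset.univ Φ ℓ R F H (W i) (q i) v x| ≤ η' * (B N).card := by
    rw [ae_all_iff]
    intro v
    exact sums_ae hFl hA hY hsr hR hR0.le (fun w => ⟨hF w, hF1 w⟩) (hH v) hW hB (hL v) (hsum v)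
      (hmult v) hη'0 (min_le_left _ _)
  filter_upwards [hlines] with x hx
  filter_upwards [eventually_all.2 hx] with N hN
  have hc : (0 : ℝ) < (B N).card := by exact_mod_cast Finset.card_pos.2 (hB N)
  have hDD : ∀ v i, |DD Finset.univ Φ ℓ R F H (W i) (q i) v x| ≤ 2 := fun v i =>
    DD_abs (Φ := Φ) (ℓ := ℓ) (R := R) (Finset.mem_univ v) (fun w _ => hF1 w) (hH v).2.1 (hW i).2
      (q i) x
  have h1 : ∀ v, |∑ i ∈ B N, DD Finset.univ Φ ℓ R F H (W i) (q i) v x| ≤
      η' * (B N).card + ∑ i ∈ B N, 2 * (if i ∈ E v then (1 : ℝ) else 0) := by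
    intro v
    rw [← Finset.sum_filter_add_sum_filter_not (B N) (fun i => i ∉ E v)]
    refine (abs_add_le _ _).trans (add_le_add (hN v) ?_)
    refine (Finset.abs_sum_le_sum_abs _ _).trans ?_
    have h2 : ∑ i ∈ B N, 2 * (if i ∈ E v then (1 : ℝ) else 0) =
        ∑ i ∈ (B N).filter (fun i => ¬ i ∉ E v), (2 : ℝ) := by
      rw [Finset.sum_filter]
      refine Finset.sum_congr rfl fun i _ => ?_
      by_cases h : i ∈ E v
      · simp [h]
      · simp [h]
    rw [h2]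
    exact Finset.sum_le_sum fun i _ => hDD v i
  have e3 : ∑ i ∈ B N, (∏ v, F v (Φ (q i v) x)) * W i x =
      ∑ v, ∑ i ∈ B N, DD Finset.univ Φ ℓ R F H (W i) (q i) v x +
      ∑ i ∈ B N, ((∏ v, F v (Φ (q i v) x)) * W i x -
        ∑ v, DD Finset.univ Φ ℓ R F H (W i) (q i) v x) := by
    rw [Finset.sum_comm, ← Finset.sum_add_distrib]
    refine Finset.sum_congr rfl fun t _ => ?_
    ring
  have h4 : |∑ i ∈ B N, (∏ v, F v (Φ (q i v) x)) * W i x| ≤
      ∑ v : J, (η' * (B N).card + ∑ i ∈ B N, 2 * (if i ∈ E v then (1 : ℝ) else 0)) +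
        ∑ i ∈ B N, errb Φ ℓ R H Finset.univ (q i) x := by
    rw [e3]
    refine (abs_add_le _ _).trans (add_le_add ?_ ?_)
    · exact (Finset.abs_sum_le_sum_abs _ _).trans (Finset.sum_le_sum fun v _ => h1 v)
    · refine (Finset.abs_sum_le_sum_abs _ _).trans (Finset.sum_le_sum fun t _ => ?_)
      exact pointwise Finset.univ_nonempty hR0 (fun w _ => hF1 w) (hW _).2 _ x
  have h5 : |avr (B N) fun n => (∏ v, F v (Φ (q n v) x)) * W n x| ≤
      ((B N).card : ℝ)⁻¹ * (∑ v : J, (η' * (B N).card +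
        ∑ i ∈ B N, 2 * (if i ∈ E v then (1 : ℝ) else 0)) +
        ∑ i ∈ B N, errb Φ ℓ R H Finset.univ (q i) x) := by
    unfold avr
    rw [abs_mul, abs_of_pos (inv_pos.2 hc)]
    exact mul_le_mul_of_nonneg_left h4 (inv_pos.2 hc).le
  refine h5.trans ?_
  have h6 : ((B N).card : ℝ)⁻¹ * (∑ v : J, (η' * (B N).card +
        ∑ i ∈ B N, 2 * (if i ∈ E v then (1 : ℝ) else 0)) +
        ∑ i ∈ B N, errb Φ ℓ R H Finset.univ (q i) x) =
      Fintype.card J * η' + (avr (B N) (fun n => errb Φ ℓ R H Finset.univ (q n) x) +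
        ∑ v, 2 * avr (B N) fun n => if n ∈ E v then (1 : ℝ) else 0) := by
    unfold avr
    rw [Finset.sum_add_distrib, Finset.sum_const, Finset.card_univ, nsmul_eq_mul]
    have e1 : ∀ v : J, ∑ i ∈ B N, 2 * (if i ∈ E v then (1 : ℝ) else 0) =
        2 * ∑ i ∈ B N, (if i ∈ E v then (1 : ℝ) else 0) := fun v => by rw [Finset.mul_sum]
    simp only [e1]
    rw [← Finset.mul_sum Finset.univ]
    have e2 : ∑ v : J, 2 * (((B N).card : ℝ)⁻¹ * ∑ i ∈ B N, (if i ∈ E v then (1 : ℝ) else 0)) =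
        2 * (((B N).card : ℝ)⁻¹ * ∑ v : J, ∑ i ∈ B N, (if i ∈ E v then (1 : ℝ) else 0)) := by
      rw [Finset.mul_sum, Finset.mul_sum]
    rw [e2]
    field_simp
    ring
  rw [h6]
  have h7 : (Fintype.card J : ℝ) * η' ≤ η := by
    have h8 : η' ≤ η / (Fintype.card J + 1) := min_le_right _ _
    calc (Fintype.card J : ℝ) * η' ≤ Fintype.card J * (η / (Fintype.card J + 1)) :=
          mul_le_mul_of_nonneg_left h8 (by positivity)
      _ ≤ η := by
          rw [mul_div_assoc', div_le_iff₀ (by positivity)]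
          nlinarith
  linarith

/-- **Convergence to zero.** -/
theorem set_zero [Nonempty J] (hFl : Flow μ Φ) (hA : Filt mX mA Φ ℓ)
    (hY : Base mY mA Φ) {q : ι → J → G} {B : ℕ → Finset ι} (hB : ∀ N, (B N).Nonempty)
    (hdisp : ∀ v, Dispg B fun n => ℓ (q n v))
    (hsepa : ∀ v w, v ≠ w → Sepg B (fun n => ℓ (q n v)) (fun n => ℓ (q n w)))
    (hgood : ∀ v, Good atTop B μ fun n => (Φ (q n v) : X → X))
    {F : J → X → ℝ} {W : ι → X → ℝ} {r : G}
    (hF : ∀ v, Measurable[cm mA Φ r] (F v)) (hF1 : ∀ v x, |F v x| ≤ 1)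
    (hW : ∀ n, Measurable[mY] (W n) ∧ ∀ x, |W n x| ≤ 1)
    (hsm : ∀ ε : ℝ, 0 < ε → ∃ s : G, ℓ s ≤ ℓ r ∧ ∃ H : J → X → ℝ,
      (∀ v, CE μ (cm mA Φ s) (F v) (H v)) ∧ ∀ v, ∫ x, |H v x| ∂μ ≤ ε) :
    ∀ᵐ x ∂μ, Tendsto (fun N => avr (B N) fun n => (∏ v, F v (Φ (q n v) x)) * W n x)
      atTop (𝓝 0) := by
  classical
  have hbad : ∀ δ : ℝ, 0 < δ → ∀ᵐ x ∂μ, ∀ᶠ N : ℕ in atTop,
      |avr (B N) fun n => (∏ v, F v (Φ (q n v) x)) * W n x| ≤ δ := by
    intro δ hδ
    rw [ae_iff, ← nonpos_iff_eq_zero]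
    apply ENNReal.le_of_forall_pos_le_add
    intro ε hε _
    rw [zero_add]
    have hε' : (0 : ℝ) < ε := by exact_mod_cast hε
    obtain ⟨s, hsr, H, hH, hHs⟩ := hsm (ε * (δ / 4) / (Fintype.card J + 1)) (by positivity)
    set R : ℝ := max (ℓ r - ℓ s) 1 with hRdef
    have hR : ℓ r - ℓ s ≤ R := le_max_left _ _
    have hR0 : 0 < R := lt_of_lt_of_le one_pos (le_max_right _ _)
    choose L Ex hL hsum hEx hmult using fun v => hdisp v R hR0
    have hHm : ∀ v, Measurable (H v) := fun v => (hH v).1.mono (cm_le hFl hA s) le_rfl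
    let E : J → X → ℝ := fun v x => limUnder atTop
      (fun N => avr (B N) fun n => |H v (Φ (q n v) x)|)
    have hE : ∀ v, ∀ᵐ x ∂μ, Tendsto (fun N => avr (B N) fun n => |H v (Φ (q n v) x)|)
        atTop (𝓝 (E v x)) := by
      intro v
      have h4 := hgood v (fun x => |H v x|)
        (hHm v).abs ⟨1, fun x => by rw [abs_abs]; exact (hH v).2.1 x⟩
      filter_upwards [h4] with x hx
      exact tendsto_nhds_limUnder hx
    have hEint : ∀ v, 0 ≤ᵐ[μ] E v ∧ Integrable (E v) μ ∧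
        ∫ x, E v x ∂μ ≤ ∫ x, |H v x| ∂μ := by
      intro v
      exact int_lim (fun n => hFl (q n v)) (hHm v).abs (zero_le_one (α := ℝ))
        (fun x => by rw [abs_abs]; exact (hH v).2.1 x) (fun x => abs_nonneg _) (hE v)
    let T : X → ℝ := fun x => ∑ v, E v x
    have hT0 : 0 ≤ᵐ[μ] T := by
      have : ∀ᵐ x ∂μ, ∀ v, 0 ≤ E v x := ae_all_iff.2 fun v => (hEint v).1
      filter_upwards [this] with x hx
      exact Finset.sum_nonneg fun v _ => hx v
    have hTi : Integrable T μ := integrable_finsetSum _ fun v _ => (hEint v).2.1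
    have hTint : ∫ x, T x ∂μ ≤ ε * (δ / 4) := by
      have : ∫ x, T x ∂μ = ∑ v, ∫ x, E v x ∂μ :=
        integral_finsetSum _ fun v _ => (hEint v).2.1
      rw [this]
      refine (Finset.sum_le_sum fun v _ => ((hEint v).2.2.trans (hHs v))).trans ?_
      rw [Finset.sum_const, nsmul_eq_mul, mul_div_assoc', div_le_iff₀ (by positivity),
        Finset.card_univ]
      have : 0 ≤ ε * (δ / 4) := by positivity
      nlinarith
    have hmark := mul_meas_ge_le_integral_of_nonneg hT0 hTi (δ / 4)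
    have hmark' : μ.real {x | δ / 4 ≤ T x} ≤ ε := by
      have h5 : δ / 4 * μ.real {x | δ / 4 ≤ T x} ≤ δ / 4 * ε := by
        refine (hmark.trans hTint).trans ?_
        rw [mul_comm]
      exact le_of_mul_le_mul_left h5 (by positivity)
    have hmain := bound_set (η := δ / 4) hFl hA hY hsr hR hR0 hF hF1 hW hH hB hL hsum hmult
      (by positivity)
    have hEall : ∀ᵐ x ∂μ, ∀ v, Tendsto (fun N => avr (B N) fun n =>
        |H v (Φ (q n v) x)|) atTop (𝓝 (E v x)) := ae_all_iff.2 hE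
    have hclose : Tendsto (fun N => ∑ v, ∑ w ∈ Finset.univ.erase v, avr (B N)
        (fun n => if |ℓ (q n v) - ℓ (q n w)| < R then (1 : ℝ) else 0))
        atTop (𝓝 0) := by
      have h5 : Tendsto (fun N => ∑ v, ∑ w ∈ Finset.univ.erase v, avr (B N)
          (fun n => if |ℓ (q n v) - ℓ (q n w)| < R then (1 : ℝ) else 0))
          atTop (𝓝 (∑ v : J, ∑ _w ∈ Finset.univ.erase v, (0 : ℝ))) := by
        refine tendsto_finsetSum _ fun v _ => tendsto_finsetSum _ fun w hw => ?_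
        exact (hsepa v w (Finset.ne_of_mem_erase hw).symm R)
      rw [Finset.sum_eq_zero fun v _ => Finset.sum_const_zero] at h5
      exact h5
    have hlz : Tendsto (fun N => ∑ v, 2 * avr (B N) (fun n => if n ∈ Ex v then (1 : ℝ) else 0))
        atTop (𝓝 0) := by
      have h5 := tendsto_finsetSum (Finset.univ : Finset J) fun v _ => (hEx v).const_mul 2
      simp only [mul_zero] at h5
      rw [Finset.sum_const_zero] at h5
      refine h5.congr fun N => ?_
      refine Finset.sum_congr rfl fun l _ => ?_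
      congr 1
    have hsub : ∀ᵐ x ∂μ, x ∈ {x | ¬ ∀ᶠ N : ℕ in atTop,
        |avr (B N) fun n => (∏ v, F v (Φ (q n v) x)) * W n x| ≤ δ} → x ∈ {x | δ / 4 ≤ T x} := by
      filter_upwards [hmain, hEall] with x hx1 hx2 hx3
      show δ / 4 ≤ T x
      by_contra hcon
      rw [not_le] at hcon
      apply hx3
      have h6 : Tendsto (fun N => ∑ v, avr (B N) fun n => |H v (Φ (q n v) x)|)
          atTop (𝓝 (T x)) := tendsto_finsetSum _ fun v _ => hx2 v
      have h7 := (tendsto_order.mp h6).2 _ hcon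
      have h8 := (tendsto_order.mp hclose).2 (δ / 4) (by positivity)
      have h9 := (tendsto_order.mp hlz).2 (δ / 4) (by positivity)
      filter_upwards [hx1, h7, h8, h9] with N hN1 hN2 hN3 hN4
      refine hN1.trans ?_
      have e : (avr (B N) fun n => errb Φ ℓ R H Finset.univ (q n) x) =
          ∑ v, (avr (B N) fun n => |H v (Φ (q n v) x)|) +
          ∑ v, ∑ w ∈ Finset.univ.erase v, avr (B N)
            (fun n => if |ℓ (q n v) - ℓ (q n w)| < R then (1 : ℝ) else 0) := by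
        unfold errb avr
        rw [Finset.sum_add_distrib, mul_add, Finset.sum_comm, Finset.mul_sum]
        congr 1
        rw [Finset.sum_comm, Finset.mul_sum]
        refine Finset.sum_congr rfl fun v _ => ?_
        rw [Finset.sum_comm, Finset.mul_sum]
      rw [e]
      linarith
    have h10 : μ {x | ¬ ∀ᶠ N : ℕ in atTop,
        |avr (B N) fun n => (∏ v, F v (Φ (q n v) x)) * W n x| ≤ δ} ≤ μ {x | δ / 4 ≤ T x} :=
      measure_mono_ae hsub
    refine h10.trans ?_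
    have h9 : μ {x | δ / 4 ≤ T x} = ENNReal.ofReal (μ.real {x | δ / 4 ≤ T x}) := by
      rw [measureReal_def, ENNReal.ofReal_toReal (measure_ne_top _ _)]
    rw [h9]
    calc ENNReal.ofReal (μ.real {x | δ / 4 ≤ T x}) ≤ ENNReal.ofReal (ε : ℝ) :=
          ENNReal.ofReal_le_ofReal hmark'
      _ = ε := ENNReal.ofReal_coe_nnreal
  have hall := ae_all_iff.mpr fun i : ℕ => hbad (1 / ((i : ℝ) + 1)) (by positivity)
  filter_upwards [hall] with x hx
  rw [Metric.tendsto_nhds]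
  intro ε hε
  obtain ⟨i, hi⟩ := exists_nat_one_div_lt hε
  filter_upwards [hx i] with N hN
  rw [Real.dist_eq, sub_zero]
  exact hN.trans_lt hi

end Pool.Agent.Run7.h484.KG
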